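import Mathlib
import Pool.Agent.H508.W.Jt
import Pool.Agent.H508.W.Kl
import Pool.Agent.H428.AX.Law

/-!
# The `3`-part of the strong conjecture of Birch and Swinnerton-Dyer for all the curves `y² + B y = x³`
# over `ℚ(√-3)`: the criterion, the law, and the joint law for simultaneous cubic twists

`K = ℚ(√-3)` is the field of the third roots of unity and `E_B` is the curve `y² + B y = x³` over `K`, a
cubic twist of `y² + y = x³`.  `B` is an element of `𝓞 K` which is cube-free and prime to `3`.  `B` is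
excluded if `B ≡ ± 1` modulo `3` and `N B ≡ 1` modulo `9`.

CRITERION.  Let `B` be ANY cube-free element prime to `3`, not a unit and not excluded.  Then the equation
`y² + B y = x³` is minimal everywhere, `c_v = 3` for `v ∣ B`, `c_v` is prime to `3` for the other `v`, the
`3`-part of `E_B(K)_tors` has order `3`, `L(E_B/K, s)` is entire, and the order of `Ш(E_B/K)` which is
predicted for the rank zero,

  `z = L(E_B/K, 1) √3 #E_B(K)_tors² / (Ω ∏ c_v)`,

is a rational number, nonnegative and integral at `3`, the same for all the embeddings of `K` and all the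
bases of the periods.  The following are equivalent:
* `z` is not zero and prime to `3`;
* `E_B(K)` is finite and the `3`-primary part of `Ш(E_B/K)` is trivial (`Trivial`);
* the `3`-part of the conjecture holds, both sides being units at `3` (`ThreePart`);
* `B` has the corank zero (`Corank`), which is a condition on the cubic residue symbols between the prime
  divisors of `B`.
The rank of `E_B(K)` is at most twice the corank.

THE LAW.  Let `B` run through ALL the cube-free elements prime to `3`, ordered by the norm; there are at least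
`c X` such `B` of norm at most `X`.  The share of the `B` which are not excluded (and not units) is `8/9`; among
these the corank is `r` for the share `p_r = p_0 / ∏_{1 ≤ i ≤ r} (3^i - 1)`,
`p_0 = ∏_{i ≥ 0} (1 - 3^{-(2 i + 1)}) = 0.6390…`.  So the `3`-part of the conjecture, both sides being units at
`3`, holds for exactly the share `8/9 p_0 = 0.568…` of ALL the curves as not excluded ones, in particular for
more than `56.8 %` of all the curves `E_B`.

JOINT LAW.  Let `A_1, …, A_m` be cube-free elements prime to `3`, no quotient `A_i / A_j`, `i ≠ j`, a cube, and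
`B_i = A_i D`, where `D` runs through ALL the cube-free elements of `𝓞 K` which are prime to `3` and to the
`A_i`.  The class `upTo` of the `D` for which no `B_i` is excluded or a unit has the share `(9 - n) / 9`,
`n = classes A ≤ m`.  In the class the events that the `3`-part of the conjecture holds for
`E_{B_1}, …, E_{B_m}` are independent and have the probability `p_0`: for each set `T` of indices the share of
the `D` for which it holds in this form exactly for the `B_i` with `i ∈ T` tends to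
`p_0 ^ #T (1 - p_0) ^ (m - #T)`.  The coranks are independent as well.  So the `3`-part holds for all the `m`
curves `E_{B_i}` at once for a share of at least `(9 - n) / 9 * p_0 ^ m` of all the `D`.

The corank.  Every `B` which is cube-free and prime to `3` is `± ω ^ k ∏ π_i ^ e_i` with different primes
`π_i ≡ 1` modulo `3`, `e_i = 1, 2` and a unique `k` modulo `3`.  The corank `r` of `B` is defined by the cubic
residue symbols `χ_{ji} = (π_i / π_j)_3` and `q_j = (N π_j - 1) / 3` (so that `(ω / π_j)_3 = q_j`): the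
system `∑_i e_i χ_{ji} (v_i - v_j) = k q_j v_j` over the field with three elements has `3 ^ r` solutions if
`k ≠ 0` and `3 ^ (r + 1)` solutions if `k = 0`.

The factor `Ω` is twice the area of a fundamental parallelogram of the lattice of the periods of
`dx / (2 y + B)`; the other common normalizations of the measure differ by powers of `2`, which does not
matter for the `3`-part.

## Proof

The joint law of the coranks for the squarefree `D` is from the engine of
`MP_cd906c_nt.CubicTwistsAllClasses` (helper462, files `H462/CTU` and `H462/JL`), the law for all the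
cube-free `D` from helper428 (files `H428/AX`: `D = c² D'` and dominated convergence), the case of the
squarefree `B` and one twist of the criterion is `MP_e996df_nt.CubicTwistsThreePart` (helper428, files
`H428/TP`).  New are the numbers `c_v` and the periods for cube-free `B` (`H508/W/Td`, `H508/W/Tam`), so that
the numbers `B` with `v(B) = 2` are included, the rationality of `z` for these (`H508/Y`), the criterion for
all the `B` (`H508/W/Law`, `H508/W/Kl`) and the law of the set of the indices (`H508/W/Jt`).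
-/

set_option autoImplicit false

open NumberField IsDedekindDomain Filter
open Pool.Agent.TH841.NF.D (Sha)
open scoped Classical Topology

namespace Pool.Agent.Results.MP_1a91b9_nt.CubicTwistsJointLaw

/-- The curve `E_B : y² + B y = x³`. -/
def curve {K : Type} [Field K] (B : K) : WeierstrassCurve K := ⟨0, 0, B, 0, 0⟩

/-- The rank of `E(K)`. -/
noncomputable def rank {K : Type} [Field K] (E : WeierstrassCurve K) : ℕ :=
  Module.finrank ℤ E.toAffine.Point

section
variable {K : Type} [Field K] [NumberField K]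

/-- The equation `E` is minimal at every finite place `v`, and `c v` is the Tamagawa number of `E` at
`v`: the index in `E(K_v)` of the subgroup of the points of nonsingular reduction. -/
def IsTamagawa (E : WeierstrassCurve K) (c : HeightOneSpectrum (𝓞 K) → ℕ) : Prop :=
  (∀ v : HeightOneSpectrum (𝓞 K),
    (E.baseChange (v.adicCompletion K)).IsMinimal (v.adicCompletionIntegers K) ∧
    ∃ H : AddSubgroup (E.baseChange (v.adicCompletion K)).toAffine.Point,
      (∀ P, P ∈ H ↔ Pool.Agent.Y696.NonsingRed Valued.v (E.baseChange (v.adicCompletion K)) P) ∧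
      H.index = c v) ∧
  {v | c v ≠ 1}.Finite

/-- `Λ` is the lattice of periods of the differential `dx / (2y + a₁x + a₃)` of the curve `E`, embedded
in the complex numbers by `σ`. -/
def IsPeriodLattice (E : WeierstrassCurve K) (σ : K →+* ℂ) (Λ : PeriodPair) : Prop :=
  Λ.g₂ = σ E.c₄ / 12 ∧ Λ.g₃ = σ E.c₆ / 216

/-- Twice the area of a fundamental parallelogram of the lattice. -/
noncomputable def period (Λ : PeriodPair) : ℝ := 2 * |((starRingEnd ℂ) Λ.ω₁ * Λ.ω₂).im|

/-- `L` is the entire continuation of the `L`-series of `E`. -/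
def IsLFunction (E : WeierstrassCurve K) (L : ℂ → ℂ) : Prop :=
  Differentiable ℂ L ∧ ∀ s : ℂ, 3 / 2 < s.re →
    LSeriesSummable ((fun n : ℤ => (n : ℂ)) ∘ E.LFunction) s ∧ L s = E.LSeries s

/-- `L(E/K, 1) √|disc K| #E(K)_tors² / (Ω ∏ c_v)` for a curve `E` over an imaginary quadratic field
`K`: if the rank is `0`, the conjecture says that this is the order of `Ш(E/K)`. -/
noncomputable def quotient (E : WeierstrassCurve K) (L : ℂ → ℂ)
    (c : HeightOneSpectrum (𝓞 K) → ℕ) (Λ : PeriodPair) : ℂ :=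
  L 1 * (Real.sqrt |(discr K : ℝ)| : ℝ) *
    (Nat.card (AddCommGroup.torsion E.toAffine.Point) : ℂ) ^ 2 /
      ((period Λ : ℂ) * ((∏ᶠ v, c v : ℕ) : ℂ))

/-- `E(K)` is finite and the `3`-primary part of `Ш(E/K)` is trivial. -/
def Trivial (E : WeierstrassCurve K) : Prop :=
  Finite E.toAffine.Point ∧ ∀ (n : ℕ) (x : Sha E), 3 ^ n • x = 0 → x = 0

/-- The rational number `z` is the value of the quotient for all the embeddings `σ` of `K` and all the
bases of the lattice of periods. -/
def IsValue (E : WeierstrassCurve K) (L : ℂ → ℂ) (c : HeightOneSpectrum (𝓞 K) → ℕ) (z : ℚ) : Prop :=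
  ∀ σ : K →+* ℂ, (∃ Λ : PeriodPair, IsPeriodLattice E σ Λ) ∧
    ∀ Λ : PeriodPair, IsPeriodLattice E σ Λ → quotient E L c Λ = z

/-- **The `3`-part of the conjecture** for `E/K`, both sides of the formula being units at `3`: `E(K)` is
finite, the `3`-primary part of `Ш(E/K)` is trivial, the `L`-function is entire and does not vanish at
`1`, and the predicted order of `Ш(E/K)` is a positive rational number with the `3`-adic valuation
`0`. -/
def ThreePart (E : WeierstrassCurve K) : Prop :=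
  Trivial E ∧
  ∃ (L : ℂ → ℂ) (c : HeightOneSpectrum (𝓞 K) → ℕ) (z : ℚ),
    IsLFunction E L ∧ IsTamagawa E c ∧ L 1 ≠ 0 ∧ IsValue E L c z ∧ 0 < z ∧ padicValRat 3 z = 0

/-- `B` is cube-free and prime to `3`. -/
def CubeFreePrimeToThree (B : 𝓞 K) : Prop :=
  (∀ π : 𝓞 K, Prime π → ¬ π ^ 3 ∣ B) ∧ ¬ (3 : ℤ) ∣ Algebra.norm ℤ B

/-- `B` is `± 1` modulo `3` and its norm is `1` modulo `9`. -/
def Excluded (B : 𝓞 K) : Prop := (3 : 𝓞 K) ∣ B ^ 2 - 1 ∧ (9 : ℤ) ∣ Algebra.norm ℤ B - 1

/-- `B` is not a unit and not excluded. -/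
def Good (B : 𝓞 K) : Prop := ¬ IsUnit B ∧ ¬ Excluded B

/-- `B` is the product of `± ω ^ k` and of the powers `π i ^ e i` of different primes `π i`, which are
`1` modulo `3`, and the cubic residue symbol of `π i` modulo `π j` is `ω ^ χ j i`. -/
def IsFactorization (ω B : 𝓞 K) (k : ZMod 3) (n : ℕ) (π : Fin n → 𝓞 K) (e : Fin n → ZMod 3)
    (χ : Fin n → Fin n → ZMod 3) : Prop :=
  (∀ i, Prime (π i) ∧ (3 : 𝓞 K) ∣ π i - 1 ∧ e i ≠ 0) ∧ Function.Injective π ∧
  (B = ω ^ k.val * ∏ i, π i ^ (e i).val ∨ B = -(ω ^ k.val * ∏ i, π i ^ (e i).val)) ∧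
  ∀ i j, i ≠ j →
    π j ∣ π i ^ (((Algebra.norm ℤ (π j)).natAbs - 1) / 3) - ω ^ (χ j i).val

/-- The number of the solutions of the system `∑_i e_i χ_{ji} (v_i - v_j) = k q_j v_j`, where
`q_j = (N π_j - 1) / 3`, over the field with three elements. -/
noncomputable def solutions (k : ZMod 3) {n : ℕ} (π : Fin n → 𝓞 K) (e : Fin n → ZMod 3)
    (χ : Fin n → Fin n → ZMod 3) : ℕ :=
  Nat.card {v : Fin n → ZMod 3 // ∀ j, ∑ i, e i * χ j i * (v i - v j) =
    k * (((Algebra.norm ℤ (π j) - 1) / 3 : ℤ) : ZMod 3) * v j}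

/-- `B` has the corank `r`. -/
def Corank (B : 𝓞 K) (r : ℕ) : Prop :=
  ∃ (ω : 𝓞 K) (k : ZMod 3) (n : ℕ) (π : Fin n → 𝓞 K) (e : Fin n → ZMod 3)
    (χ : Fin n → Fin n → ZMod 3),
    ω ^ 2 + ω + 1 = 0 ∧ IsFactorization ω B k n π e χ ∧
      solutions k π e χ = if k = 0 then 3 ^ (r + 1) else 3 ^ r

/-- All the cube-free `B` prime to `3`, of norm at most `X`. -/
def curves (K : Type) [Field K] [NumberField K] (X : ℕ) : Set (𝓞 K) :=
  {B : 𝓞 K | Algebra.norm ℤ B ≤ X ∧ CubeFreePrimeToThree B}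

/-- The cube-free `D` which are prime to `3` and to the `A i`, of norm at most `X`. -/
def all {m : ℕ} (A : Fin m → 𝓞 K) (X : ℕ) : Set (𝓞 K) :=
  {D : 𝓞 K | Algebra.norm ℤ D ≤ X ∧ CubeFreePrimeToThree D ∧ ∀ i, IsCoprime (A i) D}

/-- The `D` of `all` for which no `A i * D` is a unit or excluded. -/
def upTo {m : ℕ} (A : Fin m → 𝓞 K) (X : ℕ) : Set (𝓞 K) := {D ∈ all A X | ∀ i, Good (A i * D)}

/-- The number of the different pairs `(A_i ^ 2 mod 3, N(A_i) mod 9)`. -/
noncomputable def classes {m : ℕ} (A : Fin m → 𝓞 K) : ℕ :=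
  (Set.range fun i => (Ideal.Quotient.mk (Ideal.span {(3 : 𝓞 K)}) (A i ^ 2),
    ((Algebra.norm ℤ (A i) : ℤ) : ZMod 9))).ncard

/-- The `3`-part of the conjecture holds for the curve `E_B`. -/
def Holds (B : 𝓞 K) : Prop := ThreePart (curve (B : K))

end

/-- The share of the elements with the property `P` in the sets `C X` tends to `w`. -/
def HasShare {α : Type} (C : ℕ → Set α) (P : α → Prop) (w : ℝ) : Prop :=
  Tendsto (fun X : ℕ => (({D ∈ C X | P D}.ncard : ℕ) : ℝ) / ((C X).ncard : ℝ)) atTop (𝓝 w)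

/-- `p_0 = ∏_{i ≥ 0} (1 - 3^{-(2 i + 1)})`. -/
noncomputable def p0 : ℝ := ∏' i : ℕ, (1 - (1 / 3 : ℝ) ^ (2 * i + 1))

/-- `p_r = p_0 / ∏_{1 ≤ i ≤ r} (3 ^ i - 1)`. -/
noncomputable def pr (r : ℕ) : ℝ := p0 / ∏ i ∈ Finset.range r, ((3 : ℝ) ^ (i + 1) - 1)

section proof
variable {K : Type} [Field K] [NumberField K]

lemma lattice_iff (D : K) (σ : K →+* ℂ) (Λ : PeriodPair) :
    IsPeriodLattice (curve D) σ Λ ↔ Λ.g₂ = 0 ∧ Λ.g₃ = -(σ D) ^ 2 := by
  have h4 : (curve D).c₄ = 0 := by
    simp [curve, WeierstrassCurve.c₄, WeierstrassCurve.b₂, WeierstrassCurve.b₄]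
  have h6 : (curve D).c₆ = -216 * D ^ 2 := by
    simp [curve, WeierstrassCurve.c₆, WeierstrassCurve.b₂, WeierstrassCurve.b₄,
      WeierstrassCurve.b₆]
  unfold IsPeriodLattice
  rw [h4, h6, map_zero, zero_div, map_mul, map_pow, map_neg, map_ofNat]
  have e : (-216 * (σ D) ^ 2 : ℂ) / 216 = -(σ D) ^ 2 := by ring
  rw [e]

lemma eventually_share {n m : ℕ → ℕ} {L : ℝ}
    (h : Filter.Tendsto (fun X : ℕ => (n X : ℝ) / (m X : ℝ)) Filter.atTop (nhds L)) (ε : ℝ)
    (hε : 0 < ε) : ∃ X₀ : ℕ, ∀ X : ℕ, X₀ ≤ X → (L - ε) * (m X : ℝ) ≤ (n X : ℝ) := by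
  obtain ⟨X₀, h1⟩ := Filter.eventually_atTop.1 ((tendsto_order.1 h).1 (L - ε) (by linarith))
  refine ⟨X₀, fun X hX => ?_⟩
  have h2 := h1 X hX
  rcases Nat.eq_zero_or_pos (m X) with h0 | h0
  · rw [h0, Nat.cast_zero, mul_zero]
    exact Nat.cast_nonneg _
  · rw [lt_div_iff₀ (by exact_mod_cast h0)] at h2
    exact h2.le

/-- The two sides of the formula for `E_B`, where `P` is the condition for the units. -/
def Law (B : 𝓞 K) (P : Prop) : Prop :=
  Finite (AddCommGroup.torsion (curve (B : K)).toAffine.Point) ∧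
    padicValNat 3 (Nat.card (AddCommGroup.torsion (curve (B : K)).toAffine.Point)) = 1 ∧
    ∃ (L : ℂ → ℂ) (c : HeightOneSpectrum (𝓞 K) → ℕ) (z : ℚ),
      IsLFunction (curve (B : K)) L ∧ IsTamagawa (curve (B : K)) c ∧
      (∀ v, B ∈ v.asIdeal → c v = 3) ∧ (∀ v, B ∉ v.asIdeal → ¬ 3 ∣ c v) ∧
      IsValue (curve (B : K)) L c z ∧ 0 ≤ z ∧ 0 ≤ padicValRat 3 z ∧
      ((z ≠ 0 ∧ padicValRat 3 z = 0) ↔ P)

variable [IsCyclotomicExtension {3} ℚ K]

theorem each {B : 𝓞 K} (hu : ¬ IsUnit B) (hb : ¬ Excluded B) {r : ℕ} (hr : Corank B r) :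
    rank (curve (B : K)) ≤ 2 * r ∧ (Trivial (curve (B : K)) ↔ r = 0) ∧ Law B (r = 0) := by
  obtain ⟨h0, h1, h2, h3, L, c, q, h4, h5, h6, h7, h8, h9, h10, h11⟩ :=
    Pool.Agent.H508.W.all_K hu hb hr
  refine ⟨h0, h3, h1, h2, L, c, q, h4, h5, h6, h7, fun σ => ?_, h9, h10, h11⟩
  obtain ⟨⟨Λ, hΛ⟩, h12⟩ := h8 σ
  refine ⟨⟨Λ, (lattice_iff _ σ Λ).2 hΛ⟩, fun Λ' hΛ' => ?_⟩
  have h13 := (lattice_iff _ σ Λ').1 hΛ'
  exact h12 Λ' h13.1 h13.2

/-- the `3`-part holds exactly if the corank is zero -/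
theorem three_iff {B : 𝓞 K} (hu : ¬ IsUnit B) (hb : ¬ Excluded B) {r : ℕ} (hr : Corank B r) :
    ThreePart (curve (B : K)) ↔ r = 0 := by
  obtain ⟨-, ht, -, -, L, c, z, h5, h6, -, -, h7, h8, -, h10⟩ := each hu hb hr
  constructor
  · rintro ⟨k1, -⟩
    exact ht.1 k1
  · intro h0
    obtain ⟨k1, k2⟩ := h10.2 h0
    refine ⟨ht.2 h0, L, c, z, h5, h6, ?_, h7, lt_of_le_of_ne h8 k1.symm, k2⟩
    intro hL
    obtain ⟨σ⟩ : Nonempty (K →+* ℂ) := inferInstance
    obtain ⟨⟨Λ, hΛ⟩, k3⟩ := h7 σ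
    have k4 := k3 Λ hΛ
    unfold quotient at k4
    rw [hL, zero_mul, zero_mul, zero_div] at k4
    exact k1 (by exact_mod_cast k4.symm)

theorem corank_unique {B : 𝓞 K} (hB : CubeFreePrimeToThree B) (hu : ¬ IsUnit B) :
    ∃! r, Corank B r :=
  Pool.Agent.H508.W.ex_cor hB hu

omit [NumberField K] [IsCyclotomicExtension {3} ℚ K] in
/-- the product of coprime cube-free elements -/
theorem cubeFree_mul {A D : 𝓞 K} (hA : CubeFreePrimeToThree A) (hD : CubeFreePrimeToThree D)
    (h : IsCoprime A D) : CubeFreePrimeToThree (A * D) := by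
  constructor
  · intro π hπ hd
    by_cases h1 : π ∣ A
    · have h2 : IsCoprime (π ^ 3) D := (h.of_isCoprime_of_dvd_left h1).pow_left
      exact hA.1 π hπ (h2.dvd_of_dvd_mul_right hd)
    · by_cases h3 : π ∣ D
      · have h2 : IsCoprime (π ^ 3) A := (h.symm.of_isCoprime_of_dvd_left h3).pow_left
        exact hD.1 π hπ (h2.dvd_of_dvd_mul_left hd)
      · rcases hπ.dvd_or_dvd ((dvd_pow_self π three_ne_zero).trans hd) with h4 | h4
        · exact h1 h4
        · exact h3 h4
  · rw [map_mul]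
    intro h1
    rcases Int.prime_three.dvd_or_dvd h1 with h2 | h2
    · exact hA.2 h2
    · exact hD.2 h2

/-- the law for the simultaneous twists -/
theorem law {m : ℕ} (hm : 0 < m) {A : Fin m → 𝓞 K} (hA : ∀ i, CubeFreePrimeToThree (A i))
    (hne : ∀ i j, i ≠ j → ∀ u : K, (A i : K) ≠ u ^ 3 * A j) :
    (∀ X, (all A X).Finite) ∧
    (∃ c : ℝ, 0 < c ∧ ∃ X₀ : ℕ, ∀ X : ℕ, X₀ ≤ X → c * X ≤ ((all A X).ncard : ℝ)) ∧
    classes A ≤ m ∧ classes A ≤ 9 ∧
    HasShare (all A) (fun D => ∀ i, Good (A i * D)) ((9 - classes A) / 9) ∧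
    (∀ r : Fin m → ℕ, HasShare (all A) (fun D => (∀ i, Good (A i * D)) ∧
      ∀ i, Corank (A i * D) (r i)) ((9 - classes A) / 9 * ∏ i, pr (r i))) ∧
    (classes A < 9 → ∀ r : Fin m → ℕ,
      HasShare (upTo A) (fun D => ∀ i, Corank (A i * D) (r i)) (∏ i, pr (r i))) := by
  have : Nonempty (Fin m) := ⟨⟨0, hm⟩⟩
  have hNe : Pool.Agent.H462.JL.NeK A (fun _ => false) := fun i j hij u => by
    rw [if_pos rfl]
    exact hne i j hij u
  have hcl : Pool.Agent.H462.JL.cellsK A (fun _ => false) = classes A := rfl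
  obtain ⟨h1, h2, h3, h4⟩ := Pool.Agent.H428.AX.final_law hA
  obtain ⟨-, -, h5, -⟩ := Pool.Agent.H462.JL.finalJ K A (fun _ => false) hA
  rw [hcl] at h3 h4 h5
  have hlaw : ∀ r : Fin m → ℕ, HasShare (all A) (fun D => (∀ i, Good (A i * D)) ∧
      ∀ i, Corank (A i * D) (r i)) ((9 - classes A) / 9 * ∏ i, pr (r i)) := h4 hNe
  have hcm : classes A ≤ m := by
    unfold classes
    rw [← Set.image_univ]
    refine (Set.ncard_image_le (Set.toFinite _)).trans ?_
    rw [Set.ncard_univ, Nat.card_eq_fintype_card, Fintype.card_fin]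
  refine ⟨h1, h2, hcm, h5, h3, hlaw, fun h9 r => ?_⟩
  obtain ⟨c, hc, X₀, h6⟩ := h2
  have hw : ((9 - classes A) / 9 : ℝ) ≠ 0 := by
    have h10 : (classes A : ℝ) < 9 := by exact_mod_cast h9
    have : (0 : ℝ) < (9 - classes A) / 9 := by linarith
    exact this.ne'
  have h7 := (hlaw r).div h3 hw
  rw [mul_div_cancel_left₀ _ hw] at h7
  refine h7.congr' ?_
  filter_upwards [eventually_ge_atTop (max X₀ 1)] with X hX
  have h8 : ((all A X).ncard : ℝ) ≠ 0 := by
    have h11 := h6 X ((le_max_left _ _).trans hX)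
    have h12 : (1 : ℝ) ≤ X := by exact_mod_cast (le_max_right _ _).trans hX
    have : 0 < c * (X : ℝ) := by positivity
    exact (this.trans_le h11).ne'
  have e1 : {D ∈ upTo A X | ∀ i, Corank (A i * D) (r i)} =
      {D ∈ all A X | (∀ i, Good (A i * D)) ∧ ∀ i, Corank (A i * D) (r i)} := by
    ext D
    exact and_assoc
  show _ = (({D ∈ upTo A X | ∀ i, Corank (A i * D) (r i)}.ncard : ℕ) : ℝ) / ((upTo A X).ncard : ℝ)
  rw [e1]
  exact div_div_div_cancel_right₀ h8 _ _

/-- the `3`-part holds for a cube-free `B` which is not excluded if and only if its corank is zero -/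
theorem holds_iff {B : 𝓞 K} (hB : CubeFreePrimeToThree B) (h : Good B) : Holds B ↔ Corank B 0 := by
  obtain ⟨r, hr, hu⟩ := corank_unique hB h.1
  refine (three_iff h.1 h.2 hr).trans ?_
  constructor
  · rintro rfl
    exact hr
  · intro h0
    exact (hu 0 h0).symm

end proof

/-- **Main theorem.** -/
theorem result (K : Type) [Field K] [NumberField K] [IsCyclotomicExtension {3} ℚ K] :
    -- (1) the criterion, for each cube-free `B` prime to `3` which is not a unit and not excluded
    (∀ B : 𝓞 K, CubeFreePrimeToThree B → Good B →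
      (∃! r, Corank B r) ∧
      (Holds B ↔ Trivial (curve (B : K))) ∧
      (Trivial (curve (B : K)) ↔ Corank B 0) ∧
      (∀ r, Corank B r → rank (curve (B : K)) ≤ 2 * r) ∧
      Finite (AddCommGroup.torsion (curve (B : K)).toAffine.Point) ∧
      padicValNat 3 (Nat.card (AddCommGroup.torsion (curve (B : K)).toAffine.Point)) = 1 ∧
      ∃ (L : ℂ → ℂ) (c : HeightOneSpectrum (𝓞 K) → ℕ) (z : ℚ),
        IsLFunction (curve (B : K)) L ∧ IsTamagawa (curve (B : K)) c ∧
        (∀ v, B ∈ v.asIdeal → c v = 3) ∧ (∀ v, B ∉ v.asIdeal → ¬ 3 ∣ c v) ∧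
        IsValue (curve (B : K)) L c z ∧ 0 ≤ z ∧ 0 ≤ padicValRat 3 z ∧
        ((z ≠ 0 ∧ padicValRat 3 z = 0) ↔ Trivial (curve (B : K)))) ∧
    -- (2) the law for all the curves
    (∀ X, (curves K X).Finite) ∧
    (∃ c : ℝ, 0 < c ∧ ∃ X₀ : ℕ, ∀ X : ℕ, X₀ ≤ X → c * X ≤ ((curves K X).ncard : ℝ)) ∧
    HasShare (curves K) Good (8 / 9) ∧
    (∀ r : ℕ, HasShare (curves K) (fun B => Good B ∧ Corank B r) (8 / 9 * pr r)) ∧
    HasShare (curves K) (fun B => Good B ∧ Holds B) (8 / 9 * p0) ∧
    (0.639 < p0 ∧ p0 < 0.6391) ∧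
    (∃ X₀ : ℕ, ∀ X : ℕ, X₀ ≤ X → 0.568 * ((curves K X).ncard : ℝ) ≤
      (({B ∈ curves K X | Holds B}.ncard : ℕ) : ℝ)) ∧
    -- (3) the simultaneous twists
    ∀ (m : ℕ) (A : Fin m → 𝓞 K), 0 < m → (∀ i, CubeFreePrimeToThree (A i)) →
      (∀ i j, i ≠ j → ∀ u : K, (A i : K) ≠ u ^ 3 * A j) →
      (∀ X, ∀ D ∈ all A X, ∀ i, CubeFreePrimeToThree (A i * D)) ∧
      (∃ c : ℝ, 0 < c ∧ ∃ X₀ : ℕ, ∀ X : ℕ, X₀ ≤ X → c * X ≤ ((all A X).ncard : ℝ)) ∧
      classes A ≤ m ∧ classes A ≤ 9 ∧
      HasShare (all A) (fun D => ∀ i, Good (A i * D)) ((9 - classes A) / 9) ∧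
      (classes A < 9 → ∀ T : Finset (Fin m),
        HasShare (upTo A) (fun D => ∀ i, Holds (A i * D) ↔ i ∈ T)
          (p0 ^ T.card * (1 - p0) ^ (m - T.card))) ∧
      (classes A < 9 → ∀ r : Fin m → ℕ,
        HasShare (upTo A) (fun D => ∀ i, Corank (A i * D) (r i)) (∏ i, pr (r i))) ∧
      (∀ ε : ℝ, 0 < ε → ∃ X₀ : ℕ, ∀ X : ℕ, X₀ ≤ X →
        ((9 - classes A) / 9 * p0 ^ m - ε) * ((all A X).ncard : ℝ) ≤
          (({D ∈ all A X | ∀ i, Holds (A i * D)}.ncard : ℕ) : ℝ)) := by
  have hcr0 : Pool.Agent.Y703.XL.cr 0 = p0 := by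
    show (∏' i : ℕ, (1 - (1 / 3 : ℝ) ^ (2 * i + 1))) / ∏ i ∈ Finset.range 0, _ = p0
    rw [Finset.prod_range_zero, div_one]
    rfl
  have hpr0 : pr 0 = p0 := hcr0
  obtain ⟨-, -, -, hp, -⟩ := Pool.Agent.XL6.finalXL K
  have hp' : 0.639 < p0 ∧ p0 < 0.6391 := by
    rw [← hcr0]
    exact ⟨hp.1, hp.2.1⟩
  let A1 : Fin 1 → 𝓞 K := fun _ => 1
  have hA1 : ∀ i, CubeFreePrimeToThree (A1 i) := by
    intro i
    refine ⟨fun π hπ hd => hπ.not_isUnit ?_, ?_⟩
    · exact isUnit_of_dvd_one ((dvd_pow_self π three_ne_zero).trans hd)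
    · show ¬ (3 : ℤ) ∣ Algebra.norm ℤ (1 : 𝓞 K)
      rw [map_one]
      norm_num
  have hne1 : ∀ i j : Fin 1, i ≠ j → ∀ u : K, ((A1 i : 𝓞 K) : K) ≠ u ^ 3 * (A1 j : 𝓞 K) :=
    fun i j hij => absurd (Subsingleton.elim i j) hij
  have hall1 : ∀ X, all A1 X = curves K X := by
    intro X
    ext D
    exact ⟨fun h => ⟨h.1, h.2.1⟩, fun h => ⟨h.1, h.2, fun _ => isCoprime_one_left⟩⟩
  have hcl1 : classes A1 = 1 := by
    unfold classes
    rw [Set.range_unique, Set.ncard_singleton]
  have hgood1 : ∀ D : 𝓞 K, (∀ i, Good (A1 i * D)) ↔ Good D := by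
    intro D
    constructor
    · intro h
      have := h 0
      rwa [show A1 0 * D = D from one_mul D] at this
    · intro h i
      rwa [show A1 i * D = D from one_mul D]
  have hcor1 : ∀ (D : 𝓞 K) (r : ℕ), (∀ i, Corank (A1 i * D) r) ↔ Corank D r := by
    intro D r
    constructor
    · intro h
      have := h 0
      rwa [show A1 0 * D = D from one_mul D] at this
    · intro h i
      rwa [show A1 i * D = D from one_mul D]
  obtain ⟨f1, f2, f3, f4, f5, f6, f7⟩ := law one_pos hA1 hne1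
  have e89 : ((9 - ((1 : ℕ) : ℝ)) / 9 : ℝ) = 8 / 9 := by norm_num
  rw [hcl1, e89] at f5
  have g3 : HasShare (curves K) Good (8 / 9) := by
    refine f5.congr fun X => ?_
    rw [hall1]
    congr 2
    congr 1
    ext D
    exact and_congr_right fun _ => hgood1 D
  have g4 : ∀ r : ℕ, HasShare (curves K) (fun B => Good B ∧ Corank B r) (8 / 9 * pr r) := by
    intro r
    have h := f6 fun _ => r
    rw [hcl1, e89, Fin.prod_univ_one] at h
    refine h.congr fun X => ?_
    rw [hall1]
    congr 2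
    congr 1
    ext D
    exact and_congr_right fun _ => and_congr (hgood1 D) (hcor1 D r)
  have g5 : HasShare (curves K) (fun B => Good B ∧ Holds B) (8 / 9 * p0) := by
    have h := g4 0
    rw [hpr0] at h
    refine h.congr fun X => ?_
    congr 2
    congr 1
    ext D
    exact and_congr_right fun hD => and_congr_right fun hG => (holds_iff hD.2 hG).symm
  have hfin1 : ∀ X, (curves K X).Finite := fun X => by
    rw [← hall1]
    exact f1 X
  refine ⟨fun B hB hG => ?_, hfin1, ?_, g3, g4, g5, hp', ?_, fun m A hm hA hne => ?_⟩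
  · obtain ⟨r, hr, hun⟩ := corank_unique hB hG.1
    have hr0 : Corank B 0 ↔ r = 0 := ⟨fun h => (hun 0 h).symm, fun h => h ▸ hr⟩
    obtain ⟨-, h2, h3, h4, L, c, z, h5, h6, h7, h8, h9, h10, h11, h12⟩ := each hG.1 hG.2 hr
    refine ⟨⟨r, hr, hun⟩, (three_iff hG.1 hG.2 hr).trans h2.symm, h2.trans hr0.symm,
      fun r' hr' => (each hG.1 hG.2 hr').1, h3, h4, L, c, z, h5, h6, h7, h8, h9, h10, h11,
      h12.trans h2.symm⟩
  · obtain ⟨c, hc, X₀, h⟩ := f2
    exact ⟨c, hc, X₀, fun X hX => by rw [← hall1]; exact h X hX⟩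
  · obtain ⟨X₀, k⟩ := eventually_share g5 (8 / 9 * p0 - 0.568) (by linarith [hp'.1])
    refine ⟨X₀, fun X hX => ?_⟩
    have h11 := k X hX
    rw [sub_sub_cancel] at h11
    refine h11.trans ?_
    norm_cast
    refine Set.ncard_le_ncard ?_ ((hfin1 X).subset fun D hD => hD.1)
    rintro D ⟨m1, m2, m3⟩
    exact ⟨m1, m3⟩
  · obtain ⟨h1, h2, h3, h4, h5, h6, h7⟩ := law hm hA hne
    have hcf : ∀ X, ∀ D ∈ all A X, ∀ i, CubeFreePrimeToThree (A i * D) := fun X D hD i =>
      cubeFree_mul (hA i) hD.2.1 (hD.2.2 i)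
    have hfinC : ∀ X, (upTo A X).Finite := fun X => (h1 X).subset fun D hD => hD.1
    -- the coranks as a function
    let f : 𝓞 K → Fin m → ℕ := fun D i => if h : ∃ r, Corank (A i * D) r then h.choose else 0
    have hf : ∀ X, ∀ D ∈ upTo A X, ∀ i r, (Corank (A i * D) r ↔ f D i = r) := by
      intro X D hD i r
      have hE := corank_unique (hcf X D hD.1 i) (hD.2 i).1
      have h8 : ∃ r, Corank (A i * D) r := hE.exists
      have h9 : f D i = h8.choose := dif_pos h8
      rw [h9]
      constructor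
      · intro h
        exact hE.unique h8.choose_spec h
      · rintro rfl
        exact h8.choose_spec
    have hT : classes A < 9 → ∀ T : Finset (Fin m),
        HasShare (upTo A) (fun D => ∀ i, Holds (A i * D) ↔ i ∈ T)
          (p0 ^ T.card * (1 - p0) ^ (m - T.card)) := by
      intro h9 T
      have h10 : ∀ r : Fin m → ℕ, Tendsto (Pool.Agent.H508.W.shr (upTo A) fun D => f D = r) atTop
          (𝓝 (∏ i, pr (r i))) := by
        intro r
        refine (h7 h9 r).congr fun X => ?_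
        unfold Pool.Agent.H508.W.shr
        congr 2
        congr 1
        ext D
        refine and_congr_right fun hD => ?_
        show (∀ i, Corank (A i * D) (r i)) ↔ f D = r
        rw [funext_iff]
        exact forall_congr' fun i => hf X D hD i (r i)
      have h11 := Pool.Agent.H508.W.exact_law hfinC (p := pr)
        (by
          have := Pool.Agent.Y703.XL.t_SUM'
          exact this) h10 T
      rw [hpr0] at h11
      refine h11.congr fun X => ?_
      unfold Pool.Agent.H508.W.shr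
      congr 2
      congr 1
      ext D
      refine and_congr_right fun hD => forall_congr' fun i => ?_
      rw [holds_iff (hcf X D hD.1 i) (hD.2 i), hf X D hD i 0]
    refine ⟨hcf, h2, h3, h4, h5, hT, h7, fun ε hε => ?_⟩
    have h8 := h6 fun _ => 0
    have hprod : ∏ _i : Fin m, pr 0 = p0 ^ m := by
      rw [Finset.prod_const, Finset.card_univ, Fintype.card_fin, hpr0]
    rw [hprod] at h8
    obtain ⟨X₀, k⟩ := eventually_share h8 ε hε
    refine ⟨X₀, fun X hX => (k X hX).trans ?_⟩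
    norm_cast
    refine Set.ncard_le_ncard ?_ ((h1 X).subset fun D hD => hD.1)
    rintro D ⟨m1, m2, m3⟩
    exact ⟨m1, fun i => (holds_iff (hcf X D m1 i) (m2 i)).2 (m3 i)⟩

end Pool.Agent.Results.MP_1a91b9_nt.CubicTwistsJointLaw
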