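import Pool.Agent.H464.XB.Lv
import Pool.Agent.H464.XB.Jnt
import Pool.Agent.H464.XC.Lfun
import Pool.Agent.H464.XC.Gen
import Pool.Agent.H464.XC.Rank

/-!
# The Birch and Swinnerton-Dyer conjecture for the imaginary twists of `X_0(15)` over real
# multiquadratic fields of every degree

`E_D` is the quadratic twist by `D` of `X_0(15)`, with the equation
`y² + x y + y = x³ + (5 D - 1)/4 x² - (19 D² + 1)/2 x - (39 D³ + 1)/4`; `D` is any negative squarefree
number `≡ 13` or `37` modulo `60` (`Family`).  `K = ℚ(√m_1, …, √m_n)` is any field of degree `2 ^ n` with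
positive squarefree `m_j ≡ 1` or `49` modulo `60`: these are the real multiquadratic fields in which `2` is
unramified and `3` and `5` split completely.  For `T ⊆ {1, …, n}` let `D_T` (`tws D m T`) be the
squarefree number in the class of `D ∏_{j ∈ T} m_j`.

The theorem, with no hypothesis on ranks or on `Ш`:
* for EVERY `D` of the family, the Hasse-Weil `L`-function of `E_D` over `K` (Euler product over all finite
  places of `K`, from equations which are minimal at the place) extends to an entire function, the product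
  of the `L(E_{D_T}, s)`; the rank of `E_D(K)` is the sum of the ranks of the `E_{D_T}(ℚ)`;
* `L(E_D/K, 1) = ∏_T y_T² 4^(k_T - 1) Ω_T`, with integers `y_T`, `k_T` the number of the prime factors of
  `D_T`, and `4^(2^n) 2^(rank E_D(K)) ∏_T #Ш(E_{D_T}/ℚ)[2] = ∏_T red(D_T)²`, where `red(D)` is the order of the
  kernel of Rédei's matrix of `ℚ(√D)` (so `rank E_D(K) ≤ 2 ∑_T r_T`, `red(D_T) = 2 ^ (r_T + 1)`);
* if `red(D_T) = 2` for all `T` (`Good`), then `L(E_D/K, 1) ≠ 0` and `E_D(K)` is finite: question Q1 (`Q1`: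
  `L(E_D/K, s)` is entire and its order at `s = 1` is the rank) has the answer yes for `E_D/K`;
* for all `r_T`, the proportion of the `D` such that `red(D_T) = 2 ^ (r_T + 1)` for all `T` is exactly
  `∏_T law(r_T)`; so Q1 holds for `E_D/K`, with rank zero, for a proportion of at least `c ^ (2 ^ n)` of the
  `D`, `c = 0.2887...`.

Proof.  The decomposition of the primes in `K` is computed from the orthogonality of the Galois group and
the group of the square classes (`XC/Grp`, `Dec`, `Dec2`), the local factors from the numbers of the points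
modulo `p` over the fields with `p` and with `p²` elements (`Cnt`, `Four`, `Loc`, `Loc2`), the minimality of
the equations in `Mdl`; at the primes which divide `D_T` for some `T`, but not for all, the minimal equation
is that of a twist with good reduction (`Lfun`).  The ranks over multiquadratic extensions are from the
library (project FT of run 3997aac3).  The central values, the Selmer groups and the joint laws are from
`TwoPartImaginaryX15` (problem MP_92892c_nt).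
-/

set_option autoImplicit false

open Filter Topology MeasureTheory NumberField IsDedekindDomain

namespace Pool.Agent.Results.MP_1a91b9_nt.MultiquadraticX15

open Pool.Agent.TH841.SH.D (Sha)

/-! ## The curves and the fields -/

/-- an equation of the quadratic twist by `D ≡ 1 mod 4` of `X_0(15)` -/
def W (D : ℤ) : WeierstrassCurve ℤ :=
  ⟨1, (5 * D - 1) / 4, 1, -((19 * D ^ 2 + 1) / 2), -((39 * D ^ 3 + 1) / 4)⟩

/-- the curve `E_D` over the field `K` -/
abbrev E (K : Type) [Field K] (D : ℤ) : WeierstrassCurve K := (W D).map (Int.castRingHom K)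

/-- the family: the negative squarefree numbers `≡ 13` or `37` modulo `60` -/
def Family (D : ℤ) : Prop := D < 0 ∧ Squarefree D ∧ (D % 60 = 13 ∨ D % 60 = 37)

/-- the `m_j` are positive, squarefree, `≡ 1` or `49` modulo `60` and independent modulo squares -/
def Indep {n : ℕ} (m : Fin n → ℕ) : Prop :=
  (∀ j, Squarefree (m j) ∧ (m j % 60 = 1 ∨ m j % 60 = 49)) ∧
    ∀ T : Finset (Fin n), T.Nonempty → ¬ IsSquare (∏ j ∈ T, m j)

/-- `K = ℚ(√m_1, …, √m_n)` -/
def Multi (K : Type) [Field K] [NumberField K] {n : ℕ} (m : Fin n → ℕ) : Prop :=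
  ∃ x : Fin n → K, (∀ j, x j ^ 2 = (m j : K)) ∧ IntermediateField.adjoin ℚ (Set.range x) = ⊤

/-- the squarefree part of `n`: the product of the primes which divide `n` to an odd power -/
def sf (n : ℕ) : ℕ := ∏ p ∈ n.primeFactors.filter (fun p => ¬ 2 ∣ n.factorization p), p

/-- `D_T`: the squarefree part of `D ∏_{j ∈ T} m_j`, for `D < 0` -/
def tws (D : ℤ) {n : ℕ} (m : Fin n → ℕ) (T : Finset (Fin n)) : ℤ :=
  -(sf (D.natAbs * ∏ j ∈ T, m j) : ℤ)

/-! ## `L`-functions and ranks over a number field -/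

section

variable {K : Type} [Field K] [NumberField K]

/-- `V` is an integral model of `E` -/
def IsModel (E : WeierstrassCurve K) (V : WeierstrassCurve (𝓞 K)) : Prop :=
  ∃ C : WeierstrassCurve.VariableChange K, C • E = V.map (algebraMap (𝓞 K) K)

/-- `V` is an integral model of `E` that is minimal at `v` -/
def IsMinAt (E : WeierstrassCurve K) (v : HeightOneSpectrum (𝓞 K))
    (V : WeierstrassCurve (𝓞 K)) : Prop :=
  IsModel E V ∧ ∀ U : WeierstrassCurve (𝓞 K), IsModel E U →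
    ∀ n : ℕ, V.Δ ∈ v.asIdeal ^ n → U.Δ ∈ v.asIdeal ^ n

/-- `a_v = N v - #{affine points modulo v}` -/
noncomputable def av (v : HeightOneSpectrum (𝓞 K)) (V : WeierstrassCurve (𝓞 K)) : ℤ :=
  (Ideal.absNorm v.asIdeal : ℤ) - (Nat.card {P : (𝓞 K ⧸ v.asIdeal) × (𝓞 K ⧸ v.asIdeal) //
    (V.map (Ideal.Quotient.mk v.asIdeal)).toAffine.Equation P.1 P.2} : ℕ)

open Classical in
/-- the inverse of the Euler factor at `v` -/
noncomputable def fac (v : HeightOneSpectrum (𝓞 K)) (V : WeierstrassCurve (𝓞 K)) (s : ℂ) : ℂ :=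
  1 - (av v V : ℂ) * ((Ideal.absNorm v.asIdeal : ℕ) : ℂ) ^ (-s) +
    (if V.Δ ∈ v.asIdeal then 0 else ((Ideal.absNorm v.asIdeal : ℕ) : ℂ) ^ (1 - 2 * s))

/-- `Λ` is entire and it is the Hasse-Weil `L`-function of `E` over `K` -/
def IsLK (E : WeierstrassCurve K) (Λ : ℂ → ℂ) : Prop :=
  Differentiable ℂ Λ ∧ ∃ V : HeightOneSpectrum (𝓞 K) → WeierstrassCurve (𝓞 K),
    (∀ v, IsMinAt E v (V v)) ∧ ∀ s : ℂ, 3 / 2 < s.re → HasProd (fun v => (fac v (V v) s)⁻¹) (Λ s)

end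

open Classical in
/-- the rank of `E(K)` -/
noncomputable def rk (K : Type) [Field K] (E : WeierstrassCurve K) : ℕ :=
  Module.finrank ℤ E.toAffine.Point

/-- question Q1 for `E/K`: `L(E/K, s)` is entire and its order at `s = 1` is the rank of `E(K)` -/
def Q1 (K : Type) [Field K] [NumberField K] (E : WeierstrassCurve K) : Prop :=
  ∃ Λ : ℂ → ℂ, IsLK E Λ ∧ analyticOrderAt Λ 1 = (rk K E : ℕ∞)

/-! ## The data over `ℚ` -/

/-- `a_p = p - #{affine points modulo p}` -/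
noncomputable def ap (V : WeierstrassCurve ℤ) (p : ℕ) : ℤ :=
  p - (Nat.card {P : ZMod p × ZMod p //
    (V.map (Int.castRingHom (ZMod p))).toAffine.Equation P.1 P.2} : ℕ)

/-- `Λ` is entire and it is the Hasse-Weil `L`-function of the minimal equation `V` -/
def IsL (V : WeierstrassCurve ℤ) (Λ : ℂ → ℂ) : Prop :=
  Differentiable ℂ Λ ∧ ∀ s : ℂ, 3 / 2 < s.re →
    HasProd (fun p : Nat.Primes => (1 - (ap V p : ℂ) * ((p : ℕ) : ℂ) ^ (-s) +
      (if ((p : ℕ) : ℤ) ∣ V.Δ then 0 else ((p : ℕ) : ℂ) ^ (1 - 2 * s)))⁻¹) (Λ s)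

/-- `4 x³ + b₂ x² + 2 b₄ x + b₆ = (2 y + a₁ x + a₃)²` -/
noncomputable def cubic (V : WeierstrassCurve ℤ) (x : ℝ) : ℝ :=
  4 * x ^ 3 + V.b₂ * x ^ 2 + 2 * V.b₄ * x + V.b₆

/-- `Ω = ∫_{E(ℝ)} |ω|`, `ω = dx / (2 y + a₁ x + a₃)` -/
noncomputable def Omega (V : WeierstrassCurve ℤ) : ℝ :=
  ∫ x in {x : ℝ | 0 < cubic V x}, 2 / Real.sqrt (cubic V x)

/-- the order of `Ш(E_D/ℚ)[2]` -/
noncomputable def shaTwo (D : ℤ) : ℕ := Nat.card {x : Sha (E ℚ D) // 2 • x = 0}

/-- the divisors `d > 0` of `n` in the kernel of Rédei's matrix of `ℚ(√-n)`: `(d/p) = 1` for the primes `p`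
dividing `n` and not dividing `d`, `((n/d)/p) = 1` for the primes `p` dividing `d` -/
def Redei (n d : ℕ) : Prop := d ∣ n ∧
  (∀ p : ℕ, p.Prime → p ∣ n → ¬ p ∣ d → jacobiSym d p = 1) ∧
  (∀ p : ℕ, p.Prime → p ∣ d → jacobiSym ((n / d : ℕ) : ℤ) p = 1)

/-- the number of the elements of the kernel of Rédei's matrix of `ℚ(√D)` -/
noncomputable def red (D : ℤ) : ℕ := Nat.card {d : ℕ // Redei D.natAbs d}

/-- the criterion: the kernel of Rédei's matrix consists of `1` and `|D|` -/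
def Good (D : ℤ) : Prop := ∀ d : ℕ, Redei D.natAbs d → d = 1 ∨ d = D.natAbs

open Classical in
/-- the number of the `D` of the family with `-X ≤ D` and the property `P` -/
noncomputable def num (P : ℤ → Prop) (X : ℕ) : ℕ :=
  ((Finset.Icc 1 X).filter fun n : ℕ => Family (-(n : ℤ)) ∧ P (-(n : ℤ))).card

/-- the constant `(1 - 1/2) (1 - 1/4) (1 - 1/8) ⋯ = 0.2887...` -/
noncomputable def c : ℝ := ∏' i : ℕ, (1 - (1 / 2 : ℝ) ^ (i + 1))

/-- `2 ^ (-r²) ∏_{i ≤ r} (1 - 2^(-i))⁻¹ ∏_{i > r} (1 - 2^(-i))` -/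
noncomputable def law (r : ℕ) : ℝ := (1 / 2 : ℝ) ^ (r ^ 2) /
  (∏ i ∈ Finset.range r, (1 - (1 / 2 : ℝ) ^ (i + 1))) * ∏' i : ℕ, (1 - (1 / 2 : ℝ) ^ (r + i + 1))

section proof

open Pool.Agent.H464.XB

lemma neg_of {D : ℤ} (hD : Family D) : T.Neg D := ⟨hD.1, hD.2.1, hD.2.2⟩

lemma sqf {D : ℤ} (hD : Family D) : Squarefree D.natAbs := Int.squarefree_natAbs.2 hD.2.1

lemma red_nx {D : ℤ} (hD : Family D) :
    Pool.Agent.NH4.XG.nx D.natAbs.primeFactors = red D := by
  have h := hD.1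
  have h2 := hD.2.2
  rw [nx_eq (sqf hD) (by omega), ← card_red (sqf hD) (by omega)]
  rfl

lemma good_iff {D : ℤ} (hD : Family D) : Good D ↔ red D = 2 := by
  have h := hD.1
  have h2 := hD.2.2
  exact (card_two (sqf hD) (by omega)).symm

/-- the central value -/
lemma core {D : ℤ} (hD : Family D) : ∃ Λ : ℂ → ℂ, IsL (W D) Λ ∧ 0 < Omega (W D) ∧
    ∃ y : ℕ, Λ 1 = (y : ℂ) ^ 2 * 4 ^ D.natAbs.primeFactors.card / 4 * (Omega (W D) : ℝ) ∧
      (Odd y ↔ Good D) := by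
  obtain ⟨f, hf, hO, y, hv, hy⟩ := lval (neg_of hD)
  refine ⟨f, hf, hO, y, ?_, ?_⟩
  · rw [hv]
    have e : (Pool.Agent.Y700.Omega (Pool.Agent.H757_X15.WD D)) = Omega (W D) := rfl
    rw [e]
    push_cast
    ring
  · rw [hy, kr_red (sqf hD)]
    rfl

lemma rk_dec {F : Type} [Field F] (i : DecidableEq F) (V : WeierstrassCurve F) :
    rk F V = (letI := i; Module.finrank ℤ V.toAffine.Point) := by
  have h : i = fun a b => Classical.propDecidable (a = b) := Subsingleton.elim _ _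
  subst h
  rfl

lemma sel {D : ℤ} (hD : Family D) : 4 * (2 ^ rk ℚ (E ℚ D) * shaTwo D) = red D ^ 2 := by
  have h := (T.sel_eq (neg_of hD)).2
  rw [red_nx hD] at h
  have e : 2 ^ (Module.finrank ℤ (E ℚ D).toAffine.Point) * 4 * shaTwo D = red D ^ 2 := h
  have e2 := rk_dec (instDecidableEqRat) (E ℚ D)
  rw [e2, ← e]
  ring

open Pool.Agent.H464.XC

section

variable {n : ℕ} {m : Fin n → ℕ}

lemma tws_eq {M : ℕ} (hM : Squarefree M) (hm : ∀ j, Squarefree (m j)) (T : Finset (Fin n)) :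
    tws (-(M : ℤ)) m T = -(cp M (gg m T) : ℤ) := by
  have hm0 : ∀ j, m j ≠ 0 := fun j => (hm j).ne_zero
  obtain ⟨h1, k, hk, e⟩ := sf_spec (PP_ne hm0 T)
  have h2 : Squarefree (gg m T) := h1
  have hg : Nat.gcd M (gg m T) ≠ 0 :=
    (Nat.gcd_pos_of_pos_left _ (Nat.pos_of_ne_zero hM.ne_zero)).ne'
  have h3 : cp M (gg m T) * (Nat.gcd M (gg m T) * k) ^ 2 = M * PP m T := by
    have h4 : cp M (gg m T) * (Nat.gcd M (gg m T)) ^ 2 = M * gg m T := cp_mul
    have h5 : gg m T * k ^ 2 = PP m T := e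
    calc cp M (gg m T) * (Nat.gcd M (gg m T) * k) ^ 2
        = (cp M (gg m T) * (Nat.gcd M (gg m T)) ^ 2) * k ^ 2 := by ring
      _ = M * PP m T := by rw [h4, mul_assoc, h5]
  have h6 : Pool.Agent.H464.XC.sf (M * PP m T) = cp M (gg m T) :=
    sf_unique (cp_sqf hM h2) (mul_ne_zero hg hk) h3
  have h7 : sf ((-(M : ℤ)).natAbs * ∏ j ∈ T, m j) = Pool.Agent.H464.XC.sf (M * PP m T) := by
    rw [Int.natAbs_neg, Int.natAbs_natCast]
    rfl
  unfold tws
  rw [h7, h6]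

lemma tws_rel {M : ℕ} (hM : Squarefree M) (hm : ∀ j, Squarefree (m j)) (T : Finset (Fin n)) :
    ∃ g : ℚ, g ≠ 0 ∧ (tws (-(M : ℤ)) m T : ℚ) * g ^ 2 = (∏ j ∈ T, (m j : ℚ)) * ((-(M : ℤ) : ℤ) : ℚ) := by
  have hm0 : ∀ j, m j ≠ 0 := fun j => (hm j).ne_zero
  have h0 : M * PP m T ≠ 0 := mul_ne_zero hM.ne_zero (PP_ne hm0 T)
  obtain ⟨-, k, hk, e⟩ := sf_spec h0
  refine ⟨k, by exact_mod_cast hk, ?_⟩
  have h7 : sf ((-(M : ℤ)).natAbs * ∏ j ∈ T, m j) = Pool.Agent.H464.XC.sf (M * PP m T) := by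
    rw [Int.natAbs_neg, Int.natAbs_natCast]
    rfl
  unfold tws
  rw [h7]
  have h8 : ((Pool.Agent.H464.XC.sf (M * PP m T) * k ^ 2 : ℕ) : ℚ) = ((M * PP m T : ℕ) : ℚ) := by rw [e]
  unfold PP at h8 ⊢
  push_cast at h8 ⊢
  linarith

lemma fam_nat (n : ℕ) (hn : 1 ≤ n) :
    Family (-(n : ℤ)) ↔ (Squarefree n ∧ (n % 60 = 23 ∨ n % 60 = 47)) := by
  unfold Family
  rw [Pool.Agent.NH3.XD.sqf_neg]
  constructor
  · rintro ⟨h1, h2, h3⟩
    exact ⟨h2, by omega⟩
  · rintro ⟨h2, h3⟩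
    exact ⟨by omega, h2, by omega⟩

lemma of_fam {D : ℤ} (hD : Family D) : ∃ M : ℕ, D = -(M : ℤ) ∧ Squarefree M ∧
    (M % 60 = 23 ∨ M % 60 = 47) := by
  have h := hD.1
  have h2 := hD.2.2
  exact ⟨D.natAbs, by omega, sqf hD, by omega⟩

lemma tws_fam {D : ℤ} (hD : Family D) (hm : Indep m) (T : Finset (Fin n)) : Family (tws D m T) := by
  obtain ⟨M, rfl, hM, hM60⟩ := of_fam hD
  rw [tws_eq hM (fun j => (hm.1 j).1)]
  have hm0 : ∀ j, m j ≠ 0 := fun j => (hm.1 j).1.ne_zero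
  have h1 := cp_mod hM hM60 (gg_sqf hm0 T) (gg_mod hm0 (fun j => (hm.1 j).2) T)
  have h2 := cp_sqf hM (gg_sqf hm0 T)
  exact (fam_nat _ (Nat.pos_of_ne_zero h2.ne_zero)).2 ⟨h2, h1⟩

/-- the rank -/
lemma rank_K {K : Type} [Field K] [NumberField K] {D : ℤ} (hD : Family D) (hm : Indep m)
    (hK : Multi K m) : rk K (E K D) = ∑ T, rk ℚ (E ℚ (tws D m T)) := by
  obtain ⟨x, hx, htop⟩ := hK
  obtain ⟨M, rfl, hM, hM60⟩ := of_fam hD
  choose g hg hgm using fun T => tws_rel hM (fun j => (hm.1 j).1) T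
  refine rank_mq hx htop hm.2 (by have := hD.2.2; omega) (fun T => tws (-(M : ℤ)) m T) g hg
    (fun T => ?_) hgm
  have := (tws_fam hD hm T).2.2
  omega

lemma sha_K {K : Type} [Field K] [NumberField K] {D : ℤ} (hD : Family D) (hm : Indep m)
    (hK : Multi K m) : 4 ^ 2 ^ n * (2 ^ rk K (E K D) * ∏ T, shaTwo (tws D m T)) =
      (∏ T, red (tws D m T)) ^ 2 := by
  have h1 : ∀ T, 4 * (2 ^ rk ℚ (E ℚ (tws D m T)) * shaTwo (tws D m T)) = red (tws D m T) ^ 2 :=
    fun T => sel (tws_fam hD hm T)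
  rw [← Finset.prod_pow, ← Finset.prod_congr rfl fun T _ => h1 T, Finset.prod_mul_distrib,
    Finset.prod_mul_distrib, Finset.prod_const, Finset.card_univ, Fintype.card_finset,
    Fintype.card_fin, Finset.prod_pow_eq_pow_sum, rank_K hD hm hK]

end

/-! ### The `L`-function over `K` -/

section

variable {K : Type} [Field K] [NumberField K]

lemma aff_eq (v : HeightOneSpectrum (𝓞 K)) (V : WeierstrassCurve (𝓞 K)) :
    Pool.Agent.H341R2.EC.aff (Pool.Agent.H341R2.EC.red v V) =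
      Nat.card {P : (𝓞 K ⧸ v.asIdeal) × (𝓞 K ⧸ v.asIdeal) //
        (V.map (Ideal.Quotient.mk v.asIdeal)).toAffine.Equation P.1 P.2} := by
  unfold Pool.Agent.H341R2.EC.aff
  refine Nat.card_congr (Equiv.subtypeEquivRight fun P => ?_)
  rw [WeierstrassCurve.Affine.equation_iff]
  rfl

lemma fac_eq (V : HeightOneSpectrum (𝓞 K) → WeierstrassCurve (𝓞 K)) (s : ℂ)
    (v : HeightOneSpectrum (𝓞 K)) : Pool.Agent.R433.MD.lf V s v = fac v (V v) s := by
  unfold Pool.Agent.R433.MD.lf fac Pool.Agent.H341R2.EC.trc Pool.Agent.H341R2.EC.dlt av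
  rw [aff_eq]
  by_cases h : (V v).Δ ∈ v.asIdeal
  · rw [if_pos h, if_pos h, zero_mul]
    rfl
  · rw [if_neg h, if_neg h, one_mul]
    rfl

/-- the `L`-function over `K` and the central value -/
lemma lfun_K {n : ℕ} {m : Fin n → ℕ} {D : ℤ} (hD : Family D) (hm : Indep m) (hK : Multi K m) :
    ∃ Λ : ℂ → ℂ, IsLK (E K D) Λ ∧
      (∃ L : Finset (Fin n) → ℂ → ℂ, (∀ T, IsL (W (tws D m T)) (L T)) ∧ ∀ s, Λ s = ∏ T, L T s) ∧
      ∃ y : Finset (Fin n) → ℕ, (∀ T, Odd (y T) ↔ Good (tws D m T)) ∧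
        Λ 1 = ∏ T, ((y T : ℂ) ^ 2 * 4 ^ (tws D m T).natAbs.primeFactors.card / 4 *
          (Omega (W (tws D m T)) : ℝ)) ∧
        ((∀ T, Good (tws D m T)) → Λ 1 ≠ 0) := by
  classical
  obtain ⟨x, hx, htop⟩ := hK
  obtain ⟨M, rfl, hM, hM60⟩ := of_fam hD
  have hs : ∀ j, Squarefree (m j) := fun j => (hm.1 j).1
  have hm0 : ∀ j, m j ≠ 0 := fun j => (hs j).ne_zero
  obtain ⟨y0, h⟩ := build hx hs (fun j => (hm.1 j).2) htop
  have hG : Good60 (GG m) := by
    intro a ha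
    obtain ⟨T, rfl⟩ := mem_GG.1 ha
    exact gg_mod hm0 (fun j => (hm.1 j).2) T
  have hinj := gg_inj hm0 hm.2
  choose L hL hO y hy1 hy2 using fun T => core (tws_fam hD hm T)
  -- the functions indexed by the square classes
  let Q : ℕ → ℂ → ℂ := fun a => if ha : a ∈ GG m then L (Classical.choose (mem_GG.1 ha)) else 0
  have hQ : ∀ T, Q (gg m T) = L T := by
    intro T
    have ha : gg m T ∈ GG m := mem_GG.2 ⟨T, rfl⟩
    have h1 : Classical.choose (mem_GG.1 ha) = T := hinj (Classical.choose_spec (mem_GG.1 ha))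
    change (if ha : gg m T ∈ GG m then L (Classical.choose (mem_GG.1 ha)) else 0) = L T
    rw [dif_pos ha, h1]
  have hQL : ∀ a ∈ GG m, Pool.Agent.H757_X15.IsL
      (Pool.Agent.H757_X15.WD (-(cp M a : ℤ))) (Q a) := by
    intro a ha
    obtain ⟨T, rfl⟩ := mem_GG.1 ha
    rw [hQ T, ← tws_eq hM hs T]
    exact hL T
  obtain ⟨V, hV, hP⟩ := lfun h hG hM hM60 Q hQL
  have hprod : ∀ s, ∏ a ∈ GG m, Q a s = ∏ T, L T s := by
    intro s
    unfold GG
    rw [Finset.prod_image fun T _ S _ hTS => hinj hTS]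
    exact Finset.prod_congr rfl fun T _ => by rw [hQ T]
  refine ⟨fun s => ∏ T, L T s, ⟨?_, V, hV, fun s hs1 => ?_⟩, ⟨L, hL, fun s => rfl⟩, y, hy2, ?_,
    fun hg => ?_⟩
  · exact Differentiable.fun_finset_prod fun T _ => (hL T).1
  · have h3 := hP s hs1
    rw [hprod s] at h3
    have e : (fun w => (Pool.Agent.R433.MD.lf V s w)⁻¹) = fun v => (fac v (V v) s)⁻¹ :=
      funext fun w => by rw [fac_eq]
    rw [e] at h3
    exact h3
  · change ∏ T, L T 1 = _
    exact Finset.prod_congr rfl fun T _ => hy1 T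
  · change ∏ T, L T 1 ≠ 0
    refine Finset.prod_ne_zero_iff.2 fun T _ => ?_
    rw [hy1 T]
    have h1 : y T ≠ 0 := by
      intro h0
      have h2 := (hy2 T).2 (hg T)
      rw [h0] at h2
      exact absurd h2 (by decide)
    have h2 : (y T : ℂ) ≠ 0 := by exact_mod_cast h1
    have h3 : ((Omega (W (tws (-(M : ℤ)) m T)) : ℝ) : ℂ) ≠ 0 := by
      have := (hO T).ne'
      exact_mod_cast this
    exact mul_ne_zero (div_ne_zero (mul_ne_zero (pow_ne_zero _ h2) (pow_ne_zero _ (by norm_num)))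
      (by norm_num)) h3

end

/-- rank zero -/
lemma rank_zero {K : Type} [Field K] [NumberField K] {n : ℕ} {m : Fin n → ℕ} {D : ℤ}
    (hD : Family D) (hm : Indep m) (hK : Multi K m) (hg : ∀ T, Good (tws D m T)) :
    rk K (E K D) = 0 := by
  have h1 := sha_K hD hm hK
  have h2 : ∏ T, red (tws D m T) = 2 ^ 2 ^ n := by
    rw [Finset.prod_congr rfl fun T _ => (good_iff (tws_fam hD hm T)).1 (hg T), Finset.prod_const,
      Finset.card_univ, Fintype.card_finset, Fintype.card_fin]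
  have h3 : (2 ^ 2 ^ n) ^ 2 = 4 ^ 2 ^ n * 1 := by
    rw [← pow_mul, mul_comm, pow_mul, mul_one]
    norm_num
  rw [h2, h3] at h1
  have h4 := Nat.eq_of_mul_eq_mul_left (by positivity) h1
  have h5 : 2 ^ rk K (E K D) = 1 := Nat.eq_one_of_mul_eq_one_right h4
  exact (Nat.pow_eq_one.1 h5).resolve_left (by norm_num)

lemma finite_K {K : Type} [Field K] [NumberField K] {n : ℕ} {m : Fin n → ℕ} {D : ℤ}
    (hD : Family D) (hm : Indep m) (hK : Multi K m) (hg : ∀ T, Good (tws D m T)) :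
    Finite (E K D).toAffine.Point :=
  fin_mq (by have := hD.2.2; omega) (rank_zero hD hm hK hg)

lemma q1_K {K : Type} [Field K] [NumberField K] {n : ℕ} {m : Fin n → ℕ} {D : ℤ}
    (hD : Family D) (hm : Indep m) (hK : Multi K m) (hg : ∀ T, Good (tws D m T)) :
    Q1 K (E K D) := by
  obtain ⟨Λ, hΛ, -, y, -, -, h1⟩ := lfun_K hD hm hK
  refine ⟨Λ, hΛ, ?_⟩
  rw [rank_zero hD hm hK hg]
  have h2 : AnalyticAt ℂ Λ 1 := hΛ.1.analyticAt 1
  rw [h2.analyticOrderAt_eq_zero.2 (h1 hg)]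
  rfl

/-! ### The law -/

lemma num_cF {P : ℤ → Prop} {Q : ℕ → Prop}
    (h : ∀ n : ℕ, Family (-(n : ℤ)) → (P (-(n : ℤ)) ↔ Q n)) (X : ℕ) : num P X = cF Q X := by
  unfold num cF
  refine Pool.Agent.NH3.XD.card_iff fun n hn => ?_
  rw [Finset.mem_Icc] at hn
  rw [← fam_nat n hn.1]
  exact and_congr_right fun hF => h n hF

lemma num_true (X : ℕ) : num (fun _ => True) X = cF (fun _ => True) X :=
  num_cF (fun _ _ => Iff.rfl) X

lemma red_nat {n : ℕ} (hF : Family (-(n : ℤ))) :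
    red (-(n : ℤ)) = Pool.Agent.NH4.XJ.nx n.primeFactors := by
  have h := hF.1
  have h2 := hF.2.2
  have hs := sqf hF
  rw [Int.natAbs_neg, Int.natAbs_natCast] at hs
  rw [← card_red hs (by omega)]
  unfold red
  rw [Int.natAbs_neg, Int.natAbs_natCast]
  rfl

lemma cp_pf {M a : ℕ} (hM : Squarefree M) (hM60 : M % 60 = 23 ∨ M % 60 = 47) (ha : Squarefree a)
    (ha60 : a % 60 = 1 ∨ a % 60 = 49) :
    (cp M a).primeFactors = symmDiff M.primeFactors a.primeFactors := by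
  obtain ⟨N, hN, -, -, hN3⟩ := tw_spec hM hM60 ha ha60
  have h1 : tw (-(M : ℤ)) a = -(cp M a : ℤ) := by
    unfold tw
    have hgg : Int.gcd (-(M : ℤ)) (a : ℤ) = Nat.gcd M a := by
      rw [Int.neg_gcd, Int.gcd_natCast_natCast]
    rw [hgg]
    have hg0 : 0 < Nat.gcd M a := Nat.gcd_pos_of_pos_left _ (Nat.pos_of_ne_zero hM.ne_zero)
    have h3 : (-(M : ℤ)) * a = -(cp M a : ℤ) * ((Nat.gcd M a : ℕ) : ℤ) ^ 2 := by
      have h4 : ((cp M a * (Nat.gcd M a) ^ 2 : ℕ) : ℤ) = ((M * a : ℕ) : ℤ) := by rw [cp_mul]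
      push_cast at h4 ⊢
      linarith
    rw [h3]
    refine Int.mul_ediv_cancel _ ?_
    positivity
  rw [h1] at hN
  have h2 : cp M a = N := by omega
  rw [h2, hN3]

lemma tws_red {n : ℕ} {m : Fin n → ℕ} {M : ℕ} (hD : Family (-(M : ℤ))) (hm : Indep m)
    (T : Finset (Fin n)) : red (tws (-(M : ℤ)) m T) =
      Pool.Agent.NH4.XJ.nx (symmDiff M.primeFactors (gg m T).primeFactors) := by
  have hs : ∀ j, Squarefree (m j) := fun j => (hm.1 j).1
  have hm0 : ∀ j, m j ≠ 0 := fun j => (hs j).ne_zero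
  have hn1 : 1 ≤ M := by have := hD.1; omega
  obtain ⟨hM, hM60⟩ := (fam_nat M hn1).1 hD
  have h1 := tws_fam hD hm T
  rw [tws_eq hM hs] at h1 ⊢
  rw [red_nat h1, cp_pf hM hM60 (gg_sqf hm0 T) (gg_mod hm0 (fun j => (hm.1 j).2) T)]

lemma joint_num {n : ℕ} {m : Fin n → ℕ} (hm : Indep m) (r : Finset (Fin n) → ℕ) :
    Tendsto (fun X : ℕ => (num (fun D => ∀ T, red (tws D m T) = 2 ^ (r T + 1)) X : ℝ) /
      (num (fun _ => True) X : ℝ)) atTop (𝓝 (∏ T, law (r T))) := by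
  have hs : ∀ j, Squarefree (m j) := fun j => (hm.1 j).1
  have hm0 : ∀ j, m j ≠ 0 := fun j => (hs j).ne_zero
  let e := Fintype.equivFin (Finset (Fin n))
  have h := joint_cF (m := fun t => gg m (e.symm t))
    (fun t t' htt => e.symm.injective (gg_inj hm0 hm.2 htt))
    (fun t => ⟨gg_sqf hm0 _, gg_mod hm0 (fun j => (hm.1 j).2) _⟩) (fun t => r (e.symm t))
  have h1 : ∏ t, law (r (e.symm t)) = ∏ T, law (r T) := Equiv.prod_comp e.symm fun T => law (r T)
  have h2 : ∏ t, Pool.Agent.H464.XB.law (r (e.symm t)) = ∏ T, law (r T) := h1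
  rw [h2] at h
  refine h.congr fun X => ?_
  rw [num_true, num_cF]
  intro M hF
  constructor
  · intro h3 t
    rw [← tws_red hF hm]
    exact h3 _
  · intro h3 T
    have h4 := h3 (e T)
    rw [e.symm_apply_apply, ← tws_red hF hm] at h4
    exact h4

lemma law_zero : law 0 = c := by
  unfold law c
  simp

lemma good_num {n : ℕ} {m : Fin n → ℕ} (hm : Indep m) :
    Tendsto (fun X : ℕ => (num (fun D => ∀ T, Good (tws D m T)) X : ℝ) /
      (num (fun _ => True) X : ℝ)) atTop (𝓝 (c ^ 2 ^ n)) := by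
  have h := joint_num hm (fun _ => 0)
  simp only [law_zero, Finset.prod_const, Finset.card_univ, Fintype.card_finset,
    Fintype.card_fin] at h
  refine h.congr fun X => ?_
  congr 2
  unfold num
  refine Pool.Agent.NH3.XD.card_iff fun k hk => ?_
  refine and_congr_right fun hF => forall_congr' fun T => ?_
  rw [good_iff (tws_fam hF hm T)]
  norm_num

lemma num_mono {P Q : ℤ → Prop} (h : ∀ D, Family D → P D → Q D) (X : ℕ) : num P X ≤ num Q X := by
  classical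
  unfold num
  refine Finset.card_le_card fun n hn => ?_
  rw [Finset.mem_filter] at hn ⊢
  exact ⟨hn.1, hn.2.1, h _ hn.2.1 hn.2.2⟩

lemma q1_num {K : Type} [Field K] [NumberField K] {n : ℕ} {m : Fin n → ℕ} (hm : Indep m)
    (hK : Multi K m) (ε : ℝ) (hε : 0 < ε) : ∀ᶠ X : ℕ in atTop, (c ^ 2 ^ n - ε) * (num (fun _ => True) X : ℝ) ≤
      (num (fun D => Q1 K (E K D) ∧ Finite (E K D).toAffine.Point) X : ℝ) := by
  have h := (tendsto_order.1 (good_num hm)).1 (c ^ 2 ^ n - ε) (by linarith)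
  filter_upwards [h] with X hX
  have h1 : (num (fun D => ∀ T, Good (tws D m T)) X : ℝ) ≤
      (num (fun D => Q1 K (E K D) ∧ Finite (E K D).toAffine.Point) X : ℝ) := by
    have h0 := num_mono (P := fun D => ∀ T, Good (tws D m T))
      (Q := fun D => Q1 K (E K D) ∧ Finite (E K D).toAffine.Point)
      (fun D hD hg => ⟨q1_K hD hm hK hg, finite_K hD hm hK hg⟩) X
    exact_mod_cast h0
  rcases Nat.eq_zero_or_pos (num (fun _ => True) X) with h0 | h0
  · rw [h0, Nat.cast_zero, mul_zero]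
    exact Nat.cast_nonneg _
  · have h2 : (0 : ℝ) < (num (fun _ => True) X : ℝ) := by exact_mod_cast h0
    rw [lt_div_iff₀ h2] at hX
    linarith

end proof

theorem result :
    (∀ (K : Type) [Field K] [NumberField K] (n : ℕ) (m : Fin n → ℕ), Indep m → Multi K m →
      Module.finrank ℚ K = 2 ^ n ∧
      (∀ D : ℤ, Family D →
        (∀ T, Family (tws D m T)) ∧
        rk K (E K D) = ∑ T, rk ℚ (E ℚ (tws D m T)) ∧
        4 ^ 2 ^ n * (2 ^ rk K (E K D) * ∏ T, shaTwo (tws D m T)) = (∏ T, red (tws D m T)) ^ 2 ∧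
        (∃ Λ : ℂ → ℂ, IsLK (E K D) Λ ∧
          (∃ L : Finset (Fin n) → ℂ → ℂ, (∀ T, IsL (W (tws D m T)) (L T)) ∧
            ∀ s, Λ s = ∏ T, L T s) ∧
          ∃ y : Finset (Fin n) → ℕ, (∀ T, Odd (y T) ↔ Good (tws D m T)) ∧
            Λ 1 = ∏ T, ((y T : ℂ) ^ 2 * 4 ^ (tws D m T).natAbs.primeFactors.card / 4 *
              (Omega (W (tws D m T)) : ℝ))) ∧
        ((∀ T, Good (tws D m T)) → Q1 K (E K D) ∧ Finite (E K D).toAffine.Point)) ∧
      ∀ ε : ℝ, 0 < ε → ∀ᶠ X : ℕ in atTop, (c ^ 2 ^ n - ε) * (num (fun _ => True) X : ℝ) ≤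
        (num (fun D => Q1 K (E K D) ∧ Finite (E K D).toAffine.Point) X : ℝ)) ∧
    (∀ (n : ℕ) (m : Fin n → ℕ), Indep m →
      (∀ r : Finset (Fin n) → ℕ, Tendsto (fun X : ℕ =>
        (num (fun D => ∀ T, red (tws D m T) = 2 ^ (r T + 1)) X : ℝ) / (num (fun _ => True) X : ℝ))
          atTop (𝓝 (∏ T, law (r T)))) ∧
      Tendsto (fun X : ℕ => (num (fun D => ∀ T, Good (tws D m T)) X : ℝ) /
        (num (fun _ => True) X : ℝ)) atTop (𝓝 (c ^ 2 ^ n))) ∧
    Tendsto (fun X : ℕ => (num (fun _ => True) X : ℝ) / X) atTop (𝓝 (5 / (16 * Real.pi ^ 2))) ∧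
    0.2887 < c ∧ c < 0.2888 := by
  refine ⟨fun K _ _ n m hm hK => ⟨?_, fun D hD => ⟨tws_fam hD hm, rank_K hD hm hK, sha_K hD hm hK, ?_,
    fun hg => ⟨q1_K hD hm hK hg, finite_K hD hm hK hg⟩⟩, q1_num hm hK⟩,
    fun n m hm => ⟨joint_num hm, good_num hm⟩, ?_, Pool.Agent.NH5.PR.t_ETA.2.2.2⟩
  · obtain ⟨x, hx, htop⟩ := hK
    have hs : ∀ j, Squarefree (m j) := fun j => (hm.1 j).1
    have hm0 : ∀ j, m j ≠ 0 := fun j => (hs j).ne_zero
    obtain ⟨y0, h⟩ := Pool.Agent.H464.XC.build hx hs (fun j => (hm.1 j).2) htop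
    rw [← h.card_G]
    unfold Pool.Agent.H464.XC.GG
    rw [Finset.card_image_of_injective _ (Pool.Agent.H464.XC.gg_inj hm0 hm.2), Finset.card_univ,
      Fintype.card_finset, Fintype.card_fin]
  · obtain ⟨Λ, h1, h2, y, h3, h4, -⟩ := lfun_K hD hm hK
    exact ⟨Λ, h1, h2, y, h3, h4⟩
  · refine Pool.Agent.H464.XB.dens_cF.congr fun X => ?_
    rw [num_true]

end Pool.Agent.Results.MP_1a91b9_nt.MultiquadraticX15
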