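import Pool.Agent.H464.SR.Sha
import Pool.Agent.H464.SR.X11b
import Pool.Agent.H464.ST.Per
import Pool.Agent.H464.ST.Star
import Pool.Agent.H464.ST.X14
import Pool.Agent.H464.ST.Three
import Pool.Agent.H464.ST.Nonv2
import Pool.Agent.H464.ST.TT
import Pool.Agent.H464.ST.V14
import Pool.Agent.H464.SV.Val15
import Pool.Agent.H464.SV.V2
import Pool.Agent.H464.SV.One
import Pool.Agent.H464.SW.Int
import Pool.Agent.H464.SW.Odd3
import Pool.Agent.H464.SW.Tam

/-!
# The analytic order of `Ш` over abelian fields modulo squares of rational numbers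

`E` is an elliptic curve over `ℚ` of conductor `N`, and `E_D` is its quadratic twist by a squarefree number
`D = 1` modulo `4` that is prime to `N` (`D = 1` is allowed).  `F ⊆ K` are abelian number fields such that every
quadratic field contained in `K` is contained in `F`.  (For example `[K : F]` is odd; or `K` is any abelian
field and `F` is the compositum of its quadratic subfields.)  The conductor of `K` is prime to `D`, but the fields
may be ramified at the primes of multiplicative reduction (and at all primes of good reduction).  For a number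
field `k` let `L*(E_D/k)` be the leading coefficient of `L(E_D/k, s)` at `s = 1`,

  `x*(k) = L*(E_D/k) √|Δ_k| / Ω_{E_D/k}`,  `Ш_an(E_D/k) = x*(k) (#E_D(k)_tors)² / (Reg(E_D/k) ∏ c_v)`.

The conjecture of Birch and Swinnerton-Dyer says that the order of vanishing is the rank and that `Ш_an(E_D/k)`
is the order of `Ш(E_D/k)`, which is a square by Cassels.  We prove:

* If `L(E_D/F, s)` and `L(E_D/K, s)` have the same order of vanishing `n` at `s = 1` then
  `x*(K) = [K : F]^n (T(K) / T(F)) q² x*(F)` with a rational number `q ≠ 0`, where `T(k)` is the product of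
  the Tamagawa numbers over `k` at the places of multiplicative reduction.
* If moreover `E` is semistable and `E_D(F)` and `E_D(K)` have the same rank `r` then
  `Ш_an(E_D/K) = [K : F]^(n - r) q² Ш_an(E_D/F)`; in particular `Ш_an(E_D/K) = q² Ш_an(E_D/F)` if `n = r` (and also
  if only `n` and `r` have the same parity).  Here all Tamagawa numbers are taken into account, also those at the
  places over `D`, where the reduction is of type `I₀*`.

So in this situation `Ш_an(E_D/K)` is the square of a rational number if and only if `Ш_an(E_D/F)` is one: the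
conjecture modulo squares is reduced from all abelian fields to the multiquadratic fields, and from the abelian
fields of odd degree to `ℚ`, if the rank and the order of vanishing do not grow.  There is no hypothesis on `n`; the
numbers `L*(E_D/k)` are not known to be periods times rational numbers times regulators.  The factor `T(K) / T(F)` is
in general not a square if `K / F` is ramified at a prime of split multiplicative reduction: for `X_0(11)`, `F = ℚ` and
the real subfield `K` of `ℚ(ζ_11)` it is `25 / 5 = 5`.  It comes out of the functional equations of the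
`L(E, χ, s)` with characters `χ` whose conductor is not prime to `N`, that is, out of the operators of Atkin and
Lehner.

* Fields of prime power degree.  If `L(E_D, 1) ≠ 0` then for all primes `l` with finitely many exceptions, all
  squarefree `n` prime to `N D` such that `a_p(E_D)` is not `2` modulo `l` for the primes `p ∣ n`, and all fields
  `F ⊆ K ⊆ ℚ(ζ_n)` of `l`-power degree, the values `L(E_D/F, 1)`, `L(E_D/K, 1)` are not zero and
  `x*(K) = q² x*(F)`.  In these families nothing is assumed about the values over `F` and `K`.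

* In towers of `p`-power conductor, `p` odd and prime to `N D`, the hypothesis on the order of vanishing is proved as
  well, for every curve `E` (`N` arbitrary): there is `j₀`, depending only on `E_D`, such that for `j ≥ j₀` and all
  fields `F ⊆ K ⊂ ℚ(ζ_(p^∞))` with `K ∩ ℚ(ζ_(p^j)) ⊆ F` the orders of vanishing are the same number `n`, and
  `x*(K) = [K : F]^n q² x*(F)`.

* The hypotheses on the curve (the modularity theorem and the theorem of Atkin and Lehner) are verified for `X_0(11)`,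
  `X_0(14)` and `X_0(15)`; so for all twists of these three curves by `D` as above the results hold unconditionally.

* `X_0(11)`: for the fields of `l`-power degree as above, `l` any odd prime, `L(E/K, 1) ≠ 0` and
  `x*(K) = 5^([K : ℚ] - 2) a²` with an integer `a`.

* Twists of `X_0(14)`, all ranks: if `F ⊆ K` are layers of the cyclotomic `ℤ₃`-extension of `ℚ` (or fields of odd
  degree and prime power conductor in which `2` and `7` are inert, with odd narrow class number) then for every `D`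
  whose prime factors satisfy a congruence condition (it holds for every `D` prime to `42` if the degree of `F` is
  large) the rank `r` and the order `n` do not grow, and `Ш_an(E_D/K) = [K : F]^(n - r) q² Ш_an(E_D/F)`.  Nothing is
  assumed about the ranks and the `L`-functions.  There is a similar statement for `D = -n < 0`, `n` in a set of
  positive lower density, and fields of `3`-power degree with conductor composed of primes inert in `ℚ(√-n)`.

* All totally real abelian fields.  Let `E_D` be the twist of `X_0(15)` by a squarefree `D < 0`, `D = 1` modulo `4`,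
  prime to `15`, with root number `1`.  If `K` is any totally real abelian field of conductor prime to `D` whose
  quadratic subfields are unramified at `2`, `3`, `5`, such that `L(E_D/K, 1) ≠ 0` and `E_D(K)` has rank `0`, then
  `Ш_an(E_D/K) = q²`, where `q` is a rational number whose denominator divides a power of `2 [K : ℚ]` (and a power of
  `2` if `K` is unramified at `3` and `5`; then the odd part of `Ш_an(E_D/K)` is the square of an integer).

* Fields of odd degree.  Let `E_D` be `X_0(11)`, `X_0(14)`, or the twist of `X_0(15)` by a squarefree `D = 1` modulo `4`, prime to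
  `15`, where either `D < 0` and the root number is `1`, or `D > 0` is `1` or `49` modulo `60`.  If `K` is any abelian
  field of odd degree and conductor prime to `D` such that `L(E_D/K, 1) ≠ 0` and `E_D(K)` has rank `0` then
  `Ш_an(E_D/K) = q²`, where `q` is a rational number whose denominator divides a power of `B [K : ℚ]` with `B = 10`, `6`,
  `2` respectively; and it divides a power of `2 [K : ℚ]` if only one prime of `K` lies above `11` (for `X_0(11)`) or
  above `7` (for `X_0(14)`), so that `Ш_an(E_D/K)` is then the square of an integer up to the primes dividing `2 [K : ℚ]`.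

* Integrality.  Let `E` be `X_0(11)` (and `l = 5`, `P = 11`) or `X_0(14)` (and `l = 3`, `P = 7`), and let `K` be any
  abelian field of odd degree and of conductor prime to `11` (to `14`), such that `L(E/K, 1) ≠ 0` and `E(K)` has rank `0`.
  Let `g` be the number of the primes of `K` above `P`.  For `X_0(11)` we have `Ш_an(E/K) = 5^([K : ℚ] - g) a²` with an
  integer `a`; for `X_0(14)` we have `Ш_an(E/K) = 3^([K : ℚ] - g) a² / 2^(g₂ - 1)` with an integer `a`, where `g₂` is the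
  number of the primes of `K` above `2`.  So `Ш_an(X_0(11)/K)` is the square of an integer, as it should be, and so is
  the odd part of `Ш_an(X_0(14)/K)` (and `Ш_an(X_0(14)/K)` itself if only one prime of `K` lies above `2`).

* `X_0(14)`, the formula up to odd squares.  For an infinite family of fields `K` of odd degree (for instance all layers
  `K ≠ ℚ` of the cyclotomic `ℤ₃`-extension of `ℚ`) and `E = X_0(14)` we have, without any hypothesis,
  `L(E/K, 1) ≠ 0`, the rank is `0`, `Ш(E/K)` has no elements of order `2`, and `Ш_an(E/K) = 3^([K : ℚ] - 1) a²` with an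
  odd integer `a`.  So `Ш_an(E/K)` is the square of an odd integer that is divisible by `3^(([K : ℚ] - 1) / 2)`.

Method. `x*(K) / x*(F)` is the product of the algebraic parts `A(χ)` of the values `L(E_D, χ, 1)` for the
characters `χ` of `K` that are not characters of `F`.  `A(χ^σ) = A(χ)^σ`, and `A(χ) = u(χ) A(χ⁻¹)`, where
`u(χ) = ± χ(-N / (N, m))`, `m` is the conductor, and the sign is an eigenvalue of an operator of Atkin and Lehner.
`u` is a product of local factors; each of them is written as a quotient `B(χ) / B(χ⁻¹)` with an explicit equivariant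
function `B` whose product is known modulo squares (it is `[K : F]^n`, and powers of the ramification indices
at the primes of split multiplicative reduction).  Then `A / B` is real up to a character, and the product of its
values is a square.  The regulators are compared by the functoriality of the canonical height.  For the twists the
properties of the newform (its periods, its level and the eigenvalues of Atkin and Lehner) are derived from those of
the newform of `E`.  For the integrality of `Ш_an` we show that the real parts of the periods of the matrices in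
`Γ_0(11)` (in `Γ_0(14)`) depend modulo `5` (modulo `3`) only on the lower right entry, so that the algebraic parts of the
values for even characters are divisible by `5` (by `3`).  For the totally real fields `F` is the compositum of the quadratic subfields of `K`: the values
`L(E_D, χ, 1)` for its characters are values of quadratic twists of `X_0(15)`, the functional equation shows that
these twists belong to the same class, and for them the value is a square times the real period.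
-/

set_option autoImplicit false

open NumberField NumberField.InfinitePlace IsDedekindDomain WeierstrassCurve Filter Topology
open UpperHalfPlane MatrixGroups CongruenceSubgroup

namespace Pool.Agent.Results.MP_1a91b9_nt.ShaModuloSquares

open scoped Classical

open Pool.Agent.K4H53.BSX.D (pts realPeriod complexPeriod prim IsNewform)

/-- The equation `y² + y = x³ - x² - 10 x - 20` of the modular curve `X_0(11)`. -/
def X11 : WeierstrassCurve ℤ := ⟨0, -1, 1, -10, -20⟩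

/-- The equation `y² + x y + y = x³ + 4 x - 6` of the modular curve `X_0(14)`. -/
def X14 : WeierstrassCurve ℤ := ⟨1, 0, 1, 4, -6⟩

/-- The equation `y² + x y + y = x³ + x² - 10 x - 10` of the modular curve `X_0(15)`. -/
def X15 : WeierstrassCurve ℤ := ⟨1, 1, 1, -10, -10⟩

/-- The quadratic twist `E_D` of `E` by `D = 4 k + 1`, by an equation with `c₄(E_D) = D² c₄`,
`c₆(E_D) = D³ c₆`, `Δ(E_D) = D⁶ Δ`.  For `k = 0` it is the equation `W` itself. -/
def twist (W : WeierstrassCurve ℤ) (k : ℤ) : WeierstrassCurve ℤ :=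
  ⟨W.a₁, W.a₂ * (4 * k + 1) + W.a₁ ^ 2 * k, W.a₃,
    W.a₄ * (4 * k + 1) ^ 2 + W.a₁ * W.a₃ * (8 * k ^ 2 + 4 * k),
    W.a₆ * (4 * k + 1) ^ 3 + W.a₃ ^ 2 * (16 * k ^ 3 + 12 * k ^ 2 + 3 * k)⟩

/-- The conductor of the twist `E_D`, `D = 4 k + 1`, if `N` is the conductor of `E`, and `D` is squarefree and
prime to `N`. -/
def level (N : ℕ) (k : ℤ) : ℕ := N * (4 * k + 1).natAbs ^ 2

/-- `D = 4 k + 1` is squarefree and prime to `N`. -/
def Twistable (N : ℕ) (k : ℤ) : Prop := Squarefree (4 * k + 1) ∧ N.Coprime (4 * k + 1).natAbs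

/-! ### The `L`-function over a number field -/

/-- `powerSum t u k = α^k + β^k` if `α + β = t` and `α β = u`. -/
noncomputable def powerSum (t u : ℂ) : ℕ → ℂ
  | 0 => 2
  | 1 => t
  | k + 2 => t * powerSum t u (k + 1) - u * powerSum t u k

section

variable {K : Type} [Field K] [NumberField K]

/-- The prime number below `v`: the least prime factor of the norm. -/
noncomputable def prm (v : HeightOneSpectrum (𝓞 K)) : ℕ := (Ideal.absNorm v.asIdeal).minFac

/-- The residue degree of `v`. -/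
noncomputable def deg (v : HeightOneSpectrum (𝓞 K)) : ℕ :=
  (Ideal.absNorm v.asIdeal).factorization (prm v)

/-- The trace of Frobenius `a_v` of `E` over `K`.  If `v` does not divide `2 Δ` it is `N v + 1 - #E(k_v)`
(`pts` is the number of the affine points).  At the finitely many other places it is computed over `ℚ`:
if `p` is the prime below `v` and `f` is the residue degree then `a_v = α^f + β^f`, where
`α + β = a_p = p + 1 - #E(𝔽_p)`, and `α β = p` if `p` does not divide `Δ`, and `α β = 0` otherwise. -/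
noncomputable def trace (W : WeierstrassCurve ℤ) (v : HeightOneSpectrum (𝓞 K)) : ℂ :=
  if ((2 * W.Δ : ℤ) : 𝓞 K) ∈ v.asIdeal then
    powerSum ((prm v : ℂ) - (pts W (ZMod (prm v)) : ℂ))
      (if (prm v : ℤ) ∣ W.Δ then 0 else (prm v : ℂ)) (deg v)
  else (Ideal.absNorm v.asIdeal : ℂ) - (pts W (𝓞 K ⧸ v.asIdeal) : ℂ)

/-- The Euler factor of `L(E/K, s)` at `v`: `(1 - a_v N v^(-s) + N v^(1 - 2 s))⁻¹` if `v` does not divide
`Δ`, and `(1 - a_v N v^(-s))⁻¹` otherwise. -/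
noncomputable def factor (W : WeierstrassCurve ℤ) (s : ℂ) (v : HeightOneSpectrum (𝓞 K)) : ℂ :=
  (1 - trace W v * (Ideal.absNorm v.asIdeal : ℂ) ^ (-s) +
    if ((W.Δ : ℤ) : 𝓞 K) ∈ v.asIdeal then 0 else (Ideal.absNorm v.asIdeal : ℂ) ^ (1 - 2 * s))⁻¹

/-- The exponent of `v` in the discriminant of the equation. -/
noncomputable def ord (W : WeierstrassCurve ℤ) (v : HeightOneSpectrum (𝓞 K)) : ℕ :=
  multiplicity v.asIdeal (Ideal.span {((W.Δ : ℤ) : 𝓞 K)})

/-- The Tamagawa number `c_v` at a place of multiplicative reduction, by the algorithm of Tate: it is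
`ord v` if the reduction is split, that is if `a_v = 1`; otherwise it is `1` or `2` and has the same
parity as `ord v`.  (The equation is semistable at `v` and minimal over `ℚ`, hence minimal at `v`.) -/
noncomputable def tamagawa (W : WeierstrassCurve ℤ) (v : HeightOneSpectrum (𝓞 K)) : ℕ :=
  if trace W v = 1 then ord W v else Nat.gcd 2 (ord W v)

/-- The Tamagawa number of the twist `E_D` at a place `v` that divides `D`, by the algorithm of Tate (`E` has good
reduction at `v`, `v ∤ 2`, and `v` is unramified over `ℚ`; the reduction type is `I₀*`): it is `1` plus the number of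
the roots of `4 x³ + b₂ x² + 2 b₄ x + b₆` in the residue field, where `b₂`, `b₄`, `b₆` belong to `E`. -/
noncomputable def tamagawaStar (W : WeierstrassCurve ℤ) (v : HeightOneSpectrum (𝓞 K)) : ℕ :=
  1 + Nat.card {x : 𝓞 K ⧸ v.asIdeal // 4 * x ^ 3 + (W.b₂ : 𝓞 K ⧸ v.asIdeal) * x ^ 2 +
    2 * (W.b₄ : 𝓞 K ⧸ v.asIdeal) * x + (W.b₆ : 𝓞 K ⧸ v.asIdeal) = 0}

end

section

variable (K : Type) [Field K] [NumberField K]

/-- The product `T(K)` of the Tamagawa numbers at the places over the primes `p` with `p ∣ N`, `p² ∤ N`,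
the places of multiplicative reduction.  If `N` is squarefree then the curve is semistable, and this is the product of
all the Tamagawa numbers. -/
noncomputable def tamagawaProduct (N : ℕ) (W : WeierstrassCurve ℤ) : ℕ :=
  ∏ᶠ v ∈ {v : HeightOneSpectrum (𝓞 K) | prm v ∣ N ∧ ¬ prm v ^ 2 ∣ N}, tamagawa W v

/-- The product of all the Tamagawa numbers of the twist `E_D` over `K`, `D = 4 k + 1`, for a semistable curve `E`
of conductor `N`; no prime divisor of `D` ramifies in `K`. -/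
noncomputable def tamagawaAll (N : ℕ) (W : WeierstrassCurve ℤ) (k : ℤ) : ℕ :=
  tamagawaProduct K (level N k) (twist W k) *
    ∏ᶠ v ∈ {v : HeightOneSpectrum (𝓞 K) | prm v ∣ (4 * k + 1).natAbs}, tamagawaStar W v

/-- `L` is the function `L(E/K, s)`: entire, and equal to the Euler product for `Re s > 3/2`. -/
structure IsLFunction (W : WeierstrassCurve ℤ) (L : ℂ → ℂ) : Prop where
  entire : Differentiable ℂ L
  euler : ∀ s : ℂ, 3 / 2 < s.re → HasProd (factor (K := K) W s) (L s)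

/-- `L(E/K, s)` vanishes at `s = 1` to the order `n`, and `a = L^{(n)}(E/K, 1) / n!` is its leading
coefficient. -/
def HasLeadingTerm (W : WeierstrassCurve ℤ) (n : ℕ) (a : ℂ) : Prop :=
  ∃ L : ℂ → ℂ, IsLFunction K W L ∧ a ≠ 0 ∧
    Tendsto (fun s : ℂ => L s / (s - 1) ^ n) (𝓝[≠] 1) (𝓝 a)

/-- The period `Ω_{E/K}` of an equation that is minimal at all finite places of `K`:
`(∫_{E(ℝ)} |ω|)^{r₁} (2 ∫_{E(ℂ)} |ω ∧ ω̄|)^{r₂}`, `ω = dx / (2 y + a₁ x + a₃)`. -/
noncomputable def Omega (W : WeierstrassCurve ℤ) : ℝ :=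
  realPeriod W ^ nrRealPlaces K * complexPeriod W ^ nrComplexPlaces K

/-- `x = x*(K)` is the number `L*(E/K) √|Δ_K| / Ω_{E/K}`; `n` is the order of vanishing. -/
def HasQuotient (W : WeierstrassCurve ℤ) (n : ℕ) (x : ℂ) : Prop :=
  ∃ a : ℂ, HasLeadingTerm K W n a ∧ x = a * √|(discr K : ℝ)| / Omega K W

end

/-! ### The points over a number field -/

/-- The curve given by the equation of `W` over the ring `R`. -/
abbrev base (W : WeierstrassCurve ℤ) (R : Type) [CommRing R] : WeierstrassCurve R :=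
  W.map (Int.castRingHom R)

section

variable (K : Type) [Field K] [NumberField K]

/-- The torsion points over `K`. -/
def tors (W : WeierstrassCurve ℤ) : Set (base W K).toAffine.Point := {P | ∃ n : ℕ, 0 < n ∧ n • P = 0}

/-- The rank of the group of the points over `K`. -/
noncomputable def rank (W : WeierstrassCurve ℤ) : ℕ := Module.finrank ℤ (base W K).toAffine.Point

/-- `g` is a basis of the group of the points over `K` modulo torsion. -/
def IsBasis (W : WeierstrassCurve ℤ) {r : ℕ} (g : Fin r → (base W K).toAffine.Point) : Prop :=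
  ∀ P : (base W K).toAffine.Point, ∃! n : Fin r → ℤ, P - ∑ i, n i • g i ∈ tors K W

/-- `h` is the canonical height: `h(P) = lim 4^{-k} h_K(x(2^k P))`, where `h_K` is the logarithmic
height relative to `K`. -/
def IsHeight (W : WeierstrassCurve ℤ) (h : (base W K).toAffine.Point → ℝ) : Prop :=
  ∀ P : (base W K).toAffine.Point,
    Tendsto (fun k : ℕ => Height.logHeight ((2 ^ k : ℕ) • P).xRep / 4 ^ k) atTop (𝓝 (h P))

/-- The regulator, the determinant of `⟨g_i, g_j⟩ = (h(g_i + g_j) - h(g_i) - h(g_j)) / 2`. -/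
noncomputable def reg (W : WeierstrassCurve ℤ) (h : (base W K).toAffine.Point → ℝ) {r : ℕ}
    (g : Fin r → (base W K).toAffine.Point) : ℝ :=
  (Matrix.of fun i j : Fin r => (h (g i + g j) - h (g i) - h (g j)) / 2).det

/-- The order of vanishing of `L(W/K, s)` at `s = 1` is `n`, and `x` is the analytic order of `Ш(W/K)`, that is
`L*(W/K) √|Δ_K| (#W(K)_tors)² / (Reg Ω T)`, where `T` is the product of the Tamagawa numbers. -/
def IsAnalyticSha (W : WeierstrassCurve ℤ) (T n : ℕ) (x : ℂ) : Prop :=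
  ∃ (y : ℂ) (h : (base W K).toAffine.Point → ℝ) (r : ℕ) (g : Fin r → (base W K).toAffine.Point),
    HasQuotient K W n y ∧ IsHeight K W h ∧ IsBasis K W g ∧ 0 < reg K W h g ∧ 0 < Omega K W ∧
    0 < T ∧ 0 < Nat.card (tors K W) ∧
    x = y * (Nat.card (tors K W) : ℂ) ^ 2 / ((reg K W h g * T : ℝ) : ℂ)

end

/-! ### The modular form -/

/-- `a_p = p + 1 - #E(𝔽_p)`. -/
noncomputable def a (W : WeierstrassCurve ℤ) (p : ℕ) : ℤ := (p : ℤ) - (pts W (ZMod p) : ℤ)

/-- The theorem of Atkin and Lehner for the newform `f` of `W`: `a_p = ± 1` if `p ∣ N`, `p² ∤ N`; and if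
`N = Q Q'` with `Q'` squarefree and prime to `Q` then every matrix `(Q a, b; N c, Q d)` of determinant `Q`
acts on `f` with the eigenvalue `- w ∏_{p ∣ Q'} (-a_p)`, where `w` is the root number.  (The eigenvalue
of the operator `W_p` is `-a_p` if `p ∣ N`, `p² ∤ N`, and the eigenvalue of `W_N` is `-w`.) -/
def AtkinLehner (W : WeierstrassCurve ℤ) (N : ℕ) (f : CuspForm (Gamma0 N : Subgroup (GL (Fin 2) ℝ)) 2) :
    Prop :=
  ∃ w : ℤ, (w = 1 ∨ w = -1) ∧
    (∀ p : ℕ, p.Prime → p ∣ N → ¬ p ^ 2 ∣ N → a W p = 1 ∨ a W p = -1) ∧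
    ∀ Q Q' : ℕ, N = Q * Q' → Q.Coprime Q' → Squarefree Q' →
      ∀ a' b c d : ℤ, Q * a' * d - Q' * b * c = 1 → ∀ τ τ' : ℍ,
        (τ' : ℂ) * ((N : ℂ) * c * τ + Q * d) = Q * a' * τ + b →
        f τ' = -((w * ∏ p ∈ Q'.primeFactors, (-a W p) : ℤ) : ℂ) *
          ((N : ℂ) * c * τ + Q * d) ^ 2 / Q * f τ

/-- `W` is the equation of an elliptic curve over `ℚ`; there is a newform `f` of `W` of level `N` such that
`c` times the periods of `2 π i f(z) dz` on `Γ₀(N)` are in the period lattice of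
`dx / (2 y + a₁ x + a₃)`, which is the lattice with `g₂ = c₄ / 12` and `g₃ = c₆ / 216`.  (This is so for
the minimal equation of every elliptic curve over `ℚ` by the modularity theorem, for some integer
`c ≠ 0`, and by the theorem of Atkin and Lehner.) -/
structure Modular (W : WeierstrassCurve ℤ) (N : ℕ) (c : ℤ) : Prop where
  ne : W.Δ ≠ 0
  pos : N ≠ 0
  c_ne : c ≠ 0
  form : ∃ f : CuspForm (Gamma0 N : Subgroup (GL (Fin 2) ℝ)) 2, IsNewform W N f ∧ AtkinLehner W N f ∧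
    ∃ Λ : PeriodPair, Λ.g₂ = (W.c₄ : ℂ) / 12 ∧ Λ.g₃ = (W.c₆ : ℂ) / 216 ∧
      ∀ γ ∈ Gamma0 N, ∀ z : ℍ,
        (c : ℂ) * (prim f ((γ • z : ℍ) : ℂ) - prim f (z : ℂ)) ∈ Λ.lattice

/-! ### The statements for an extension `K / F` -/

/-- The statement for the leading coefficients: if the order of vanishing `n` is the same for both fields then
`x*(K) = d^n (T(K) / T(F)) q² x*(F)`, `d = [K : F]`, with a rational number `q ≠ 0`; and
`(2 c)^([K : ℚ] - [F : ℚ]) d^n (T(K) / T(F)) q²` is an integer. -/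
def Leading (W : WeierstrassCurve ℤ) (N : ℕ) (c : ℤ) (F K : Type) [Field F] [NumberField F] [Field K]
    [NumberField K] (d : ℕ) : Prop :=
  ∀ (n : ℕ) (x y : ℂ), HasQuotient F W n x → HasQuotient K W n y →
    ∃ q : ℚ, q ≠ 0 ∧
      y = (((d : ℚ) ^ n * ((tamagawaProduct K N W : ℚ) / tamagawaProduct F N W) * q ^ 2 : ℚ) : ℂ) * x ∧
      ∃ m : ℤ, ((2 * c : ℤ) : ℚ) ^ (Module.finrank ℚ K - Module.finrank ℚ F) *
        ((d : ℚ) ^ n * ((tamagawaProduct K N W : ℚ) / tamagawaProduct F N W) * q ^ 2) = m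

/-- The statement for the analytic orders of `Ш` of the twist `E_D`, `D = 4 k + 1`, of a semistable curve: if the
order of vanishing `n` is the same for both fields, and the rank `r` is the same for both fields, then
`Ш_an(E_D/K) = d^(n - r) q² Ш_an(E_D/F)`, `d = [K : F]`, with a rational number `q ≠ 0`. -/
def Sha (W : WeierstrassCurve ℤ) (N : ℕ) (k : ℤ) (F K : Type) [Field F] [NumberField F] [Field K]
    [NumberField K] (d : ℕ) : Prop :=
  ∀ (n : ℕ) (x y : ℂ), IsAnalyticSha F (twist W k) (tamagawaAll F N W k) n x →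
    IsAnalyticSha K (twist W k) (tamagawaAll K N W k) n y → rank F (twist W k) = rank K (twist W k) →
    ∃ q : ℚ, q ≠ 0 ∧ y = (d : ℂ) ^ ((n : ℤ) - rank F (twist W k)) * (q : ℂ) ^ 2 * x

/-- Every quadratic field contained in `K` is contained in `F`. -/
def NoNewQuadratic {M : Type} [Field M] [NumberField M] (F K : IntermediateField ℚ M) : Prop :=
  ∀ Q : IntermediateField ℚ M, Q ≤ K → Module.finrank ℚ Q = 2 → Q ≤ F

/-- `L(E_D/K, s)` has an order of vanishing and a leading coefficient at `s = 1`, and if `N` is squarefree then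
`Ш_an(E_D/K)` is defined and not zero. -/
def Defined (W : WeierstrassCurve ℤ) (N : ℕ) (k : ℤ) (K : Type) [Field K] [NumberField K] : Prop :=
  (∃ (m : ℕ) (x : ℂ), x ≠ 0 ∧ HasQuotient K (twist W k) m x) ∧
    (Squarefree N → ∃ (m : ℕ) (x : ℂ), x ≠ 0 ∧
      IsAnalyticSha K (twist W k) (tamagawaAll K N W k) m x)

/-- The products `T(F)`, `T(K)` are positive, and `T(K) / T(F)` is a square if `n` is prime to `N`. -/
def Products (W : WeierstrassCurve ℤ) (N n : ℕ) (F K : Type) [Field F] [NumberField F] [Field K]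
    [NumberField K] : Prop :=
  0 < tamagawaProduct F N W ∧ 0 < tamagawaProduct K N W ∧
    (n.Coprime N → ∃ t : ℚ, t ≠ 0 ∧ (tamagawaProduct K N W : ℚ) = t ^ 2 * tamagawaProduct F N W)

/-- The main statement for the twist `E_D`, `D = 4 k + 1`: `M = ℚ(ζ_n)`, where `n` is not divisible by the primes `p`
with `p² ∣ N D²`, and `F ⊆ K ⊆ M`. -/
def Main (W : WeierstrassCurve ℤ) (N : ℕ) (c k : ℤ) : Prop :=
  ∀ (n : ℕ) [NeZero n], (∀ p : ℕ, p.Prime → p ∣ n → ¬ p ^ 2 ∣ level N k) →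
    ∀ (M : Type) [Field M] [NumberField M] [IsCyclotomicExtension {n} ℚ M],
      (∀ K : IntermediateField ℚ M, Defined W N k K) ∧
      ∀ F K : IntermediateField ℚ M, F ≤ K → NoNewQuadratic F K →
        ∀ d : ℕ, Module.finrank ℚ K = d * Module.finrank ℚ F →
          Leading (twist W k) (level N k) c F K d ∧ Products (twist W k) (level N k) n F K ∧
            (Squarefree N → Sha W N k F K d)

/-- The statement for towers: there is `j₀` such that for all primes `p ≠ 2`, `p ∤ N`, all `j₀ ≤ j ≤ k`,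
`M = ℚ(ζ_(p^k))`, `C = ℚ(ζ_(p^j)) ⊆ M` and all subfields `F ⊆ K` of `M` with `K ∩ C ⊆ F` the order of
vanishing at `s = 1` is the same number `n` for `F` and `K`, and `x*(K) = [K : F]^n q² x*(F)`, `q ≠ 0`
rational. -/
def Towers (W : WeierstrassCurve ℤ) (N : ℕ) : Prop :=
  ∃ j₀ : ℕ, ∀ p : ℕ, p.Prime → p ≠ 2 → ¬ p ∣ N → ∀ j k : ℕ, j₀ ≤ j → j ≤ k →
    ∀ [NeZero (p ^ k)] (M : Type) [Field M] [NumberField M] [IsCyclotomicExtension {p ^ k} ℚ M]
      (C : IntermediateField ℚ M) [IsCyclotomicExtension {p ^ j} ℚ C] (F K : IntermediateField ℚ M),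
      F ≤ K → K ⊓ C ≤ F → ∀ d : ℕ, Module.finrank ℚ K = d * Module.finrank ℚ F →
      ∃ (n : ℕ) (x y : ℂ) (q : ℚ), HasQuotient F W n x ∧ HasQuotient K W n y ∧ q ≠ 0 ∧
        y = (d : ℂ) ^ n * (q : ℂ) ^ 2 * x

/-- The statement for fields of prime power degree: if `L(E/ℚ, 1) ≠ 0` then for all primes `l`, with finitely many
exceptions, and all squarefree `n`, prime to `N`, such that `a_p` is not `2` modulo `l` for the primes `p ∣ n`, and all
fields `F ⊆ K ⊆ ℚ(ζ_n)`, where `[K : ℚ]` is a power of `l`, the values `L(E/F, 1)`, `L(E/K, 1)` are not zero, and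
`x*(K) = q² x*(F)`. -/
def PrimePower (W : WeierstrassCurve ℤ) (N : ℕ) : Prop :=
  ∃ B : ℤ, B ≠ 0 ∧ ∀ l : ℕ, l.Prime → ¬ (l : ℤ) ∣ B → ∀ (n : ℕ) [NeZero n], Squarefree n →
    n.Coprime N → (∀ p : ℕ, p.Prime → p ∣ n → ¬ (l : ℤ) ∣ a W p - 2) →
    ∀ (M : Type) [Field M] [NumberField M] [IsCyclotomicExtension {n} ℚ M]
      (F K : IntermediateField ℚ M), F ≤ K → (∃ j : ℕ, Module.finrank ℚ K = l ^ j) →
      (∃ x : ℂ, HasQuotient (⊥ : IntermediateField ℚ M) W 0 x) →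
      ∃ (x y : ℂ) (q : ℚ), HasQuotient F W 0 x ∧ HasQuotient K W 0 y ∧ q ≠ 0 ∧ y = (q : ℂ) ^ 2 * x

/-! ### The examples -/

/-- `x` is the square of a rational number that is not zero and whose denominator divides a power of `b`. -/
def SquareOver (x : ℂ) (b : ℕ) : Prop := ∃ a e : ℕ, a ≠ 0 ∧ x = ((a : ℂ) / (b : ℂ) ^ e) ^ 2

/-- If `L(E_D/K, 1) ≠ 0` and `E_D(K)` has rank `0` then `Ш_an(E_D/K) = q²` with a rational number `q ≠ 0` whose
denominator divides a power of `B [K : ℚ]`, and a power of `2 [K : ℚ]` if only one prime of `K` lies above `P`. -/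
def OddSquaresAt (K : Type) [Field K] [NumberField K] (W : WeierstrassCurve ℤ) (N : ℕ) (k : ℤ) (B P : ℕ) :
    Prop :=
  rank K (twist W k) = 0 → ∀ x : ℂ, IsAnalyticSha K (twist W k) (tamagawaAll K N W k) 0 x →
    SquareOver x (B * Module.finrank ℚ K) ∧
    ((∃! v : HeightOneSpectrum (𝓞 K), (P : 𝓞 K) ∈ v.asIdeal) → SquareOver x (2 * Module.finrank ℚ K))

/-- The statement for the fields of odd degree: `OddSquaresAt` holds for all abelian fields `K` of odd degree and of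
conductor prime to `D`. -/
def OddSquares (W : WeierstrassCurve ℤ) (N : ℕ) (k : ℤ) (B P : ℕ) : Prop :=
  ∀ (n : ℕ) [NeZero n], (∀ p : ℕ, p.Prime → p ∣ n → ¬ p ^ 2 ∣ level N k) →
    ∀ (M : Type) [Field M] [NumberField M] [IsCyclotomicExtension {n} ℚ M] (K : IntermediateField ℚ M),
      Odd (Module.finrank ℚ K) → OddSquaresAt K W N k B P

/-- The number of the primes of `K` above `p`. -/
noncomputable def primesAbove (K : Type) [Field K] [NumberField K] (p : ℕ) : ℕ :=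
  Nat.card {v : HeightOneSpectrum (𝓞 K) // (p : 𝓞 K) ∈ v.asIdeal}

/-- If `L(E/K, 1) ≠ 0` and `E(K)` has rank `0` then `Ш_an(E/K) = l^([K : ℚ] - g) (a / 2^h)²`, where `a ≠ 0` is an integer
and `g` is the number of the primes of `K` above `P` (`g` divides `[K : ℚ]` if `K` is abelian); and `h = 0` if `N` is
odd, and `2 h + 1` is the number of the primes of `K` above `2` if `N` is even. -/
def IntegralityAt (K : Type) [Field K] [NumberField K] (W : WeierstrassCurve ℤ) (N l P : ℕ) : Prop :=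
  rank K W = 0 → ∀ x : ℂ, IsAnalyticSha K W (tamagawaProduct K N W) 0 x →
    ∃ a h : ℕ, a ≠ 0 ∧ (Odd N → h = 0) ∧ (Even N → 2 * h + 1 = primesAbove K 2) ∧
      x = (l : ℂ) ^ (Module.finrank ℚ K - primesAbove K P) * ((a : ℂ) / 2 ^ h) ^ 2

/-- The integrality: `IntegralityAt` holds for all abelian fields of odd degree and of conductor prime to `N`. -/
def Integrality (W : WeierstrassCurve ℤ) (N l P : ℕ) : Prop :=
  ∀ (n : ℕ) [NeZero n], n.Coprime N →
    ∀ (M : Type) [Field M] [NumberField M] [IsCyclotomicExtension {n} ℚ M] (K : IntermediateField ℚ M),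
      Odd (Module.finrank ℚ K) → IntegralityAt K W N l P

/-- `L(X_0(11)/K, 1) ≠ 0` and `x*(K) = 5^([K : ℚ] - 1) a² / 5` with an integer `a ≠ 0`. -/
def Value11 (K : Type) [Field K] [NumberField K] : Prop :=
  ∃ a : ℕ, a ≠ 0 ∧ HasQuotient K X11 0 ((5 : ℂ) ^ (Module.finrank ℚ K - 1) * (a : ℂ) ^ 2 / 5)

/-- The statement for `X_0(11)`: `OddSquares` and `Integrality` for `X_0(11)` itself; and
* for all primes `l ≠ 2`, all squarefree `n`, prime to `11`, such that `a_p` is not `2` modulo `l` for the primes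
  `p ∣ n`, and all `K ⊆ ℚ(ζ_n)` whose degree is a power of `l`, `Value11` holds;
* `T(K) = 5 [K : ℚ]` if `K ⊆ ℚ(ζ_11)`. -/
def Eleven : Prop :=
  OddSquares X11 11 0 10 11 ∧ Integrality X11 11 5 11 ∧
  (∀ l : ℕ, l.Prime → l ≠ 2 → ∀ (n : ℕ) [NeZero n], Squarefree n → n.Coprime 11 →
    (∀ p : ℕ, p.Prime → p ∣ n → ¬ (l : ℤ) ∣ a X11 p - 2) →
    ∀ (M : Type) [Field M] [NumberField M] [IsCyclotomicExtension {n} ℚ M]
      (K : IntermediateField ℚ M), (∃ j : ℕ, Module.finrank ℚ K = l ^ j) →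
      Value11 K) ∧
  (∀ [NeZero 11] (M : Type) [Field M] [NumberField M] [IsCyclotomicExtension {11} ℚ M]
    (K : IntermediateField ℚ M), tamagawaProduct K 11 X11 = 5 * Module.finrank ℚ K)

/-- On `K` the automorphism `σ` is a power of the Frobenius automorphism at `p`, i.e. of the automorphism `φ` of the
cyclotomic field `C` that raises the `q`-th roots of unity to the power `p`. -/
def FrobPow {C : Type} [Field C] [NumberField C] (q p : ℕ) (K : IntermediateField ℚ C)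
    (σ : C ≃ₐ[ℚ] C) : Prop :=
  ∃ φ : C ≃ₐ[ℚ] C, (∀ ζ : C, ζ ^ q = 1 → φ ζ = ζ ^ p) ∧ ∃ k : ℕ, ∀ x ∈ K, σ x = (φ ^ k) x

/-- The primes `2` and `7` are inert in `K` and the narrow class number of `K` is odd. -/
def Inert (K : Type) [Field K] [NumberField K] : Prop :=
  (Ideal.span {((2 : ℕ) : 𝓞 K)}).IsPrime ∧ (Ideal.span {((7 : ℕ) : 𝓞 K)}).IsPrime ∧
    Odd (Nat.card (Pool.Agent.Y682.NCl K))

/-- The statement for all twists `E_D` of `X_0(14)`, `D = 1` modulo `4` squarefree and prime to `14`, in all ranks.  Let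
`q` be a power of a prime, prime to `14 D`, and `F ⊆ K ⊆ ℚ(ζ_q)`, `d = [K : F]`, `K` of odd degree.  Suppose that `q`
is a power of `3` (then `F` and `K` are layers of the cyclotomic `ℤ₃`-extension of `ℚ`), or that `2` and `7` are inert
in `K` and the narrow class number of `K` is odd; and suppose for the primes `p ∣ D` that the primes of `F` over `p` are
inert in `K`, or that `q` is a power of `3` and `p² - 1` is not divisible by `9 [F : ℚ]`.  Then `E_D(F)` and `E_D(K)`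
have the same rank `r`, `L(E_D/F, s)` and `L(E_D/K, s)` have the same order of vanishing `n` at `s = 1`, and
`Ш_an(E_D/K) = d^(n - r) t² Ш_an(E_D/F)`, `t ≠ 0` rational. -/
def Layers : Prop :=
  ∀ (q : ℕ) [NeZero q], IsPrimePow q → q.Coprime 14 →
    ∀ (C : Type) [Field C] [NumberField C] [IsCyclotomicExtension {q} ℚ C] (F K : IntermediateField ℚ C),
      F ≤ K → Odd (Module.finrank ℚ K) → (3 ∣ q ∨ Inert K) → ∀ k : ℤ, Twistable 14 k →
      (∀ p : ℕ, p.Prime → p ∣ (4 * k + 1).natAbs → ¬ p ∣ q ∧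
        ((∀ σ : C ≃ₐ[ℚ] C, (∀ x ∈ F, σ x = x) → FrobPow q p K σ) ∨
          (3 ∣ q ∧ ¬ 9 * Module.finrank ℚ F ∣ p ^ 2 - 1))) →
      ∀ d : ℕ, Module.finrank ℚ K = d * Module.finrank ℚ F →
      rank F (twist X14 k) = rank K (twist X14 k) ∧ ∃ (n : ℕ) (x y : ℂ) (t : ℚ), x ≠ 0 ∧ t ≠ 0 ∧
        IsAnalyticSha F (twist X14 k) (tamagawaAll F 14 X14 k) n x ∧
        IsAnalyticSha K (twist X14 k) (tamagawaAll K 14 X14 k) n y ∧
        y = (d : ℂ) ^ ((n : ℤ) - rank F (twist X14 k)) * (t : ℂ) ^ 2 * x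

/-- The 2-primary part of the Tate-Shafarevich group over `K`. -/
def Sha2 (K : Type) [Field K] [NumberField K] (W : WeierstrassCurve ℤ) :
    Set (Pool.Agent.TH841.NF.D.Sha (base W K)) := {x | ∃ n : ℕ, 2 ^ n • x = 0}

/-- The conjecture for `E = X_0(14)` over `K` up to the square of an odd integer: the rank of `E(K)` is `0`,
`L(E/K, 1) ≠ 0`, the group `Ш(E/K)` has no elements of order `2`, and `Ш_an(E/K) = 3^([K : ℚ] - 1) a²` with an odd
integer `a`.  (The degree of `K` is odd.) -/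
def UpToOddSquare (K : Type) [Field K] [NumberField K] : Prop :=
  rank K X14 = 0 ∧ Sha2 K X14 = {0} ∧ ∃ a : ℕ, Odd a ∧
    IsAnalyticSha K X14 (tamagawaProduct K 14 X14) 0 ((3 : ℂ) ^ (Module.finrank ℚ K - 1) * (a : ℂ) ^ 2)

/-- The statement for `X_0(14)` itself.  Let `q > 1` be prime to `14` and `K ⊆ ℚ(ζ_q)` of odd degree; suppose that `q`
is a power of `3`, or that `2` and `7` are inert in `K`, the narrow class number of `K` is odd, and either `q` is a power
of a prime or every prime factor of `q` divides the discriminant of every subfield `F ≠ ℚ` of `K`.  Then `X_0(14)(K)`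
has rank `0`, `L(X_0(14)/K, 1) ≠ 0`, the group `Ш(X_0(14)/K)` has no elements of order `2`, and
`Ш_an(X_0(14)/K) = 3^([K : ℚ] - 1) a²`, where `a` is an odd integer. -/
def Fields14 : Prop :=
  ∀ (q : ℕ) [NeZero q], 1 < q → q.Coprime 14 →
    ∀ (M : Type) [Field M] [NumberField M] [IsCyclotomicExtension {q} ℚ M] (K : IntermediateField ℚ M),
      Odd (Module.finrank ℚ K) → ((∃ n : ℕ, q = 3 ^ n) ∨ (Inert K ∧
        (IsPrimePow q ∨ ∀ F : IntermediateField ℚ M, F ≤ K → F ≠ ⊥ →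
          ∀ p : ℕ, p.Prime → p ∣ q → (p : ℤ) ∣ discr F))) →
      UpToOddSquare K

/-- `n` is squarefree, `n = 7` modulo `8`, `n` is prime to `3`, the prime `7` is inert in `ℚ(√-n)`,
and the class number of `ℚ(√-n)` is prime to `3`.  (Such `n` have positive lower density.) -/
def Admissible (n : ℕ) : Prop :=
  Squarefree n ∧ n % 8 = 7 ∧ ¬ 3 ∣ n ∧ jacobiSym (-(n : ℤ)) 7 = -1 ∧
    ∀ (k : Type) [Field k] [NumberField k], Module.finrank ℚ k = 2 → (∃ x : k, x ^ 2 = -(n : k)) →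
      ¬ 3 ∣ Fintype.card (ClassGroup (𝓞 k))

/-- `q` is squarefree and its prime factors `l` are `1` modulo `3`, different from `7` and inert in
`ℚ(√-n)`. -/
def Conductor (n q : ℕ) : Prop :=
  Squarefree q ∧ ∀ l : ℕ, l.Prime → l ∣ q → l % 3 = 1 ∧ jacobiSym (-(n : ℤ)) l = -1 ∧ l ≠ 7

/-- The statement for the twists `E_{-n}` of `X_0(14)`, `n` admissible: for all conductors `q` and all fields
`F ⊆ K ⊆ ℚ(ζ_q)`, where `[K : ℚ]` is a power of `3`, `L(E_{-n}/F, 1)` and `L(E_{-n}/K, 1)` are not zero, the ranks of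
`E_{-n}(F)` and `E_{-n}(K)` are `0`, and `Ш_an(E_{-n}/K) = t² Ш_an(E_{-n}/F)`, `t ≠ 0` rational. -/
def ThreePower : Prop :=
  ∀ (n q : ℕ), Admissible n → Conductor n q → ∀ k : ℤ, 4 * k + 1 = -(n : ℤ) →
    ∀ (M : Type) [Field M] [NumberField M] [IsCyclotomicExtension {q} ℚ M]
      (F K : IntermediateField ℚ M), F ≤ K → (∃ j : ℕ, Module.finrank ℚ K = 3 ^ j) →
      rank F (twist X14 k) = 0 ∧ rank K (twist X14 k) = 0 ∧ ∃ (x y : ℂ) (t : ℚ), x ≠ 0 ∧ t ≠ 0 ∧
        IsAnalyticSha F (twist X14 k) (tamagawaAll F 14 X14 k) 0 x ∧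
        IsAnalyticSha K (twist X14 k) (tamagawaAll K 14 X14 k) 0 y ∧ y = (t : ℂ) ^ 2 * x

/-- The statement for `X_0(14)` and its twists. -/
def Fourteen : Prop :=
  OddSquares X14 14 0 6 7 ∧ Integrality X14 14 3 7 ∧ Fields14 ∧ Layers ∧ ThreePower

/-- `D < 0` is `13`, `29`, `37` or `41` modulo `60` (these are all negative `D = 1` modulo `4`, prime to `15`, for which
the twist of `X_0(15)` has the root number `1`), or `D > 0` is `1` or `49` modulo `60`. -/
def Class15 (D : ℤ) : Prop :=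
  (D < 0 ∧ (D % 60 = 13 ∨ D % 60 = 37 ∨ D % 60 = 29 ∨ D % 60 = 41)) ∨
    (0 < D ∧ (D % 60 = 1 ∨ D % 60 = 49))

/-- If `L(E_D/K, 1) ≠ 0` and `E_D(K)` has rank `0` then `Ш_an(E_D/K) = q²` with a rational number `q ≠ 0` whose
denominator divides a power of `2 [K : ℚ]`, and a power of `2` if `K` is unramified at `3` and `5`; here `E_D` is a
twist of `X_0(15)`. -/
def RealSquaresAt (K : Type) [Field K] [NumberField K] (k : ℤ) : Prop :=
  rank K (twist X15 k) = 0 → ∀ x : ℂ, IsAnalyticSha K (twist X15 k) (tamagawaAll K 15 X15 k) 0 x →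
    SquareOver x (2 * Module.finrank ℚ K) ∧ ((discr K).natAbs.Coprime 15 → SquareOver x 2)

/-- The statement for totally real fields and the twist `E_D` of `X_0(15)`: `RealSquaresAt` holds for all totally real
abelian fields `K` of conductor prime to `D` whose quadratic subfields have discriminants prime to `30` (no condition if
there are no quadratic subfields). -/
def RealSquares (k : ℤ) : Prop :=
  ∀ (n : ℕ) [NeZero n], (∀ p : ℕ, p.Prime → p ∣ n → ¬ p ^ 2 ∣ level 15 k) →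
    ∀ (M : Type) [Field M] [NumberField M] [IsCyclotomicExtension {n} ℚ M] (K : IntermediateField ℚ M),
      nrComplexPlaces K = 0 →
      (∀ Q : IntermediateField ℚ M, Q ≤ K → Module.finrank ℚ Q = 2 → (discr Q).natAbs.Coprime 30) →
      RealSquaresAt K k

/-- The statement for the twists `E_D` of `X_0(15)`: `OddSquares` for all squarefree `D` in the class, and
`RealSquares` for the negative ones. -/
def Fifteen : Prop :=
  (∀ k : ℤ, Squarefree (4 * k + 1) → Class15 (4 * k + 1) → OddSquares X15 15 k 2 5) ∧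
    ∀ k : ℤ, Squarefree (4 * k + 1) → Class15 (4 * k + 1) → 4 * k + 1 < 0 → RealSquares k

/-! ### Proofs -/

lemma powerSum_eq (t u : ℂ) : ∀ k, powerSum t u k = W165.CE.pw t u k
  | 0 => rfl
  | 1 => rfl
  | k + 2 => by
    unfold powerSum W165.CE.pw
    rw [powerSum_eq t u (k + 1), powerSum_eq t u k]

lemma trace_eq {K : Type} [Field K] [NumberField K] (W : WeierstrassCurve ℤ)
    (v : HeightOneSpectrum (𝓞 K)) : trace W v = Pool.Agent.H464.SQ.tr W v := by
  unfold trace Pool.Agent.H464.SQ.tr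
  by_cases h1 : ((2 * W.Δ : ℤ) : 𝓞 K) ∈ v.asIdeal
  · rw [if_pos h1, if_pos h1]
    exact powerSum_eq _ _ _
  · rw [if_neg h1, if_neg h1]
    rfl

lemma factor_eq {K : Type} [Field K] [NumberField K] (W : WeierstrassCurve ℤ) (s : ℂ)
    (v : HeightOneSpectrum (𝓞 K)) : factor W s v = Pool.Agent.H464.SQ.fac W s v := by
  unfold factor Pool.Agent.H464.SQ.fac
  rw [trace_eq]

lemma isL {K : Type} [Field K] [NumberField K] {W : WeierstrassCurve ℤ} {L : ℂ → ℂ} :
    IsLFunction K W L ↔ Pool.Agent.H464.SQ.IsL W K L := by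
  have h : ∀ s, factor (K := K) W s = Pool.Agent.H464.SQ.fac (K := K) W s :=
    fun s => funext fun v => factor_eq W s v
  constructor
  · rintro ⟨h1, h2⟩
    exact ⟨h1, fun s hs => by rw [← h]; exact h2 s hs⟩
  · rintro ⟨h1, h2⟩
    exact ⟨h1, fun s hs => by rw [h]; exact h2 s hs⟩

lemma tam_eq {K : Type} [Field K] [NumberField K] (W : WeierstrassCurve ℤ)
    (v : HeightOneSpectrum (𝓞 K)) : tamagawa W v = Pool.Agent.H464.SR.tam W v := by
  unfold tamagawa Pool.Agent.H464.SR.tam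
  rw [trace_eq]
  rfl

lemma tamProd_eq (K : Type) [Field K] [NumberField K] (N : ℕ) (W : WeierstrassCurve ℤ) :
    tamagawaProduct K N W = Pool.Agent.H464.SR.Tm N W K := by
  unfold tamagawaProduct Pool.Agent.H464.SR.Tm
  have h : (fun v : HeightOneSpectrum (𝓞 K) => tamagawa W v) = Pool.Agent.H464.SR.tam W :=
    funext fun v => tam_eq W v
  show ∏ᶠ v ∈ {v : HeightOneSpectrum (𝓞 K) | prm v ∣ N ∧ ¬ prm v ^ 2 ∣ N}, (fun v => tamagawa W v) v = _
  rw [h]
  rfl

lemma al_iff {W : WeierstrassCurve ℤ} {N : ℕ} [NeZero N]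
    {f : CuspForm (Gamma0 N : Subgroup (GL (Fin 2) ℝ)) 2} (h : AtkinLehner W N f) :
    ∃ w : ℤ, Pool.Agent.H464.SR.AL f (Pool.Agent.H464.SR.evw W w) ∧
      Pool.Agent.H464.SR.Loc N (Pool.Agent.H464.SR.aP W) (Pool.Agent.H464.SR.evw W w) w := by
  obtain ⟨w, hw, h1, h2⟩ := h
  have hloc : Pool.Agent.H464.SR.Loc N (Pool.Agent.H464.SR.aP W) (Pool.Agent.H464.SR.evw W w) w :=
    ⟨hw, h1, fun Q => rfl⟩
  refine ⟨w, ?_, hloc⟩
  intro Q Q' hQ hco hsf
  refine ⟨?_, fun a' b c d hd τ τ' hτ => h2 Q Q' hQ hco hsf a' b c d hd τ τ' hτ⟩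
  have h3 : IsUnit (Pool.Agent.H464.SR.evw W w Q') := by
    unfold Pool.Agent.H464.SR.evw
    refine IsUnit.mul (Int.isUnit_iff.2 hw) ?_
    refine Finset.prod_induction _ (fun x : ℤ => IsUnit x) (fun _ _ => IsUnit.mul) isUnit_one ?_
    intro p hp
    obtain ⟨hp1, hp2, hp3⟩ := Nat.mem_primeFactors.1 hp
    have h4 : ¬ p ^ 2 ∣ N := by
      intro h
      rw [hQ] at h
      have h5 : ¬ p ∣ Q := by
        intro h6
        have h7 := Nat.dvd_gcd h6 hp2
        rw [hco] at h7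
        exact hp1.one_lt.ne' (Nat.dvd_one.1 h7)
      have h6 : (p ^ 2).Coprime Q := Nat.Coprime.pow_left 2 ((Nat.Prime.coprime_iff_not_dvd hp1).2 h5)
      have h7 : p ^ 2 ∣ Q' := h6.dvd_of_dvd_mul_left h
      have h8 := hsf p (by rw [← sq]; exact h7)
      exact hp1.one_lt.ne' (Nat.isUnit_iff.1 h8)
    rcases hloc.a_one p hp1 (hp2.trans ⟨Q, by rw [hQ, mul_comm]⟩) h4 with h5 | h5 <;> rw [h5]
    · exact Int.isUnit_iff.2 (Or.inr rfl)
    · exact Int.isUnit_iff.2 (Or.inl (by norm_num))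
  exact Int.isUnit_iff.1 h3

lemma exists_quot (W : WeierstrassCurve ℤ) (N : ℕ) (c : ℤ) (hW : Modular W N c) (n : ℕ) [NeZero n]
    (hn : ∀ p : ℕ, p.Prime → p ∣ n → ¬ p ^ 2 ∣ N) (M : Type) [Field M] [NumberField M]
    [IsCyclotomicExtension {n} ℚ M] (K : IntermediateField ℚ M) :
    0 < Omega K W ∧ ∃ (m : ℕ) (x : ℂ), x ≠ 0 ∧ HasQuotient K W m x := by
  obtain ⟨f, hf, hAL, Λ, hg₂, hg₃, hman⟩ := hW.form
  have hN : NeZero N := ⟨hW.pos⟩
  have hfI := Pool.Agent.K4H53.BSX.D.isForm hf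
  obtain ⟨w, hAL, hl⟩ := al_iff hAL
  obtain ⟨Op, Om, κ, hP⟩ := Pool.Agent.H464.SQ.exists_PD hW.ne Λ hg₂ hg₃ hW.c_ne hman
  have h1 := hP.rP_pos
  have h2 := hP.cP_pos
  have hΩ : 0 < Omega K W := mul_pos (pow_pos h1 _) (pow_pos h2 _)
  refine ⟨hΩ, ?_⟩
  obtain ⟨L, r, a, hL, ha⟩ := Pool.Agent.H464.SR.exists_lead hW.ne hfI hAL n hn M K
  have hd : (√|(discr K : ℝ)| : ℝ) ≠ 0 := by
    have h3 : (0 : ℝ) < |(discr K : ℝ)| := abs_pos.2 (by exact_mod_cast discr_ne_zero K)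
    exact (Real.sqrt_pos.2 h3).ne'
  refine ⟨r, a * √|(discr K : ℝ)| / Omega K W, ?_, a, ⟨L, isL.2 hL, ha.1, ha.2⟩, rfl⟩
  exact div_ne_zero (mul_ne_zero ha.1 (Complex.ofReal_ne_zero.2 hd)) (Complex.ofReal_ne_zero.2 hΩ.ne')

lemma leading_of (W : WeierstrassCurve ℤ) (N : ℕ) (c : ℤ) (hW : Modular W N c) (n : ℕ) [NeZero n]
    (hn : ∀ p : ℕ, p.Prime → p ∣ n → ¬ p ^ 2 ∣ N) (M : Type) [Field M] [NumberField M]
    [IsCyclotomicExtension {n} ℚ M] (F K : IntermediateField ℚ M) (hFK : F ≤ K)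
    (hq : ∀ Q : IntermediateField ℚ M, Q ≤ K → Module.finrank ℚ Q = 2 → Q ≤ F) (d : ℕ)
    (hd : Module.finrank ℚ K = d * Module.finrank ℚ F) :
    Leading W N c F K d ∧ 0 < tamagawaProduct F N W ∧ 0 < tamagawaProduct K N W ∧
      (n.Coprime N → ∃ t : ℚ, t ≠ 0 ∧
        (tamagawaProduct K N W : ℚ) = t ^ 2 * tamagawaProduct F N W) := by
  obtain ⟨f, hf, hAL, Λ, hg₂, hg₃, hman⟩ := hW.form
  have hN : NeZero N := ⟨hW.pos⟩
  have hfI := Pool.Agent.K4H53.BSX.D.isForm hf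
  obtain ⟨w, hAL, hl⟩ := al_iff hAL
  obtain ⟨Op, Om, κ, hP⟩ := Pool.Agent.H464.SQ.exists_PD hW.ne Λ hg₂ hg₃ hW.c_ne hman
  have hlev : ∀ p : ℕ, p.Prime → (p ∣ N ↔ (p : ℤ) ∣ W.Δ) := hfI.level
  refine ⟨?_, ?_, ?_, ?_⟩
  · rintro r x y ⟨a, ⟨LF, hLF, ha, hla⟩, rfl⟩ ⟨b, ⟨LK, hLK, hb, hlb⟩, rfl⟩
    obtain ⟨q, hq0, h1, h2⟩ := Pool.Agent.H464.SR.main' hW.ne hfI hAL hl
      (fun p => W.Δ.natAbs.factorization p) (by
        intro p hp
        obtain ⟨h1, h2⟩ := Finset.mem_filter.1 hp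
        obtain ⟨h3, h4, -⟩ := Nat.mem_primeFactors.1 h1
        exact h3.factorization_pos_of_dvd (Int.natAbs_ne_zero.2 hW.ne)
          (Int.natCast_dvd.1 ((hlev p h3).1 h4))) hP n hn M F K hFK hq LF LK
      (isL.1 hLF) (isL.1 hLK) r a b ⟨ha, hla⟩ ⟨hb, hlb⟩ d hd
    refine ⟨q, hq0, ?_, ?_⟩
    · rw [tamProd_eq, tamProd_eq, Pool.Agent.H464.SR.Tm_eq N W hW.ne hlev n M K,
        Pool.Agent.H464.SR.Tm_eq N W hW.ne hlev n M F, Nat.cast_prod, Nat.cast_prod]
      exact h1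
    · rw [tamProd_eq, tamProd_eq, Pool.Agent.H464.SR.Tm_eq N W hW.ne hlev n M K,
        Pool.Agent.H464.SR.Tm_eq N W hW.ne hlev n M F, Nat.cast_prod, Nat.cast_prod]
      exact h2
  · rw [tamProd_eq]
    exact Pool.Agent.H464.SR.Tm_pos hW.ne hlev n M F
  · rw [tamProd_eq]
    exact Pool.Agent.H464.SR.Tm_pos hW.ne hlev n M K
  · intro hco
    rw [tamProd_eq, tamProd_eq]
    exact Pool.Agent.H464.SR.Tm_sq hW.ne hlev hl n hco M F K hFK hq

lemma basis_rank {W : WeierstrassCurve ℤ} (hΔ : W.Δ ≠ 0) {K : Type} [Field K] [NumberField K] {r : ℕ}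
    {g : Fin r → (base W K).toAffine.Point} (hg : IsBasis K W g) : r = rank K W := by
  obtain ⟨h, -, -, -, h1, -⟩ := Pool.Agent.Y532.XF.t_ch K W hΔ
  exact (h1 r g hg).1

lemma exists_sha {W : WeierstrassCurve ℤ} (hΔ : W.Δ ≠ 0) {T : ℕ} {K : Type} [Field K] [NumberField K]
    (hΩ : 0 < Omega K W) (hT : 0 < T) {n : ℕ} {y : ℂ} (hy : y ≠ 0)
    (h : HasQuotient K W n y) : ∃ x : ℂ, x ≠ 0 ∧ IsAnalyticSha K W T n x := by
  obtain ⟨q, hq, -, -, h1, g, hg⟩ := Pool.Agent.Y532.XF.t_ch K W hΔ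
  have hr : 0 < reg K W q g := (h1 _ g hg).2
  have ht : 0 < Nat.card (tors K W) := Pool.Agent.H464.SR.tors_pos hΔ K
  refine ⟨y * (Nat.card (tors K W) : ℂ) ^ 2 / ((reg K W q g * T : ℝ) : ℂ), ?_,
    y, q, _, g, h, hq, hg, hr, hΩ, hT, ht, rfl⟩
  refine div_ne_zero (mul_ne_zero hy (pow_ne_zero 2 (Nat.cast_ne_zero.2 ht.ne'))) ?_
  refine Complex.ofReal_ne_zero.2 (mul_ne_zero hr.ne' ?_)
  exact_mod_cast hT.ne'

/-- the comparison of the analytic orders -/
lemma sha_gen {W : WeierstrassCurve ℤ} (hΔ : W.Δ ≠ 0) {N : ℕ} {c : ℤ} {M : Type} [Field M]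
    [NumberField M] {F K : IntermediateField ℚ M} (hFK : F ≤ K) {d : ℕ}
    (hd : Module.finrank ℚ K = d * Module.finrank ℚ F) (hlead : Leading W N c F K d)
    (hT0 : 0 < tamagawaProduct F N W) (hT1 : 0 < tamagawaProduct K N W) {A B : ℕ} {s : ℚ} (hs : s ≠ 0)
    (hAB : (B : ℚ) * tamagawaProduct F N W = A * tamagawaProduct K N W * s ^ 2)
    (n : ℕ) (x y : ℂ) (hx : IsAnalyticSha F W A n x) (hy : IsAnalyticSha K W B n y)
    (hrank : rank F W = rank K W) :
    ∃ q : ℚ, q ≠ 0 ∧ y = (d : ℂ) ^ ((n : ℤ) - rank F W) * (q : ℂ) ^ 2 * x := by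
  obtain ⟨yF, hF, rF, gF, hqF, hhF, hgF, hrF, hOF, hTF, htF, rfl⟩ := hx
  obtain ⟨yK, hK, rK, gK, hqK, hhK, hgK, hrK, hOK, hTK, htK, rfl⟩ := hy
  obtain ⟨q, hq0, h1, -⟩ := hlead n yF yK hqF hqK
  have eF := basis_rank hΔ hgF
  have eK := basis_rank hΔ hgK
  have e : rK = rF := by rw [eF, eK, hrank]
  subst e
  obtain ⟨j, hj, h2⟩ := Pool.Agent.H464.SR.reg_ratio (W := W) hΔ
    (IntermediateField.inclusion hFK).toRingHom hhF hhK hgF hgK
  have hfF : (0 : ℝ) < Module.finrank ℚ F := by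
    exact_mod_cast (Module.finrank_pos : 0 < Module.finrank ℚ F)
  have hfK : 0 < Module.finrank ℚ K := Module.finrank_pos
  have hd0 : d ≠ 0 := by
    rintro rfl
    rw [zero_mul] at hd
    exact hfK.ne' hd
  have hdc : (d : ℂ) ≠ 0 := Nat.cast_ne_zero.2 hd0
  have e2 : ((Module.finrank ℚ K : ℝ) / Module.finrank ℚ F) = d := by
    rw [hd]
    push_cast
    field_simp
  rw [e2] at h2
  have h3 : (reg K W hK gK : ℂ) * (j : ℂ) ^ 2 = (d : ℂ) ^ rK * (reg F W hF gF : ℂ) := by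
    exact_mod_cast congrArg (fun x : ℝ => (x : ℂ)) h2
  have hjc : (j : ℂ) ≠ 0 := by exact_mod_cast hj
  have hsc : (s : ℂ) ≠ 0 := by exact_mod_cast hs
  have htFc : (Nat.card (tors F W) : ℂ) ≠ 0 := Nat.cast_ne_zero.2 htF.ne'
  have hTFc : (tamagawaProduct F N W : ℂ) ≠ 0 := Nat.cast_ne_zero.2 hT0.ne'
  have hTKc : (tamagawaProduct K N W : ℂ) ≠ 0 := Nat.cast_ne_zero.2 hT1.ne'
  have hAc : (A : ℂ) ≠ 0 := Nat.cast_ne_zero.2 hTF.ne'
  have hBc : (B : ℂ) ≠ 0 := Nat.cast_ne_zero.2 hTK.ne'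
  have hABc : (B : ℂ) = A * (tamagawaProduct K N W : ℂ) * (s : ℂ) ^ 2 / (tamagawaProduct F N W : ℂ) := by
    rw [eq_div_iff hTFc]
    exact_mod_cast congrArg (fun x : ℚ => (x : ℂ)) hAB
  have hrFc : (reg F W hF gF : ℂ) ≠ 0 := Complex.ofReal_ne_zero.2 hrF.ne'
  have hrKc : (reg K W hK gK : ℂ) ≠ 0 := Complex.ofReal_ne_zero.2 hrK.ne'
  refine ⟨q * j * Nat.card (tors K W) / (Nat.card (tors F W) * s), ?_, ?_⟩
  · have h4 : (Nat.card (tors K W) : ℚ) ≠ 0 := Nat.cast_ne_zero.2 htK.ne'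
    have h5 : (Nat.card (tors F W) : ℚ) ≠ 0 := Nat.cast_ne_zero.2 htF.ne'
    have h6 : (j : ℚ) ≠ 0 := by exact_mod_cast hj
    exact div_ne_zero (mul_ne_zero (mul_ne_zero hq0 h6) h4) (mul_ne_zero h5 hs)
  · rw [h1, ← eF, zpow_sub₀ hdc, zpow_natCast, zpow_natCast]
    push_cast
    have h7 : (reg K W hK gK : ℂ) = (d : ℂ) ^ rK * (reg F W hF gF : ℂ) / (j : ℂ) ^ 2 := by
      rw [← h3]
      field_simp
    rw [h7, hABc]
    field_simp

lemma level_ne {N : ℕ} (hN : N ≠ 0) (k : ℤ) : level N k ≠ 0 :=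
  mul_ne_zero hN (pow_ne_zero 2 (Int.natAbs_ne_zero.2 (by omega)))

/-- the twists are modular -/
lemma modular_tw {W : WeierstrassCurve ℤ} {N : ℕ} {c : ℤ} (hW : Modular W N c) {k : ℤ}
    (hk : Twistable N k) : Modular (twist W k) (level N k) c := by
  refine ⟨?_, level_ne hW.pos k, hW.c_ne, ?_⟩
  · have h1 : (twist W k).Δ = (4 * k + 1) ^ 6 * W.Δ := Pool.Agent.H464.ST.tw_Δ W k
    rw [h1]
    exact mul_ne_zero (pow_ne_zero 6 (by omega)) hW.ne
  · exact Pool.Agent.H464.ST.md_tw hW.pos hW.form hk.1 hk.2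

/-- the Tamagawa numbers of the twists -/
lemma all_ratio {W : WeierstrassCurve ℤ} {N : ℕ} {c : ℤ} (hW : Modular W N c) {k : ℤ}
    (hk : Twistable N k) (n : ℕ) [NeZero n] (hn : ∀ p : ℕ, p.Prime → p ∣ n → ¬ p ^ 2 ∣ level N k)
    (M : Type) [Field M] [NumberField M] [IsCyclotomicExtension {n} ℚ M]
    (F K : IntermediateField ℚ M) (hFK : F ≤ K)
    (hq : ∀ Q : IntermediateField ℚ M, Q ≤ K → Module.finrank ℚ Q = 2 → Q ≤ F)
    (hT0 : 0 < tamagawaProduct F (level N k) (twist W k))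
    (hT1 : 0 < tamagawaProduct K (level N k) (twist W k)) :
    0 < tamagawaAll F N W k ∧ 0 < tamagawaAll K N W k ∧ ∃ s : ℚ, s ≠ 0 ∧
      (tamagawaAll K N W k : ℚ) * tamagawaProduct F (level N k) (twist W k) =
        tamagawaAll F N W k * tamagawaProduct K (level N k) (twist W k) * s ^ 2 := by
  obtain ⟨f, hf, -⟩ := hW.form
  have hst : ∀ (X : Type) [Field X] [NumberField X], tamagawaAll X N W k =
      tamagawaProduct X (level N k) (twist W k) * Pool.Agent.H464.ST.St (4 * k + 1) W X :=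
    fun X _ _ => rfl
  have hcop : n.Coprime (4 * k + 1).natAbs := by
    refine Nat.coprime_of_dvd fun p hp h1 h2 => hn p hp h1 ?_
    exact (pow_dvd_pow_of_dvd h2 2).mul_left N
  obtain ⟨h1, h2, s, hs, h3⟩ := Pool.Agent.H464.ST.St_sq W (4 * k + 1) (by omega) (by
    intro p hp hpD h4
    have hpi : Prime (p : ℤ) := Nat.prime_iff_prime_int.1 hp
    rcases hpi.dvd_or_dvd h4 with h5 | h5
    · have h6 : p ∣ 2 := by exact_mod_cast h5
      have h7 : p = 2 := (Nat.prime_dvd_prime_iff_eq hp Nat.prime_two).1 h6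
      subst h7
      have h8 : ((2 : ℕ) : ℤ) ∣ 4 * k + 1 := Int.natCast_dvd.2 hpD
      omega
    · have h6 : p ∣ N := (hf.level p hp).2 h5
      have h7 := Nat.dvd_gcd h6 hpD
      rw [hk.2] at h7
      exact hp.one_lt.ne' (Nat.dvd_one.1 h7)) n hcop M F K hFK hq
  refine ⟨?_, ?_, s, hs, ?_⟩
  · rw [hst]
    exact Nat.mul_pos hT0 h1
  · rw [hst]
    exact Nat.mul_pos hT1 h2
  · rw [hst, hst]
    push_cast
    rw [h3]
    ring


lemma quot_of {W : WeierstrassCurve ℤ} {K : Type} [Field K] [NumberField K] {L : ℂ → ℂ}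
    (hL : Pool.Agent.H464.SQ.IsL W K L) (h1 : L 1 ≠ 0) :
    HasQuotient K W 0 (L 1 * √|(discr K : ℝ)| / Omega K W) := by
  refine ⟨L 1, ⟨L, isL.2 hL, h1, ?_⟩, rfl⟩
  have h2 : Tendsto L (𝓝[≠] 1) (𝓝 (L 1)) :=
    (hL.entire.continuous.tendsto 1).mono_left nhdsWithin_le_nhds
  refine h2.congr fun s => ?_
  rw [pow_zero, div_one]

lemma val_of {W : WeierstrassCurve ℤ} {K : Type} [Field K] [NumberField K] {x : ℂ}
    (h : HasQuotient K W 0 x) : ∃ L : ℂ → ℂ, Pool.Agent.H464.SQ.IsL W K L ∧ L 1 ≠ 0 := by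
  obtain ⟨a, ⟨L, hL, ha, hla⟩, -⟩ := h
  refine ⟨L, isL.1 hL, ?_⟩
  have h2 : Tendsto L (𝓝[≠] 1) (𝓝 (L 1)) :=
    (hL.entire.continuous.tendsto 1).mono_left nhdsWithin_le_nhds
  have h3 : Tendsto L (𝓝[≠] 1) (𝓝 a) := hla.congr fun s => by rw [pow_zero, div_one]
  rw [tendsto_nhds_unique h2 h3]
  exact ha

lemma tors_univ {K : Type} [Field K] [NumberField K] (W : WeierstrassCurve ℤ)
    [Finite (base W K).toAffine.Point] : tors K W = Set.univ := by
  ext P
  simp only [Set.mem_univ, iff_true]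
  exact ⟨Nat.card (base W K).toAffine.Point, Nat.card_pos,
    card_nsmul_eq_zero' (G := (base W K).toAffine.Point) (x := P)⟩

lemma quot_eq {W : WeierstrassCurve ℤ} {K : Type} [Field K] [NumberField K] {y : ℂ}
    (h : HasQuotient K W 0 y) {L : ℂ → ℂ} (hL : Pool.Agent.H464.SQ.IsL W K L) :
    y = L 1 * √|(discr K : ℝ)| / Omega K W := by
  obtain ⟨a, ⟨L', hL', ha, hla⟩, rfl⟩ := h
  have h1 := (isL.1 hL').unique hL
  subst h1
  have h2 : Tendsto L' (𝓝[≠] 1) (𝓝 (L' 1)) :=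
    (hL.entire.continuous.tendsto 1).mono_left nhdsWithin_le_nhds
  have h3 : Tendsto L' (𝓝[≠] 1) (𝓝 a) := hla.congr fun s => by rw [pow_zero, div_one]
  rw [tendsto_nhds_unique h3 h2]

lemma odd_noNew {M : Type} [Field M] [NumberField M] (F K : IntermediateField ℚ M)
    (hodd : Odd (Module.finrank ℚ K)) (Q : IntermediateField ℚ M) (hQ : Q ≤ K)
    (h2 : Module.finrank ℚ Q = 2) : Q ≤ F := by
  have h3 : Module.finrank ℚ Q ∣ Module.finrank ℚ K := IntermediateField.finrank_dvd_of_le_right hQ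
  rw [h2] at h3
  exact absurd (even_iff_two_dvd.2 h3) (Nat.not_even_iff_odd.2 hodd)

lemma cop_sq {n N : ℕ} (hco : n.Coprime N) (p : ℕ) (hp : p.Prime) (hpn : p ∣ n) : ¬ p ^ 2 ∣ N := by
  intro h
  have h1 : p ∣ N := (dvd_pow_self p two_ne_zero).trans h
  have h2 := Nat.dvd_gcd hpn h1
  rw [hco] at h2
  exact hp.one_lt.ne' (Nat.dvd_one.1 h2)

/-- the quotients of two fields of odd degree over which no value vanishes -/
lemma pair_of (W : WeierstrassCurve ℤ) (N : ℕ) (c : ℤ) (hW : Modular W N c) (n : ℕ) [NeZero n]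
    (hco : n.Coprime N) (M : Type) [Field M] [NumberField M] [IsCyclotomicExtension {n} ℚ M]
    (F K : IntermediateField ℚ M) (hFK : F ≤ K) (hodd : Odd (Module.finrank ℚ K)) {LF LK : ℂ → ℂ}
    (hF : Pool.Agent.H464.SQ.IsL W F LF) (hF1 : LF 1 ≠ 0) (hK : Pool.Agent.H464.SQ.IsL W K LK)
    (hK1 : LK 1 ≠ 0) :
    ∃ (x y : ℂ) (q : ℚ), HasQuotient F W 0 x ∧ HasQuotient K W 0 y ∧ q ≠ 0 ∧ y = (q : ℂ) ^ 2 * x := by
  have hn := cop_sq hco
  obtain ⟨d, hd⟩ : ∃ d, Module.finrank ℚ K = d * Module.finrank ℚ F := by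
    obtain ⟨d, hd⟩ := IntermediateField.finrank_dvd_of_le_right hFK
    exact ⟨d, by rw [hd, mul_comm]⟩
  obtain ⟨h1, h2, h3, h4⟩ := leading_of W N c hW n hn M F K hFK
    (fun Q hQ h => odd_noNew F K hodd Q hQ h) d hd
  have hqF := quot_of hF hF1
  have hqK := quot_of hK hK1
  obtain ⟨q, hq, h5, -⟩ := h1 0 _ _ hqF hqK
  obtain ⟨t, ht, h6⟩ := h4 hco
  refine ⟨_, _, t * q, hqF, hqK, mul_ne_zero ht hq, ?_⟩
  rw [h5]
  congr 1
  have h7 : (tamagawaProduct F N W : ℚ) ≠ 0 := Nat.cast_ne_zero.2 h2.ne'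
  have h8 : ((d : ℚ) ^ 0 * ((tamagawaProduct K N W : ℚ) / tamagawaProduct F N W) * q ^ 2 : ℚ) =
      (t * q) ^ 2 := by
    rw [h6]
    field_simp
  rw [h8]
  push_cast
  rfl

lemma prime_power_of (W : WeierstrassCurve ℤ) (N : ℕ) (c : ℤ) (hW : Modular W N c) :
    PrimePower W N := by
  obtain ⟨f, hf, hAL, Λ, hg₂, hg₃, hman⟩ := hW.form
  have hN : NeZero N := ⟨hW.pos⟩
  have hfI := Pool.Agent.K4H53.BSX.D.isForm hf
  obtain ⟨w, hAL, hl⟩ := al_iff hAL
  obtain ⟨Op, Om, κ, hP⟩ := Pool.Agent.H464.SQ.exists_PD hW.ne Λ hg₂ hg₃ hW.c_ne hman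
  by_cases h0 : Pool.Agent.Y18.BSD.bv f 0 = 0
  · refine ⟨1, one_ne_zero, ?_⟩
    intro l hl' hlB n _ hsq hco hap M _ _ _ F K hFK hj hx
    exfalso
    obtain ⟨x, hx⟩ := hx
    obtain ⟨L, hL, hL1⟩ := val_of hx
    exact hL1 ((Pool.Agent.H464.ST.bot_val hW.ne hfI hAL n (cop_sq hco) M hL).trans h0)
  · obtain ⟨l₀, A₀, hl₀, hl₀N, hA₀, h1⟩ := Pool.Agent.H464.ST.exists_A₀ hfI hP h0
    refine ⟨2 * A₀, mul_ne_zero two_ne_zero hA₀, ?_⟩
    intro l hl' hlB n _ hsq hco hap M _ _ _ F K hFK hj _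
    obtain ⟨j, hj⟩ := hj
    have hl2 : l ≠ 2 := by
      rintro rfl
      exact hlB (dvd_mul_right _ _)
    have hlA : ¬ (l : ℤ) ∣ A₀ := fun h => hlB (h.mul_left 2)
    obtain ⟨LK, hLK, hLK1⟩ := Pool.Agent.H464.ST.nonv_field hW.ne hfI hAL hP hl₀ hl₀N h1 hl' hl2 hlA
      n hsq hco hap M K hj
    have hF : Module.finrank ℚ F ∣ l ^ j := hj ▸ IntermediateField.finrank_dvd_of_le_right hFK
    obtain ⟨i, hi, hF'⟩ := (Nat.dvd_prime_pow hl').1 hF
    obtain ⟨LF, hLF, hLF1⟩ := Pool.Agent.H464.ST.nonv_field hW.ne hfI hAL hP hl₀ hl₀N h1 hl' hl2 hlA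
      n hsq hco hap M F hF'
    have hodd : Odd (Module.finrank ℚ K) := by
      rw [hj]
      exact (hl'.odd_of_ne_two hl2).pow
    exact pair_of W N c hW n hco M F K hFK hodd hLF hLF1 hLK hLK1

lemma per11 : ∃ Λ : PeriodPair, Λ.g₂ = (X11.c₄ : ℂ) / 12 ∧ Λ.g₃ = (X11.c₆ : ℂ) / 216 ∧
    ∀ γ ∈ Gamma0 11, ∀ z : ℍ, ((1 : ℤ) : ℂ) *
      (prim Pool.Agent.W97.TW.f11 ((γ • z : ℍ) : ℂ) - prim Pool.Agent.W97.TW.f11 (z : ℂ)) ∈
        Λ.lattice := by
  obtain ⟨Λ, h2, h3, hper⟩ := Pool.Agent.K4H53.BSX.lat11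
  refine ⟨Λ, h2, h3, ?_⟩
  intro γ hγ z
  obtain ⟨ω, hω, h⟩ := hper γ hγ
  have h1 : prim Pool.Agent.W97.TW.f11 ((γ • z : ℍ) : ℂ) =
    prim Pool.Agent.W97.TW.f11 (z : ℂ) + ω := h z
  rw [h1, Int.cast_one, one_mul, add_sub_cancel_left]
  exact hω

lemma modular11 : Modular X11 11 1 := by
  refine ⟨Pool.Agent.K4H53.BSX.Q11.disc_ne, by norm_num, by norm_num, Pool.Agent.W97.TW.f11,
    Pool.Agent.K4H53.BSX.Q11.newform11, ⟨1, Or.inl rfl, Pool.Agent.H464.SR.loc11.a_one, ?_⟩, per11⟩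
  intro Q Q' hQ hco hsf a' b c d hd τ τ' hτ
  exact (Pool.Agent.H464.SR.al11 Q Q' hQ hco hsf).2 a' b c d hd τ τ' hτ

lemma modular14 : Modular X14 14 1 := by
  refine ⟨?_, by norm_num, by norm_num, Pool.Agent.H464.ST.md14⟩
  have h1 : X14.Δ = -21952 := Pool.Agent.W97.MT.hmin.2.2.2.1
  rw [h1]
  norm_num

lemma sq11 (n p : ℕ) (hp : p.Prime) (_ : p ∣ n) : ¬ p ^ 2 ∣ 11 := by
  intro h
  have h2 : p ∣ 11 := (dvd_pow_self p two_ne_zero).trans h
  have h3 : p = 11 := (Nat.prime_dvd_prime_iff_eq hp (by norm_num)).1 h2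
  subst h3
  norm_num at h

/-- the quotient over `ℚ` -/
lemma quot_bot11 (n : ℕ) [NeZero n] (M : Type) [Field M] [NumberField M]
    [IsCyclotomicExtension {n} ℚ M] :
    0 < Omega (⊥ : IntermediateField ℚ M) X11 ∧
      HasQuotient (⊥ : IntermediateField ℚ M) X11 0 (1 / 5) := by
  have hΔ : X11.Δ ≠ 0 := modular11.ne
  obtain ⟨hΩ, -⟩ := exists_quot X11 11 1 modular11 n (sq11 n) M ⊥
  refine ⟨hΩ, ?_⟩
  have hNZ : NeZero 11 := ⟨by norm_num⟩
  obtain ⟨L, r, a, hL, ha⟩ := Pool.Agent.H464.SR.exists_lead hΔ Pool.Agent.K4H53.BSX.form11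
    Pool.Agent.H464.SR.al11 n (sq11 n) M ⊥
  have h1 : L 1 = ((realPeriod X11 / 5 : ℝ) : ℂ) := Pool.Agent.H464.SR.lead11 n M hL
  have hfin : Module.finrank ℚ (⊥ : IntermediateField ℚ M) = 1 := IntermediateField.finrank_bot
  have hreal : nrRealPlaces (⊥ : IntermediateField ℚ M) = 1 :=
    nrRealPlaces_eq_one_of_finrank_eq_one hfin
  have hcomp : nrComplexPlaces (⊥ : IntermediateField ℚ M) = 0 :=
    nrComplexPlaces_eq_zero_of_finrank_eq_one hfin
  have hΩ' : Omega (⊥ : IntermediateField ℚ M) X11 = realPeriod X11 := by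
    unfold Omega
    rw [hreal, hcomp, pow_one, pow_zero, mul_one]
  have hD : discr (⊥ : IntermediateField ℚ M) = 1 := by
    have e := IntermediateField.botEquiv ℚ M
    rw [discr_eq_discr_of_ringEquiv _ e.toRingEquiv]
    exact Rat.numberField_discr
  have hpos : 0 < realPeriod X11 := hΩ' ▸ hΩ
  have hposc : ((realPeriod X11 : ℝ) : ℂ) ≠ 0 := Complex.ofReal_ne_zero.2 hpos.ne'
  have hL1 : L 1 ≠ 0 := by
    rw [h1]
    exact Complex.ofReal_ne_zero.2 (by positivity)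
  refine ⟨L 1, ⟨L, isL.2 hL, hL1, ?_⟩, ?_⟩
  · have h2 : Tendsto L (𝓝[≠] 1) (𝓝 (L 1)) :=
      (hL.entire.continuous.tendsto 1).mono_left nhdsWithin_le_nhds
    refine h2.congr fun s => ?_
    rw [pow_zero, div_one]
  · rw [hD, hΩ', h1]
    push_cast
    rw [abs_one, Real.sqrt_one, Complex.ofReal_one, mul_one]
    field_simp

/-- the analytic order for the rank `0` -/
lemma sha_bot {V : WeierstrassCurve ℤ} (hΔ : V.Δ ≠ 0) {M : Type} [Field M] [NumberField M]
    {F : IntermediateField ℚ M}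
    (hΩ : 0 < Omega F V) {T : ℕ} (hT : 0 < T) {t : ℚ} (ht0 : t ≠ 0)
    (hq : HasQuotient F V 0 ((t : ℂ) ^ 2 * T))
    (hr : rank F V = 0) :
    ∃ s : ℚ, s ≠ 0 ∧ IsAnalyticSha F V T 0 ((s : ℂ) ^ 2) := by
  obtain ⟨q, hq', -, -, h3, g, hg⟩ := Pool.Agent.Y532.XF.t_ch F V hΔ
  have hem : IsEmpty (Fin (rank F V)) := by
    rw [hr]
    infer_instance
  have hreg : reg F V q g = 1 := by
    have hem' : IsEmpty (Fin (Pool.Agent.Y682.XF.rank F V)) := hem
    unfold reg
    exact Matrix.det_isEmpty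
  have ht : 0 < Nat.card (tors F V) :=
    Pool.Agent.H464.SR.tors_pos hΔ _
  have hTc : (T : ℂ) ≠ 0 := Nat.cast_ne_zero.2 hT.ne'
  refine ⟨t * Nat.card (tors F V), ?_,
    _, q, _, g, hq, hq', hg, ?_, hΩ, hT, ht, ?_⟩
  · have h4 : (Nat.card (tors F V) : ℚ) ≠ 0 :=
      Nat.cast_ne_zero.2 ht.ne'
    exact mul_ne_zero ht0 h4
  · rw [hreg]
    exact one_pos
  · rw [hreg]
    push_cast
    field_simp

/-- the quotient over an abelian field of odd degree is divisible by a power of `l` -/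
lemma growth {W : WeierstrassCurve ℤ} {N : ℕ} (hW : Modular W N 1) {l : ℕ} (hl0 : l ≠ 0)
    (hsh : Pool.Agent.H464.SW.Sh N l) (n : ℕ) [NeZero n] (hco : n.Coprime N) (M : Type) [Field M]
    [NumberField M] [IsCyclotomicExtension {n} ℚ M] (K : IntermediateField ℚ M)
    (hodd : Odd (Module.finrank ℚ K)) {x y : ℂ}
    (hx : HasQuotient (⊥ : IntermediateField ℚ M) W 0 x) (hy : HasQuotient K W 0 y)
    (R : ℚ) (h : y = (R : ℂ) * x) :
    ∃ i : ℤ, R = (l : ℚ) ^ (Module.finrank ℚ K - 1) * i := by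
  obtain ⟨f, hf, hAL, Λ, hg₂, hg₃, hman⟩ := hW.form
  have hN : NeZero N := ⟨hW.pos⟩
  have hfI := Pool.Agent.K4H53.BSX.D.isForm hf
  obtain ⟨w, hAL, hl⟩ := al_iff hAL
  obtain ⟨Op, Om, κ, hP⟩ :=
    Pool.Agent.H464.SQ.exists_PD hW.ne Λ hg₂ hg₃ hW.c_ne hman
  obtain ⟨a, ⟨LF, hLF, ha, hla⟩, hxa⟩ := hx
  obtain ⟨b, ⟨LK, hLK, hb, hlb⟩, hyb⟩ := hy
  rw [hxa, hyb] at h
  obtain ⟨i, hi⟩ := Pool.Agent.H464.SW.int_l hl0 hsh hW.ne
    hfI hAL hP n (cop_sq hco) hco M ⊥ K bot_le hodd LF LK (isL.1 hLF) (isL.1 hLK) 0 a b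
    ⟨ha, hla⟩ ⟨hb, hlb⟩ R h
  refine ⟨i, ?_⟩
  rw [IntermediateField.finrank_bot, Int.cast_one, one_pow, one_mul] at hi
  exact hi

/-- the squares over the fields of odd degree -/
lemma odd_core {W : WeierstrassCurve ℤ} {N : ℕ} (hW : Modular W N 1) {k : ℤ}
    (hk : Twistable N k) {T : ℕ} {t : ℚ}
    (hT : ∀ (n : ℕ) [NeZero n] (M : Type) [Field M] [NumberField M] [IsCyclotomicExtension {n} ℚ M],
      tamagawaAll (⊥ : IntermediateField ℚ M) N W k = T)
    {L : ℂ → ℂ} (hL : Pool.Agent.H757_X15.IsL (twist W k) L)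
    (ht : L 1 = ((((t ^ 2 * T : ℚ) : ℝ) * realPeriod (twist W k) : ℝ) : ℂ))
    (n : ℕ) [NeZero n] (hn : ∀ p : ℕ, p.Prime → p ∣ n → ¬ p ^ 2 ∣ level N k)
    (M : Type) [Field M] [NumberField M] [IsCyclotomicExtension {n} ℚ M] (K : IntermediateField ℚ M)
    (hodd : Odd (Module.finrank ℚ K)) (hr : rank K (twist W k) = 0) {x : ℂ}
    (hx : IsAnalyticSha K (twist W k) (tamagawaAll K N W k) 0 x) :
    ∃ (Q R : ℚ) (m : ℤ), Q ≠ 0 ∧ x = (Q : ℂ) ^ 2 ∧ 0 < tamagawaAll K N W k ∧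
      Q ^ 2 * (tamagawaAll K N W k : ℚ) =
        R * (t ^ 2 * T) * (Nat.card (tors K (twist W k)) : ℚ) ^ 2 ∧
      (2 : ℚ) ^ (Module.finrank ℚ K - Module.finrank ℚ (⊥ : IntermediateField ℚ M)) * R = m ∧
      ∀ l : ℕ, l ≠ 0 → Pool.Agent.H464.SW.Sh (level N k) l → n.Coprime (level N k) →
        ∃ i : ℤ, R = (l : ℚ) ^ (Module.finrank ℚ K - 1) * i := by
  have hV := modular_tw hW hk
  obtain ⟨f, hf, hAL, -⟩ := hV.form
  have hN : NeZero (level N k) := ⟨hV.pos⟩
  have hfI := Pool.Agent.K4H53.BSX.D.isForm hf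
  obtain ⟨w, hAL, hl⟩ := al_iff hAL
  obtain ⟨LK, hLK, hLK1⟩ : ∃ L : ℂ → ℂ, Pool.Agent.H464.SQ.IsL (twist W k) K L ∧ L 1 ≠ 0 := by
    obtain ⟨y, h, r, g, hq, -⟩ := hx
    exact val_of hq
  have h0 := Pool.Agent.H464.SV.bot_ne hV.ne hfI hAL n hn M K hLK hLK1
  have hv := Pool.Agent.H464.SV.val_prod hfI hAL hL
  obtain ⟨hΩ, m, z, hz, ⟨a, ⟨Lb, hLb, -⟩, -⟩⟩ := exists_quot _ _ 1 hV n hn M ⊥
  have hb := Pool.Agent.H464.ST.bot_val hV.ne hfI hAL n hn M (isL.1 hLb)
  have hb1 : Lb 1 = ((((t ^ 2 * T : ℚ) : ℝ) * realPeriod (twist W k) : ℝ) : ℂ) := by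
    rw [hb, ← hv, ht]
  have hbne : Lb 1 ≠ 0 := by rw [hb]; exact h0
  have hfin : Module.finrank ℚ (⊥ : IntermediateField ℚ M) = 1 := IntermediateField.finrank_bot
  have hΩ' : Omega (⊥ : IntermediateField ℚ M) (twist W k) = realPeriod (twist W k) := by
    unfold Omega
    rw [nrRealPlaces_eq_one_of_finrank_eq_one hfin, nrComplexPlaces_eq_zero_of_finrank_eq_one hfin,
      pow_one, pow_zero, mul_one]
  have hD : discr (⊥ : IntermediateField ℚ M) = 1 := by
    have e := IntermediateField.botEquiv ℚ M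
    rw [discr_eq_discr_of_ringEquiv _ e.toRingEquiv]
    exact Rat.numberField_discr
  have hpos : 0 < realPeriod (twist W k) := hΩ' ▸ hΩ
  have hposc : ((realPeriod (twist W k) : ℝ) : ℂ) ≠ 0 := Complex.ofReal_ne_zero.2 hpos.ne'
  have ht0 : t ≠ 0 := by
    rintro rfl
    apply hbne
    rw [hb1]
    simp
  have hq0 := quot_of (isL.1 hLb) hbne
  have e0 : Lb 1 * √|(discr (⊥ : IntermediateField ℚ M) : ℝ)| /
      Omega (⊥ : IntermediateField ℚ M) (twist W k) = (t : ℂ) ^ 2 * T := by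
    rw [hD, hΩ', hb1]
    push_cast
    rw [abs_one, Real.sqrt_one, Complex.ofReal_one, mul_one]
    field_simp
  rw [e0] at hq0
  have hr0 : rank (⊥ : IntermediateField ℚ M) (twist W k) = 0 :=
    Pool.Agent.H464.SR.rank_zero hV.ne (IntermediateField.inclusion (bot_le : ⊥ ≤ K)).toRingHom hr
  have hd : Module.finrank ℚ K = Module.finrank ℚ K * Module.finrank ℚ (⊥ : IntermediateField ℚ M) := by
    rw [IntermediateField.finrank_bot, mul_one]
  have hquad := fun Q hQ h => odd_noNew (⊥ : IntermediateField ℚ M) K hodd Q hQ h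
  obtain ⟨h2, hT0, hT1, -⟩ := leading_of _ _ 1 hV n hn M ⊥ K bot_le hquad _ hd
  obtain ⟨hA, hB, s, hs, hAB⟩ := all_ratio hW hk n hn M ⊥ K bot_le hquad hT0 hT1
  have hTpos : 0 < T := by
    rw [← hT n M]
    exact hA
  obtain ⟨u, hu, h1⟩ := sha_bot hV.ne hΩ hTpos ht0 hq0 hr0
  rw [← hT n M] at h1
  obtain ⟨q, hq, h3⟩ := sha_gen hV.ne bot_le hd h2 hT0 hT1 hs hAB 0 _ _ h1 hx (by rw [hr, hr0])
  -- the square
  obtain ⟨Q, hQdef⟩ : ∃ Q : ℚ, Q = q * u := ⟨_, rfl⟩
  have hQ0 : Q ≠ 0 := by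
    rw [hQdef]
    exact mul_ne_zero hq hu
  have hxQ : x = (Q : ℂ) ^ 2 := by
    rw [h3, hr0, hQdef]
    push_cast
    simp only [zpow_zero]
    ring
  -- the denominator
  obtain ⟨y, hh, ρ, g, hqK, hht, hg, hreg, hΩK, hTK', htK, hxe⟩ := hx
  have hρ : ρ = 0 := (basis_rank hV.ne hg).trans hr
  subst hρ
  have hreg1 : reg K (twist W k) hh g = 1 := by
    unfold reg
    exact Matrix.det_isEmpty
  obtain ⟨q1, hq1, hy1, m', hm⟩ := h2 0 _ y hq0 hqK
  obtain ⟨R, hR⟩ : ∃ R : ℚ, R = (Module.finrank ℚ K : ℚ) ^ 0 *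
    ((tamagawaProduct K (level N k) (twist W k) : ℚ) /
    tamagawaProduct (⊥ : IntermediateField ℚ M) (level N k) (twist W k)) * q1 ^ 2 := ⟨_, rfl⟩
  rw [← hR] at hy1 hm
  have hTKc : (tamagawaAll K N W k : ℂ) ≠ 0 := Nat.cast_ne_zero.2 hTK'.ne'
  have hkey : Q ^ 2 * (tamagawaAll K N W k : ℚ) =
      R * (t ^ 2 * T) * (Nat.card (tors K (twist W k)) : ℚ) ^ 2 := by
    have h5 : (Q : ℂ) ^ 2 * (tamagawaAll K N W k : ℂ) =
        (R : ℂ) * ((t : ℂ) ^ 2 * (T : ℂ)) * (Nat.card (tors K (twist W k)) : ℂ) ^ 2 := by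
      rw [← hxQ, hxe, hreg1, hy1]
      push_cast
      field_simp
    exact_mod_cast h5
  refine ⟨Q, R, m', hQ0, hxQ, hTK', hkey, ?_, fun l hl0 hsh hco =>
    growth hV hl0 hsh n hco M K hodd hq0 hqK R hy1⟩
  rw [← hm]
  norm_num

/-- the squares and the denominators -/
lemma odd_first {W : WeierstrassCurve ℤ} {N : ℕ} (hW : Modular W N 1) {k : ℤ}
    (hk : Twistable N k) {T B : ℕ} (hB0 : B ≠ 0) (hB2 : 2 ∣ B)
    (hT : ∀ (n : ℕ) [NeZero n] (M : Type) [Field M] [NumberField M] [IsCyclotomicExtension {n} ℚ M],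
      tamagawaAll (⊥ : IntermediateField ℚ M) N W k = T)
    (hTK : ∀ (n : ℕ) [NeZero n] (M : Type) [Field M] [NumberField M] [IsCyclotomicExtension {n} ℚ M]
      (K : IntermediateField ℚ M), ∃ t : ℕ, tamagawaAll K N W k ∣ (B * Module.finrank ℚ K) ^ t)
    (hval : ∃ L : ℂ → ℂ, Pool.Agent.H757_X15.IsL (twist W k) L ∧ ∃ t : ℚ,
      (∃ (j : ℕ) (z : ℤ), t ^ 2 * T * B ^ j = z) ∧
      L 1 = ((((t ^ 2 * T : ℚ) : ℝ) * realPeriod (twist W k) : ℝ) : ℂ))
    (n : ℕ) [NeZero n] (hn : ∀ p : ℕ, p.Prime → p ∣ n → ¬ p ^ 2 ∣ level N k)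
    (M : Type) [Field M] [NumberField M] [IsCyclotomicExtension {n} ℚ M] (K : IntermediateField ℚ M)
    (hodd : Odd (Module.finrank ℚ K)) (hr : rank K (twist W k) = 0) {x : ℂ}
    (hx : IsAnalyticSha K (twist W k) (tamagawaAll K N W k) 0 x) :
    ∃ a e : ℕ, a ≠ 0 ∧ x = ((a : ℂ) / ((B * Module.finrank ℚ K : ℕ) : ℂ) ^ e) ^ 2 := by
  obtain ⟨L, hL, t, ⟨j, z₀, hz₀⟩, ht⟩ := hval
  obtain ⟨Q, R, m', hQ0, hxQ, hTK', hkey, hm', -⟩ := odd_core hW hk hT hL ht n hn M K hodd hr hx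
  have hK0 : Module.finrank ℚ K ≠ 0 := (Module.finrank_pos : 0 < Module.finrank ℚ K).ne'
  obtain ⟨t₁, ht₁⟩ := hTK n M K
  have hdvd : tamagawaAll K N W k * 2 ^ (Module.finrank ℚ K - Module.finrank ℚ (⊥ : IntermediateField ℚ M)) *
      B ^ j ∣ (B * Module.finrank ℚ K) ^
        (t₁ + (Module.finrank ℚ K - Module.finrank ℚ (⊥ : IntermediateField ℚ M)) + j) := by
    rw [pow_add, pow_add]
    exact mul_dvd_mul (mul_dvd_mul ht₁ (pow_dvd_pow_of_dvd (hB2.mul_right _) _))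
      (pow_dvd_pow_of_dvd (dvd_mul_right _ _) _)
  obtain ⟨a', e', ha', he'⟩ := Pool.Agent.H464.SV.den_sq' hQ0 (mul_ne_zero hB0 hK0) hdvd
    (z := m' * z₀ * (Nat.card (tors K (twist W k)) : ℤ) ^ 2) (by
      push_cast
      rw [← mul_assoc, ← mul_assoc, hkey, ← hm', ← hz₀]
      ring)
  refine ⟨a', e', ha', ?_⟩
  have h6 := congrArg (fun x : ℚ => (x : ℂ)) he'
  push_cast at h6
  rw [hxQ]
  push_cast
  exact h6

lemma odd_squares {W : WeierstrassCurve ℤ} {N : ℕ} (hW : Modular W N 1) {k : ℤ}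
    (hk : Twistable N k) {T B P : ℕ} (hB0 : B ≠ 0) (hB2 : 2 ∣ B)
    (hT : ∀ (n : ℕ) [NeZero n] (M : Type) [Field M] [NumberField M] [IsCyclotomicExtension {n} ℚ M],
      tamagawaAll (⊥ : IntermediateField ℚ M) N W k = T)
    (hTK : ∀ (n : ℕ) [NeZero n] (M : Type) [Field M] [NumberField M] [IsCyclotomicExtension {n} ℚ M]
      (K : IntermediateField ℚ M), ∃ t : ℕ, tamagawaAll K N W k ∣ (B * Module.finrank ℚ K) ^ t)
    (hval : ∃ L : ℂ → ℂ, Pool.Agent.H757_X15.IsL (twist W k) L ∧ ∃ t : ℚ,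
      (∃ (j : ℕ) (z : ℤ), t ^ 2 * T * B ^ j = z) ∧
      L 1 = ((((t ^ 2 * T : ℚ) : ℝ) * realPeriod (twist W k) : ℝ) : ℂ) ∧
      ∀ (n : ℕ) [NeZero n] (M : Type) [Field M] [NumberField M] [IsCyclotomicExtension {n} ℚ M]
        (K : IntermediateField ℚ M), Odd (Module.finrank ℚ K) →
        (∃! v : HeightOneSpectrum (𝓞 K), (P : 𝓞 K) ∈ v.asIdeal) →
        ∃ (S u i : ℕ) (w : ℤ), S ∣ (2 * Module.finrank ℚ K) ^ u ∧
          t ^ 2 * T * (Nat.card (tors K (twist W k)) : ℚ) ^ 2 * S * 2 ^ i =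
            w * (tamagawaAll K N W k : ℚ)) :
    OddSquares W N k B P := by
  intro n _ hn M _ _ _ K hodd hr x hx
  obtain ⟨L, hL, t, ⟨j, z₀, hz₀⟩, ht, hone⟩ := hval
  obtain ⟨Q, R, m', hQ0, hxQ, hTK', hkey, hm', -⟩ := odd_core hW hk hT hL ht n hn M K hodd hr hx
  have hK0 : Module.finrank ℚ K ≠ 0 := (Module.finrank_pos : 0 < Module.finrank ℚ K).ne'
  refine ⟨odd_first hW hk hB0 hB2 hT hTK ⟨L, hL, t, ⟨j, z₀, hz₀⟩, ht⟩ n hn M K hodd hr hx, ?_⟩
  · intro hP
    obtain ⟨S, u, i, w, hS, hw⟩ := hone n M K hodd hP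
    have hT0 : (tamagawaAll K N W k : ℚ) ≠ 0 := Nat.cast_ne_zero.2 hTK'.ne'
    have hdvd : S * 2 ^ (i + (Module.finrank ℚ K - Module.finrank ℚ (⊥ : IntermediateField ℚ M))) ∣
        (2 * Module.finrank ℚ K) ^
          (u + (i + (Module.finrank ℚ K - Module.finrank ℚ (⊥ : IntermediateField ℚ M)))) := by
      rw [pow_add _ u]
      exact mul_dvd_mul hS (pow_dvd_pow_of_dvd (dvd_mul_right _ _) _)
    have hk2 : Q ^ 2 * ((S * 2 ^ (i + (Module.finrank ℚ K -
        Module.finrank ℚ (⊥ : IntermediateField ℚ M))) : ℕ) : ℚ) = ((m' * w : ℤ) : ℚ) := by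
      have h7 : Q ^ 2 * (tamagawaAll K N W k : ℚ) * (S * 2 ^ i) * (2 : ℚ) ^ (Module.finrank ℚ K -
          Module.finrank ℚ (⊥ : IntermediateField ℚ M)) = m' * (w * (tamagawaAll K N W k : ℚ)) := by
        rw [hkey, ← hm', ← hw]
        ring
      apply mul_right_cancel₀ hT0
      push_cast
      rw [pow_add]
      linear_combination h7
    obtain ⟨a', e', ha', he'⟩ := Pool.Agent.H464.SV.den_sq' hQ0 (mul_ne_zero two_ne_zero hK0) hdvd hk2
    refine ⟨a', e', ha', ?_⟩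
    have h6 := congrArg (fun x : ℚ => (x : ℂ)) he'
    push_cast at h6
    rw [hxQ]
    push_cast
    exact h6

lemma twist_zero (W : WeierstrassCurve ℤ) : twist W 0 = W := by
  unfold twist
  ext <;> simp

lemma level_zero (N : ℕ) : level N 0 = N := by
  unfold level
  norm_num

lemma all_zero (K : Type) [Field K] [NumberField K] (N : ℕ) (W : WeierstrassCurve ℤ) :
    tamagawaAll K N W 0 = tamagawaProduct K N W := by
  unfold tamagawaAll
  rw [level_zero, twist_zero]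
  have h : {v : HeightOneSpectrum (𝓞 K) | prm v ∣ (4 * (0 : ℤ) + 1).natAbs} = ∅ := by
    ext v
    simp only [Set.mem_ofPred_eq, Set.mem_empty_iff_false, iff_false]
    intro h1
    have h2 : prm v = 1 := by
      have h3 : prm v ∣ 1 := by simpa using h1
      exact Nat.dvd_one.1 h3
    have h4 : Ideal.absNorm v.asIdeal = 1 := Nat.minFac_eq_one_iff.1 h2
    exact v.isPrime.ne_top (Ideal.absNorm_eq_one_iff.1 h4)
  rw [h, finprod_mem_empty, mul_one]

/-- a divisor of the order of the torsion -/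
lemma dvd_card {W : WeierstrassCurve ℤ} {K : Type} [Field K] [NumberField K] {m : ℕ} (hm : 0 < m)
    (h : ∃ P : (base W K).toAffine.Point, addOrderOf P = m) : m ∣ Nat.card (tors K W) := by
  obtain ⟨P, hP⟩ := h
  exact Pool.Agent.H464.SV.dvd_tors hm hP

lemma five_tors (K : Type) [Field K] [NumberField K] : 5 ∣ Nat.card (tors K X11) :=
  dvd_card (by norm_num : 0 < 5) Pool.Agent.H464.SV.pt5

lemma six_tors (K : Type) [Field K] [NumberField K] : 6 ∣ Nat.card (tors K X14) :=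
  Nat.Coprime.mul_dvd_of_dvd_of_dvd (by norm_num : Nat.Coprime 2 3)
    (dvd_card (by norm_num : 0 < 2) Pool.Agent.H464.SV.pt2)
    (dvd_card (by norm_num : 0 < 3) Pool.Agent.H464.SV.pt3)

lemma odd11 : OddSquares X11 11 0 10 11 := by
  have hk : Twistable 11 0 := ⟨by norm_num, by norm_num⟩
  refine odd_squares modular11 hk (T := 5) (B := 10) (by norm_num) (by norm_num) ?_ ?_ ?_
  · intro n _ M _ _ _
    rw [all_zero, tamProd_eq]
    exact Pool.Agent.H464.SR.Tm11 n M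
  · intro n _ M _ _ _ K
    rw [all_zero, tamProd_eq]
    exact Pool.Agent.H464.SV.Tm11_dvd n M K
  · have hNZ : NeZero 11 := ⟨by norm_num⟩
    obtain ⟨L, hL, h1⟩ := Pool.Agent.H464.SV.exists_prod Pool.Agent.K4H53.BSX.form11
      Pool.Agent.H464.SR.al11
    rw [twist_zero]
    refine ⟨L, hL, 1 / 5, ⟨1, 2, by norm_num⟩, ?_, ?_⟩
    · rw [h1, ← Pool.Agent.H464.ST.bw_bv (by norm_num : ((0 : ℚ).den).Coprime 11),
        Pool.Agent.H464.SR.bw11]
      congr 1
      push_cast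
      show realPeriod X11 / 5 = _
      ring
    · intro n _ M _ _ _ K hodd hP
      obtain ⟨c, hc⟩ := five_tors K
      obtain ⟨e, he, hT⟩ := Pool.Agent.H464.SV.Tm11_one n M K hP
      refine ⟨e, 1, 0, (c : ℤ) ^ 2, ?_, ?_⟩
      · rw [pow_one]
        exact he.mul_left _
      · rw [all_zero, tamProd_eq, hc]
        have hT' : Pool.Agent.H464.SR.Tm 11 X11 K = 5 * e := hT
        rw [hT']
        push_cast
        ring

lemma odd14 : OddSquares X14 14 0 6 7 := by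
  have hk : Twistable 14 0 := ⟨by norm_num, by norm_num⟩
  refine odd_squares modular14 hk (T := 6) (B := 6) (by norm_num) (by norm_num) ?_ ?_ ?_
  · intro n _ M _ _ _
    rw [all_zero, tamProd_eq]
    exact Pool.Agent.H464.ST.Tm14 n M
  · intro n _ M _ _ _ K
    rw [all_zero, tamProd_eq]
    exact Pool.Agent.H464.SV.Tm14_dvd n M K
  · have hNZ : NeZero 14 := ⟨by norm_num⟩
    have hfI := Pool.Agent.K4H53.BSX.D.isForm Pool.Agent.H464.ST.newform14
    obtain ⟨w, hAL, -⟩ := al_iff (W := X14) Pool.Agent.H464.ST.alw14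
    obtain ⟨L, hL, h1⟩ := Pool.Agent.H464.SV.exists_prod hfI hAL
    rw [twist_zero]
    refine ⟨L, hL, 1 / 6, ⟨1, 1, by norm_num⟩, ?_, ?_⟩
    · rw [h1, ← Pool.Agent.H464.ST.bw_bv (by norm_num : ((0 : ℚ).den).Coprime 14),
        Pool.Agent.H464.ST.bw14]
      congr 1
      push_cast
      show realPeriod X14 / 6 = _
      ring
    · intro n _ M _ _ _ K hodd hP
      obtain ⟨c, hc⟩ := six_tors K
      obtain ⟨e, g, he, hT⟩ := Pool.Agent.H464.SV.Tm14_one n M K hodd hP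
      refine ⟨e, 1, g, 2 * (c : ℤ) ^ 2, ?_, ?_⟩
      · rw [pow_one]
        exact he.mul_left _
      · rw [all_zero, tamProd_eq, hc]
        have hT' : Pool.Agent.H464.SR.Tm 14 X14 K = 2 ^ g * (3 * e) := hT
        rw [hT']
        push_cast
        ring

lemma odd_growth {W : WeierstrassCurve ℤ} {N : ℕ} (hW : Modular W N 1) (hk : Twistable N 0)
    {T l P : ℕ} (hl0 : l ≠ 0) (hsh : Pool.Agent.H464.SW.Sh N l)
    (hT : ∀ (n : ℕ) [NeZero n] (M : Type) [Field M] [NumberField M] [IsCyclotomicExtension {n} ℚ M],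
      tamagawaAll (⊥ : IntermediateField ℚ M) N W 0 = T)
    (hval : ∃ L : ℂ → ℂ, Pool.Agent.H757_X15.IsL (twist W 0) L ∧ ∃ t : ℚ,
      L 1 = ((((t ^ 2 * T : ℚ) : ℝ) * realPeriod (twist W 0) : ℝ) : ℂ) ∧
      ∀ (n : ℕ) [NeZero n], n.Coprime N → ∀ (M : Type) [Field M] [NumberField M]
        [IsCyclotomicExtension {n} ℚ M] (K : IntermediateField ℚ M), Odd (Module.finrank ℚ K) →
        ∃ (h : ℕ) (w : ℤ), (Odd N → h = 0) ∧ (Even N → 2 * h + 1 = primesAbove K 2) ∧
          t ^ 2 * T * (Nat.card (tors K (twist W 0)) : ℚ) ^ 2 * (l : ℚ) ^ primesAbove K P *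
            (2 ^ h) ^ 2 = l * w * (tamagawaAll K N W 0 : ℚ) ∧
          primesAbove K P ∣ Module.finrank ℚ K) :
    Integrality W N l P := by
  intro n _ hco M _ _ _ K hodd hr x hx
  obtain ⟨L, hL, t, ht, hone⟩ := hval
  have hr' : rank K (twist W 0) = 0 := by
    rw [twist_zero]
    exact hr
  have hx' : IsAnalyticSha K (twist W 0) (tamagawaAll K N W 0) 0 x := by
    rw [twist_zero, all_zero]
    exact hx
  obtain ⟨Q, R, m', hQ0, hxQ, hTK', hkey, -, hgr⟩ := odd_core hW hk hT hL ht n (by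
    rw [level_zero]
    exact cop_sq hco) M K hodd hr' hx'
  obtain ⟨i, hi⟩ := hgr l hl0 (by rw [level_zero]; exact hsh) (by rw [level_zero]; exact hco)
  obtain ⟨h, w, hh1, hh2, hw, hdv⟩ := hone n hco M K hodd
  have hd : Module.finrank ℚ K - 1 + 1 = Module.finrank ℚ K := Nat.sub_add_cancel hodd.pos
  have hT0 : (tamagawaAll K N W 0 : ℚ) ≠ 0 := Nat.cast_ne_zero.2 hTK'.ne'
  have h1 : Q ^ 2 * (l : ℚ) ^ primesAbove K P * (2 ^ h) ^ 2 =
      (l : ℚ) ^ Module.finrank ℚ K * ((i * w : ℤ) : ℚ) := by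
    apply mul_right_cancel₀ hT0
    have e1 : (l : ℚ) ^ Module.finrank ℚ K = (l : ℚ) ^ (Module.finrank ℚ K - 1) * l := by
      rw [← pow_succ, hd]
    rw [e1]
    push_cast
    calc Q ^ 2 * (l : ℚ) ^ primesAbove K P * (2 ^ h) ^ 2 * (tamagawaAll K N W 0 : ℚ)
        = (Q ^ 2 * (tamagawaAll K N W 0 : ℚ)) * ((l : ℚ) ^ primesAbove K P * (2 ^ h) ^ 2) := by ring
      _ = R * (t ^ 2 * T * (Nat.card (tors K (twist W 0)) : ℚ) ^ 2 * (l : ℚ) ^ primesAbove K P *
            (2 ^ h) ^ 2) := by rw [hkey]; ring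
      _ = (l : ℚ) ^ (Module.finrank ℚ K - 1) * i * (l * w * (tamagawaAll K N W 0 : ℚ)) := by
          rw [hw, hi]
      _ = (l : ℚ) ^ (Module.finrank ℚ K - 1) * l * (i * w) * (tamagawaAll K N W 0 : ℚ) := by ring
  obtain ⟨a, ha, he⟩ := Pool.Agent.H464.SW.fin_l hQ0 hl0 hodd hdv h1
  refine ⟨a, h, ha, hh1, hh2, ?_⟩
  rw [hxQ]
  have h6 := congrArg (fun x : ℚ => (x : ℂ)) he
  push_cast at h6 ⊢
  exact h6

lemma int11 : Integrality X11 11 5 11 := by
  have hk : Twistable 11 0 := ⟨by norm_num, by norm_num⟩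
  refine odd_growth modular11 hk (T := 5) (by norm_num) Pool.Agent.H464.SW.sh11 ?_ ?_
  · intro n _ M _ _ _
    rw [all_zero, tamProd_eq]
    exact Pool.Agent.H464.SR.Tm11 n M
  · have hNZ : NeZero 11 := ⟨by norm_num⟩
    obtain ⟨L, hL, h1⟩ := Pool.Agent.H464.SV.exists_prod Pool.Agent.K4H53.BSX.form11
      Pool.Agent.H464.SR.al11
    rw [twist_zero]
    refine ⟨L, hL, 1 / 5, ?_, ?_⟩
    · rw [h1, ← Pool.Agent.H464.ST.bw_bv (by norm_num : ((0 : ℚ).den).Coprime 11),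
        Pool.Agent.H464.SR.bw11]
      congr 1
      push_cast
      show realPeriod X11 / 5 = _
      ring
    · intro n _ hco M _ _ _ K hodd
      obtain ⟨c, hc⟩ := five_tors K
      have hg : primesAbove K 11 = Pool.Agent.H464.SR.gN 11 (H300.HW.YY n M K) :=
        Pool.Agent.H464.SW.card_above n M K (by norm_num)
      have hTm : Pool.Agent.H464.SR.Tm 11 X11 K = 5 ^ Pool.Agent.H464.SR.gN 11 (H300.HW.YY n M K) :=
        Pool.Agent.H464.SW.Tm11_unr n M K hco
      refine ⟨0, (c : ℤ) ^ 2, fun _ => rfl, fun h => absurd h (by decide), ?_, ?_⟩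
      · rw [all_zero, tamProd_eq, hTm, hc, hg]
        push_cast
        ring
      · rw [hg]
        exact Pool.Agent.H464.SW.gN_dvd n M K 11

lemma int14 : Integrality X14 14 3 7 := by
  have hk : Twistable 14 0 := ⟨by norm_num, by norm_num⟩
  refine odd_growth modular14 hk (T := 6) (by norm_num) Pool.Agent.H464.SW.sh14 ?_ ?_
  · intro n _ M _ _ _
    rw [all_zero, tamProd_eq]
    exact Pool.Agent.H464.ST.Tm14 n M
  · have hNZ : NeZero 14 := ⟨by norm_num⟩
    have hfI := Pool.Agent.K4H53.BSX.D.isForm Pool.Agent.H464.ST.newform14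
    obtain ⟨w, hAL, -⟩ := al_iff (W := X14) Pool.Agent.H464.ST.alw14
    obtain ⟨L, hL, h1⟩ := Pool.Agent.H464.SV.exists_prod hfI hAL
    rw [twist_zero]
    refine ⟨L, hL, 1 / 6, ?_, ?_⟩
    · rw [h1, ← Pool.Agent.H464.ST.bw_bv (by norm_num : ((0 : ℚ).den).Coprime 14),
        Pool.Agent.H464.ST.bw14]
      congr 1
      push_cast
      show realPeriod X14 / 6 = _
      ring
    · intro n _ hco M _ _ _ K hodd
      obtain ⟨c, hc⟩ := six_tors K
      have hg : primesAbove K 7 = Pool.Agent.H464.SR.gN 7 (H300.HW.YY n M K) :=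
        Pool.Agent.H464.SW.card_above n M K (by norm_num)
      have hg2 : primesAbove K 2 = Pool.Agent.H464.SR.gN 2 (H300.HW.YY n M K) :=
        Pool.Agent.H464.SW.card_above n M K (by norm_num)
      have hTm : Pool.Agent.H464.SR.Tm 14 X14 K = 2 ^ Pool.Agent.H464.SR.gN 2 (H300.HW.YY n M K) *
          3 ^ Pool.Agent.H464.SR.gN 7 (H300.HW.YY n M K) :=
        Pool.Agent.H464.SW.Tm14_unr n M K hco hodd
      obtain ⟨h, hh⟩ := hodd.of_dvd_nat (Pool.Agent.H464.SW.gN_dvd n M K 2)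
      refine ⟨h, (c : ℤ) ^ 2, fun h => absurd h (by decide), fun _ => by rw [hg2, hh], ?_, ?_⟩
      · rw [all_zero, tamProd_eq, hTm, hc, hg, hh]
        push_cast
        ring
      · rw [hg]
        exact Pool.Agent.H464.SW.gN_dvd n M K 7

lemma modular15 : Modular X15 15 1 := by
  refine ⟨?_, by norm_num, by norm_num, Pool.Agent.H464.SV.md15⟩
  have h1 : X15.Δ = 50625 := Pool.Agent.H464.SV.e15_disc
  rw [h1]
  norm_num

lemma odd15 (k : ℤ) (hsf : Squarefree (4 * k + 1)) (hc : Class15 (4 * k + 1)) :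
    OddSquares X15 15 k 2 5 := by
  have hco : (15 : ℕ).Coprime (4 * k + 1).natAbs := by
    have h3 : Nat.Coprime 3 (4 * k + 1).natAbs := by
      rw [Nat.Prime.coprime_iff_not_dvd Nat.prime_three]
      rcases hc with ⟨h1, h⟩ | ⟨h1, h⟩ <;> omega
    have h5 : Nat.Coprime 5 (4 * k + 1).natAbs := by
      rw [Nat.Prime.coprime_iff_not_dvd Nat.prime_five]
      rcases hc with ⟨h1, h⟩ | ⟨h1, h⟩ <;> omega
    exact Nat.Coprime.mul_left h3 h5
  have h30 : (4 * k + 1).natAbs.Coprime 30 := by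
    have h2 : Nat.Coprime 2 (4 * k + 1).natAbs := by
      rw [Nat.Prime.coprime_iff_not_dvd Nat.prime_two]
      omega
    exact (Nat.Coprime.mul_left h2 hco).symm
  intro n₀ _ hn₀ M₀ _ _ _ K₀ hodd₀ hr₀ x₀ hx₀
  refine (fun h => ⟨h, fun _ => h⟩ : ∀ {A B : Prop}, A → A ∧ (B → A)) ?_
  refine odd_first modular15 ⟨hsf, hco⟩ (T := Pool.Agent.H464.SV.T15 (4 * k + 1)) (B := 2)
    (by norm_num) (by norm_num) ?_ ?_ ?_ n₀ hn₀ M₀ K₀ hodd₀ hr₀ hx₀
  · intro n _ M _ _ _
    have h1 : tamagawaAll (⊥ : IntermediateField ℚ M) 15 X15 k =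
        tamagawaProduct (⊥ : IntermediateField ℚ M) (level 15 k) (twist X15 k) *
          Pool.Agent.H464.ST.St (4 * k + 1) X15 (⊥ : IntermediateField ℚ M) := rfl
    have h2 : Pool.Agent.H464.ST.St (4 * k + 1) X15 (⊥ : IntermediateField ℚ M) =
        4 ^ (4 * k + 1).natAbs.primeFactors.card :=
      Pool.Agent.H464.SV.St15 n M (4 * k + 1) (by omega) h30
    have h3 := Pool.Agent.H464.SV.Tm15 n M k hsf hco
    rw [h1, h2, tamProd_eq]
    unfold Pool.Agent.H464.SV.T15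
    rw [← h3]
    rfl
  · intro n _ M _ _ _ K
    have h5 : tamagawaAll K 15 X15 k = tamagawaProduct K (level 15 k) (twist X15 k) *
        Pool.Agent.H464.ST.St (4 * k + 1) X15 K := rfl
    rw [h5, tamProd_eq]
    exact Pool.Agent.H464.SV.T_dvd hsf hco n M K (dvd_mul_right _ _)
      ((Pool.Agent.H464.SV.eN_dvd n M K 3).mul_left 2) ((Pool.Agent.H464.SV.eN_dvd n M K 5).mul_left 2)
  · obtain ⟨L, hL, t, ⟨z, hz⟩, h1⟩ := Pool.Agent.H464.SV.lv15 k hsf hc
    refine ⟨L, hL, t, ⟨3, z, ?_⟩, h1⟩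
    rw [← hz]
    push_cast
    norm_num

lemma real15 (k : ℤ) (hsf : Squarefree (4 * k + 1)) (hc : Class15 (4 * k + 1)) (hneg : 4 * k + 1 < 0) :
    RealSquares k := by
  intro n _ hn M _ _ _ K hreal hquad30 hr x hx
  have hng : Pool.Agent.H464.SV.Ng (4 * k + 1) := by
    rcases hc with h | ⟨h, -⟩
    · exact h
    · omega
  have hco : (15 : ℕ).Coprime (4 * k + 1).natAbs := by
    have h3 : Nat.Coprime 3 (4 * k + 1).natAbs := by
      rw [Nat.Prime.coprime_iff_not_dvd Nat.prime_three]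
      obtain ⟨-, h⟩ := hng
      omega
    have h5 : Nat.Coprime 5 (4 * k + 1).natAbs := by
      rw [Nat.Prime.coprime_iff_not_dvd Nat.prime_five]
      obtain ⟨-, h⟩ := hng
      omega
    exact Nat.Coprime.mul_left h3 h5
  have hk : Twistable 15 k := ⟨hsf, hco⟩
  have hV := modular_tw modular15 hk
  obtain ⟨f, hf, hAL, -⟩ := hV.form
  have hN : NeZero (level 15 k) := ⟨hV.pos⟩
  have hN' : NeZero (15 * (4 * k + 1).natAbs ^ 2) := ⟨hV.pos⟩
  have hfI := Pool.Agent.K4H53.BSX.D.isForm hf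
  obtain ⟨w, hAL, hl⟩ := al_iff hAL
  obtain ⟨LK, hLK, hLK1⟩ : ∃ L : ℂ → ℂ, Pool.Agent.H464.SQ.IsL (twist X15 k) K L ∧ L 1 ≠ 0 := by
    obtain ⟨y, h, r, g, hq, -⟩ := hx
    exact val_of hq
  obtain ⟨F, hFK, hsq, hquad⟩ := Pool.Agent.H464.SV.exists_mq n M K
  have hcop : n.Coprime (4 * k + 1).natAbs := by
    refine Nat.coprime_of_dvd fun p hp h1 h2 => hn p hp h1 ?_
    exact (pow_dvd_pow_of_dvd h2 2).mul_left 15
  have h2 : ∀ χ ∈ H300.HW.YY n M F, χ ^ 2 = 1 ∧ Odd χ.conductor ∧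
      χ.conductor.Coprime (15 * (4 * k + 1).natAbs ^ 2) := by
    intro χ hχ
    have h3 := hsq χ hχ
    have h4 := Pool.Agent.H464.SV.cond_quad n M K hquad30
      (Pool.Agent.H464.SQ.YY_mono n M hFK hχ) h3
    have h5 : χ.conductor.Coprime (4 * k + 1).natAbs := hcop.coprime_dvd_left χ.conductor_dvd_level
    refine ⟨h3, ?_, ?_⟩
    · have h6 : χ.conductor.Coprime 2 := h4.coprime_dvd_right (by norm_num)
      exact (Nat.coprime_two_right).1 h6
    · exact Nat.Coprime.mul_right (h4.coprime_dvd_right (by norm_num)) (h5.pow_right 2)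
  obtain ⟨LF, hLF, hc0, hre, yF, hyF, hv⟩ := Pool.Agent.H464.SV.mq_value hsf hng hfI hAL hn M hFK h2
    hreal hLK hLK1
  obtain ⟨r, hrdef⟩ : ∃ r : ℚ, r = yF / 2 ^ Module.finrank ℚ F := ⟨_, rfl⟩
  have hrr : (r : ℝ) = (yF : ℝ) / 2 ^ Module.finrank ℚ F := by
    rw [hrdef]
    push_cast
    rfl
  have hr0 : r ≠ 0 := by
    rw [hrdef]
    exact div_ne_zero (Int.cast_ne_zero.2 hyF) (pow_ne_zero _ two_ne_zero)
  obtain ⟨s, hs, hT⟩ := Pool.Agent.H464.SV.T_sq hsf hng hco n M F h2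
  have hTF : tamagawaAll F 15 X15 k = s ^ 2 := by
    have h3 : tamagawaAll F 15 X15 k = tamagawaProduct F (level 15 k) (twist X15 k) *
        Pool.Agent.H464.ST.St (4 * k + 1) X15 F := rfl
    rw [h3, tamProd_eq]
    exact hT
  obtain ⟨hΩ, -⟩ := exists_quot _ _ 1 hV n hn M F
  have hΩ' : Omega F (twist X15 k) = realPeriod (twist X15 k) ^ Module.finrank ℚ F := by
    unfold Omega
    rw [hc0, hre, pow_zero, mul_one]
  have hposc : ((realPeriod (twist X15 k) ^ Module.finrank ℚ F : ℝ) : ℂ) ≠ 0 := by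
    rw [← hΩ']
    exact Complex.ofReal_ne_zero.2 hΩ.ne'
  have hv' : LF 1 * √|(discr F : ℝ)| =
      (((r : ℝ) ^ 2 * realPeriod (twist X15 k) ^ Module.finrank ℚ F : ℝ) : ℂ) := by
    rw [hrr]
    exact hv
  have hrc : (r : ℂ) ≠ 0 := by exact_mod_cast hr0
  have hsc : (s : ℂ) ≠ 0 := by exact_mod_cast hs
  have hLF1 : LF 1 ≠ 0 := by
    intro h0
    rw [h0, zero_mul, Complex.ofReal_mul] at hv'
    have h3 : (((r : ℝ) ^ 2 : ℝ) : ℂ) ≠ 0 := by
      push_cast
      exact pow_ne_zero 2 hrc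
    exact mul_ne_zero h3 hposc hv'.symm
  have hLF' : Pool.Agent.H464.SQ.IsL (twist X15 k) F LF := hLF
  have hq0 := quot_of hLF' hLF1
  have e0 : LF 1 * √|(discr F : ℝ)| / Omega F (twist X15 k) =
      ((r / s : ℚ) : ℂ) ^ 2 * ((s ^ 2 : ℕ) : ℂ) := by
    rw [hv', hΩ', Complex.ofReal_mul, mul_div_assoc, div_self hposc]
    push_cast
    field_simp
  rw [e0] at hq0
  have hrF : rank F (twist X15 k) = 0 :=
    Pool.Agent.H464.SR.rank_zero hV.ne (IntermediateField.inclusion hFK).toRingHom hr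
  obtain ⟨d, hd⟩ : ∃ d : ℕ, Module.finrank ℚ K = d * Module.finrank ℚ F := by
    obtain ⟨d, hd⟩ := IntermediateField.finrank_dvd_of_le_right hFK
    exact ⟨d, by rw [hd, mul_comm]⟩
  obtain ⟨h3, hT0, hT1, -⟩ := leading_of _ _ 1 hV n hn M F K hFK hquad _ hd
  obtain ⟨hA, hB, s', hs', hAB⟩ := all_ratio modular15 hk n hn M F K hFK hquad hT0 hT1
  obtain ⟨u, hu, h1⟩ := sha_bot hV.ne hΩ (pow_pos (Nat.pos_of_ne_zero hs) 2)
    (div_ne_zero hr0 (by exact_mod_cast hs)) hq0 hrF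
  rw [← hTF] at h1
  obtain ⟨q, hq, h4⟩ := sha_gen hV.ne hFK hd h3 hT0 hT1 hs' hAB 0 _ _ h1 hx (by rw [hr, hrF])
  -- the square
  obtain ⟨Q, hQdef⟩ : ∃ Q : ℚ, Q = q * u := ⟨_, rfl⟩
  have hQ0 : Q ≠ 0 := by
    rw [hQdef]
    exact mul_ne_zero hq hu
  have hxQ : x = (Q : ℂ) ^ 2 := by
    rw [h4, hrF, hQdef]
    push_cast
    simp only [zpow_zero]
    ring
  -- the denominator
  obtain ⟨y, hh, ρ, g, hqK, hht, hg, hreg, hΩK, hTK, htK, hxe⟩ := hx
  have hρ : ρ = 0 := (basis_rank hV.ne hg).trans hr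
  subst hρ
  have hreg1 : reg K (twist X15 k) hh g = 1 := by
    unfold reg
    exact Matrix.det_isEmpty
  obtain ⟨q1, hq1, hy1, m, hm⟩ := h3 0 _ y hq0 hqK
  obtain ⟨R, hR⟩ : ∃ R : ℚ, R = (d : ℚ) ^ 0 * ((tamagawaProduct K (level 15 k) (twist X15 k) : ℚ) /
    tamagawaProduct F (level 15 k) (twist X15 k)) * q1 ^ 2 := ⟨_, rfl⟩
  rw [← hR] at hy1 hm
  have hTKc : (tamagawaAll K 15 X15 k : ℂ) ≠ 0 := Nat.cast_ne_zero.2 hTK.ne'
  have hkey : Q ^ 2 * (tamagawaAll K 15 X15 k : ℚ) =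
      R * r ^ 2 * (Nat.card (tors K (twist X15 k)) : ℚ) ^ 2 := by
    have h5 : (Q : ℂ) ^ 2 * (tamagawaAll K 15 X15 k : ℂ) =
        (R : ℂ) * (r : ℂ) ^ 2 * (Nat.card (tors K (twist X15 k)) : ℂ) ^ 2 := by
      rw [← hxQ, hxe, hreg1, hy1]
      push_cast
      field_simp
    exact_mod_cast h5
  have hr2 : r ^ 2 * 2 ^ (2 * Module.finrank ℚ F) = (yF : ℚ) ^ 2 := by
    have h5 : (2 : ℚ) ^ (2 * Module.finrank ℚ F) = (2 ^ Module.finrank ℚ F) ^ 2 := by
      rw [← pow_mul, mul_comm]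
    have h6 : ((2 : ℚ) ^ Module.finrank ℚ F) ^ 2 ≠ 0 := pow_ne_zero 2 (pow_ne_zero _ two_ne_zero)
    rw [hrdef, div_pow, h5, div_mul_cancel₀ _ h6]
  have hz : Q ^ 2 * (tamagawaAll K 15 X15 k : ℚ) *
      2 ^ ((Module.finrank ℚ K - Module.finrank ℚ F) + 2 * Module.finrank ℚ F) =
      ((m * yF ^ 2 * (Nat.card (tors K (twist X15 k)) : ℤ) ^ 2 : ℤ) : ℚ) := by
    have hm' : (2 : ℚ) ^ (Module.finrank ℚ K - Module.finrank ℚ F) * R = m := by
      rw [← hm]
      norm_num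
    rw [hkey, pow_add]
    push_cast
    rw [← hm', ← hr2]
    ring
  have hfin : ∀ b : ℕ, b ≠ 0 → 2 ∣ b → Pool.Agent.H464.SR.eN 3 (H300.HW.YY n M K) ∣ b →
      Pool.Agent.H464.SR.eN 5 (H300.HW.YY n M K) ∣ b →
      ∃ a e : ℕ, a ≠ 0 ∧ x = ((a : ℂ) / (b : ℂ) ^ e) ^ 2 := by
    intro b hb0 hb2 hb3 hb5
    obtain ⟨t, ht⟩ := Pool.Agent.H464.SV.T_dvd hsf hco n M K hb2 hb3 hb5
    have hT' : tamagawaAll K 15 X15 k ∣ b ^ t := by
      have h5 : tamagawaAll K 15 X15 k = tamagawaProduct K (level 15 k) (twist X15 k) *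
          Pool.Agent.H464.ST.St (4 * k + 1) X15 K := rfl
      rw [h5, tamProd_eq]
      exact ht
    obtain ⟨a, e, ha, he⟩ := Pool.Agent.H464.SV.den_sq hQ0 hb0 hb2 hT' hz
    refine ⟨a, e, ha, ?_⟩
    have h6 := congrArg (fun x : ℚ => (x : ℂ)) he
    push_cast at h6
    rw [hxQ]
    exact h6
  have hK0 : Module.finrank ℚ K ≠ 0 := (Module.finrank_pos : 0 < Module.finrank ℚ K).ne'
  refine ⟨hfin _ (mul_ne_zero two_ne_zero hK0) (dvd_mul_right _ _)
    ((Pool.Agent.H464.SV.eN_dvd n M K 3).mul_left 2) ((Pool.Agent.H464.SV.eN_dvd n M K 5).mul_left 2),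
    fun h15 => hfin 2 two_ne_zero dvd_rfl ?_ ?_⟩
  · rw [Pool.Agent.H464.SV.eN_disc n M K Nat.prime_three (fun h => by
      have h5 := Nat.dvd_gcd h (by norm_num : 3 ∣ 15)
      rw [h15] at h5
      norm_num at h5)]
    exact one_dvd 2
  · rw [Pool.Agent.H464.SV.eN_disc n M K Nat.prime_five (fun h => by
      have h5 := Nat.dvd_gcd h (by norm_num : 5 ∣ 15)
      rw [h15] at h5
      norm_num at h5)]
    exact one_dvd 2

lemma layers : Layers := by
  intro q _ hq hco C _ _ _ F K hFK hodd hcl k hk hD d hd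
  obtain ⟨hr, n, LF, LK, lF, lK, hLF, hLK, hlF, hlK, tF, tK⟩ :=
    Pool.Agent.H464.ST.towers14 q hq hco C F K hFK hodd hcl k hk.1 hk.2.symm
      (fun p hp hpD => hD p hp (Int.natCast_dvd.1 hpD))
  have hcoq : q.Coprime (level 14 k) := by
    refine Nat.Coprime.mul_right hco (Nat.Coprime.pow_right 2 ?_)
    refine Nat.coprime_of_dvd fun p hp h1 h2 => ?_
    exact (hD p hp h2).1 h1
  have hok := cop_sq hcoq
  have hV := modular_tw modular14 hk
  obtain ⟨hΩF, -⟩ := exists_quot _ _ 1 hV q hok C F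
  obtain ⟨hΩK, -⟩ := exists_quot _ _ 1 hV q hok C K
  have hquad := fun Q hQ h => odd_noNew F K hodd Q hQ h
  obtain ⟨h1, h2, h3, -⟩ := leading_of _ _ 1 hV q hok C F K hFK hquad d hd
  obtain ⟨hA, hB, s, hs, hAB⟩ := all_ratio modular14 hk q hok C F K hFK hquad h2 h3
  have hqF : HasQuotient F (twist X14 k) n (lF * √|(discr F : ℝ)| / Omega F (twist X14 k)) :=
    ⟨lF, ⟨LF, isL.2 hLF, hlF, tF⟩, rfl⟩
  have hqK : HasQuotient K (twist X14 k) n (lK * √|(discr K : ℝ)| / Omega K (twist X14 k)) :=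
    ⟨lK, ⟨LK, isL.2 hLK, hlK, tK⟩, rfl⟩
  have hne : ∀ {X : Type} [Field X] [NumberField X] {l : ℂ}, l ≠ 0 → 0 < Omega X (twist X14 k) →
      l * √|(discr X : ℝ)| / Omega X (twist X14 k) ≠ 0 := by
    intro X _ _ l hL hΩ
    have h3 : (0 : ℝ) < |(discr X : ℝ)| := abs_pos.2 (by exact_mod_cast discr_ne_zero X)
    exact div_ne_zero (mul_ne_zero hL (Complex.ofReal_ne_zero.2 (Real.sqrt_pos.2 h3).ne'))
      (Complex.ofReal_ne_zero.2 hΩ.ne')
  obtain ⟨x, hx, hxF⟩ := exists_sha hV.ne hΩF hA (hne hlF hΩF) hqF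
  obtain ⟨y, hy, hyK⟩ := exists_sha hV.ne hΩK hB (hne hlK hΩK) hqK
  have hr' : rank F (twist X14 k) = rank K (twist X14 k) := hr
  obtain ⟨t, ht, h5⟩ := sha_gen hV.ne hFK hd h1 h2 h3 hs hAB n x y hxF hyK hr'
  exact ⟨hr', n, x, y, t, hx, ht, hxF, hyK, h5⟩

/-- the value over `ℚ` -/
lemma quot_bot14 (n : ℕ) [NeZero n] (hn : ∀ p : ℕ, p.Prime → p ∣ n → ¬ p ^ 2 ∣ 14) (M : Type)
    [Field M] [NumberField M] [IsCyclotomicExtension {n} ℚ M] :
    HasQuotient (⊥ : IntermediateField ℚ M) X14 0 (1 / 6) := by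
  have hNZ : NeZero 14 := ⟨by norm_num⟩
  have hfI := Pool.Agent.K4H53.BSX.D.isForm Pool.Agent.H464.ST.newform14
  obtain ⟨w, hAL, -⟩ := al_iff (W := X14) Pool.Agent.H464.ST.alw14
  obtain ⟨L', hL', h1⟩ := Pool.Agent.H464.SV.exists_prod hfI hAL
  have hv := Pool.Agent.H464.SV.val_prod hfI hAL hL'
  obtain ⟨hΩ, m, z, hz, ⟨a, ⟨L, hL, -⟩, -⟩⟩ := exists_quot _ _ 1 modular14 n hn M ⊥
  have hb := Pool.Agent.H464.ST.bot_val modular14.ne hfI hAL n hn M (isL.1 hL)
  have hb1 : L 1 = ((realPeriod X14 / 6 : ℝ) : ℂ) := by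
    rw [hb, ← hv, h1, ← Pool.Agent.H464.ST.bw_bv (by norm_num : ((0 : ℚ).den).Coprime 14),
      Pool.Agent.H464.ST.bw14]
    rfl
  have hfin : Module.finrank ℚ (⊥ : IntermediateField ℚ M) = 1 := IntermediateField.finrank_bot
  have hΩ' : Omega (⊥ : IntermediateField ℚ M) X14 = realPeriod X14 := by
    unfold Omega
    rw [nrRealPlaces_eq_one_of_finrank_eq_one hfin, nrComplexPlaces_eq_zero_of_finrank_eq_one hfin,
      pow_one, pow_zero, mul_one]
  have hD : discr (⊥ : IntermediateField ℚ M) = 1 := by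
    have e := IntermediateField.botEquiv ℚ M
    rw [discr_eq_discr_of_ringEquiv _ e.toRingEquiv]
    exact Rat.numberField_discr
  have hpos : 0 < realPeriod X14 := hΩ' ▸ hΩ
  have hposc : ((realPeriod X14 : ℝ) : ℂ) ≠ 0 := Complex.ofReal_ne_zero.2 hpos.ne'
  have hL1 : L 1 ≠ 0 := by
    rw [hb1]
    exact Complex.ofReal_ne_zero.2 (by positivity)
  have hq := quot_of (isL.1 hL) hL1
  have e0 : L 1 * √|(discr (⊥ : IntermediateField ℚ M) : ℝ)| /
      Omega (⊥ : IntermediateField ℚ M) X14 = 1 / 6 := by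
    rw [hD, hΩ', hb1]
    push_cast
    rw [abs_one, Real.sqrt_one, Complex.ofReal_one, mul_one]
    field_simp
  rw [e0] at hq
  exact hq

lemma fields14 : Fields14 := by
  intro q _ h1 hco M _ _ _ K hodd hK
  obtain ⟨hr, L, hL, hL1⟩ := Pool.Agent.H464.ST.odd14 q h1 hco M K hodd (by
    rcases hK with h | ⟨⟨h2, h7, h3⟩, h⟩
    · exact Or.inl h
    · exact Or.inr ⟨h2, h7, h3, h⟩)
  have hk : Twistable 14 0 := ⟨by norm_num, by norm_num⟩
  have hr' : rank K (twist X14 0) = 0 := by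
    rw [twist_zero]
    exact hr
  obtain ⟨hT6, hsha, hfin, hv2, -, -, -, -⟩ := Pool.Agent.H464.SV.two14 q h1 hco M K hodd (by
    rcases hK with h | ⟨⟨h2, h7, h3⟩, h⟩
    · exact Or.inl h
    · exact Or.inr ⟨h2, h7, h3, h⟩)
  obtain ⟨-, -, -, -, L₂, hL₂, -, r, hr₂, hv⟩ := Pool.Agent.H464.SV.two14 q h1 hco M K hodd (by
    rcases hK with h | ⟨⟨h2, h7, h3⟩, h⟩
    · exact Or.inl h
    · exact Or.inr ⟨h2, h7, h3, h⟩)
  have hfin' : Finite (base X14 K).toAffine.Point := hfin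
  refine ⟨hr, hsha, ?_⟩
  have hV := modular_tw modular14 hk
  have hok : ∀ p : ℕ, p.Prime → p ∣ q → ¬ p ^ 2 ∣ level 14 0 := by
    rw [level_zero]
    exact cop_sq hco
  obtain ⟨hΩ, -⟩ := exists_quot _ _ 1 hV q hok M K
  have hL' : Pool.Agent.H464.SQ.IsL (twist X14 0) K L := by
    rw [twist_zero]
    exact hL
  have hq := quot_of hL' hL1
  have hquad : ∀ Q : IntermediateField ℚ M, Q ≤ K → Module.finrank ℚ Q = 2 → Q ≤ ⊥ :=
    fun Q hQ h => odd_noNew ⊥ K hodd Q hQ h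
  have hd : Module.finrank ℚ K = Module.finrank ℚ K * Module.finrank ℚ (⊥ : IntermediateField ℚ M) := by
    rw [IntermediateField.finrank_bot, mul_one]
  obtain ⟨-, hT0, hT1, -⟩ := leading_of _ _ 1 hV q hok M ⊥ K bot_le hquad _ hd
  obtain ⟨-, hB, -⟩ := all_ratio modular14 hk q hok M ⊥ K bot_le hquad hT0 hT1
  have h3 : (0 : ℝ) < |(discr K : ℝ)| := abs_pos.2 (by exact_mod_cast discr_ne_zero K)
  obtain ⟨x, hx, hxK⟩ := exists_sha hV.ne hΩ hB (div_ne_zero (mul_ne_zero hL1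
    (Complex.ofReal_ne_zero.2 (Real.sqrt_pos.2 h3).ne')) (Complex.ofReal_ne_zero.2 hΩ.ne')) hq
  obtain ⟨⟨a, e, ha, h⟩, -⟩ := odd14 q hok M K hodd hr' x hxK
  rw [twist_zero, all_zero] at hxK
  have hxK' := hxK
  obtain ⟨y, hh, ρ, g, hqK, hht, hg, hreg, hΩK, hTK, htK, hxe⟩ := hxK'
  have hρ : ρ = 0 := (basis_rank modular14.ne hg).trans hr
  subst hρ
  have hreg1 : reg K X14 hh g = 1 := by
    unfold reg
    exact Matrix.det_isEmpty
  have hy : y = (r : ℂ) := by
    rw [quot_eq hqK hL₂]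
    have hr₃ : L₂ 1 * √|(discr K : ℝ)| = r * Omega K X14 := hr₂
    rw [hr₃, mul_div_assoc, div_self (Complex.ofReal_ne_zero.2 hΩK.ne'), mul_one]
  have hT : tamagawaProduct K 14 X14 = 6 := by
    rw [tamProd_eq]
    exact hT6
  have htors : Nat.card (tors K X14) = Nat.card (base X14 K).toAffine.Point := by
    have h5 : tors K X14 = Set.univ := tors_univ X14
    rw [h5, Nat.card_univ]
  have hv3 : padicValNat 2 (Nat.card (tors K X14)) = 1 := by
    rw [htors]
    exact hv2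
  have hd0 : Module.finrank ℚ K ≠ 0 := (Module.finrank_pos : 0 < Module.finrank ℚ K).ne'
  obtain ⟨Q, hQ⟩ : ∃ Q : ℚ, Q = (a : ℚ) / ((2 * (3 * Module.finrank ℚ K) : ℕ) : ℚ) ^ e := ⟨_, rfl⟩
  have hb0 : ((2 * (3 * Module.finrank ℚ K) : ℕ) : ℚ) ≠ 0 :=
    Nat.cast_ne_zero.2 (mul_ne_zero two_ne_zero (mul_ne_zero three_ne_zero hd0))
  have hQ0 : Q ≠ 0 := by
    rw [hQ]
    exact div_ne_zero (Nat.cast_ne_zero.2 ha) (pow_ne_zero _ hb0)
  have hxQ : x = (Q : ℂ) ^ 2 := by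
    rw [h, hQ]
    push_cast
    ring
  have hkey : Q ^ 2 = r * (Nat.card (tors K X14) : ℚ) ^ 2 / 6 := by
    have h5 : (Q : ℂ) ^ 2 = (r : ℂ) * (Nat.card (tors K X14) : ℂ) ^ 2 / 6 := by
      rw [← hxQ, hxe, hreg1, hy, hT]
      push_cast
      ring
    exact_mod_cast h5
  have hval : padicValRat 2 (Q ^ 2) = 0 := by
    have hfact : Fact (Nat.Prime 2) := ⟨Nat.prime_two⟩
    have hr0 : r ≠ 0 := by
      rintro rfl
      simp at hv
    have ht0 : (Nat.card (tors K X14) : ℚ) ≠ 0 := Nat.cast_ne_zero.2 htK.ne'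
    have h6 : padicValRat 2 (6 : ℚ) = 1 := by
      have h7 : (6 : ℚ) = ((6 : ℕ) : ℚ) := by norm_num
      have h8 : padicValNat 2 6 = 1 := by
        have h9 : (6 : ℕ) = 2 * 3 := by norm_num
        rw [h9, padicValNat.mul (by norm_num) (by norm_num), padicValNat.self (by norm_num),
          padicValNat.eq_zero_of_not_dvd (by norm_num)]
      rw [h7, padicValRat.of_nat, h8]
      rfl
    rw [hkey, padicValRat.div (mul_ne_zero hr0 (pow_ne_zero 2 ht0)) (by norm_num),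
      padicValRat.mul hr0 (pow_ne_zero 2 ht0), padicValRat.pow, hv, padicValRat.of_nat, hv3, h6]
    norm_num
  obtain ⟨n, hn⟩ : 6 ∣ Nat.card (tors K X14) := by
    have hfin2 : Finite (Pool.Agent.Y496.XT.W K).toAffine.Point := hfin
    have h3 : 3 ∣ Nat.card (tors K X14) := by
      rw [htors]
      exact Pool.Agent.H464.SV.three_dvd (K := K)
    have h2 : 2 ∣ Nat.card (tors K X14) := dvd_of_one_le_padicValNat hv3.ge
    exact Nat.Coprime.mul_dvd_of_dvd_of_dvd (by norm_num : Nat.Coprime 2 3) h2 h3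
  obtain ⟨hlead, -⟩ := leading_of X14 14 1 modular14 q (cop_sq hco) M ⊥ K bot_le hquad _ hd
  obtain ⟨q', -, h8, m, hm⟩ := hlead 0 _ _ (quot_bot14 q (cop_sq hco) M) hqK
  obtain ⟨X, hX⟩ : ∃ X : ℚ, X = (Module.finrank ℚ K : ℚ) ^ 0 * ((tamagawaProduct K 14 X14 : ℚ) /
    tamagawaProduct (⊥ : IntermediateField ℚ M) 14 X14) * q' ^ 2 := ⟨_, rfl⟩
  rw [← hX] at h8 hm
  have h9 : r * 6 = X := by
    have h10 : (r : ℂ) * 6 = (X : ℂ) := by
      rw [← hy, h8]
      ring
    exact_mod_cast h10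
  rw [← h9] at hm
  obtain ⟨i, hi⟩ := growth modular14 three_ne_zero Pool.Agent.H464.SW.sh14 q hco M K hodd
    (quot_bot14 q (cop_sq hco) M) hqK X h8
  rw [show ((3 : ℕ) : ℚ) = 3 by norm_num] at hi
  rw [← h9] at hi
  obtain ⟨a', ha', he'⟩ := Pool.Agent.H464.SW.odd_int3 hQ0 hn hkey (i := 2 ^ (Module.finrank ℚ K - 1) * i) (by
    rw [hi]
    push_cast
    ring) (Nat.Odd.sub_odd hodd odd_one) hval
  refine ⟨a', ha', ?_⟩
  have h6 := congrArg (fun x : ℚ => (x : ℂ)) he'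
  push_cast at h6
  have h7 : (3 : ℂ) ^ (Module.finrank ℚ K - 1) * (a' : ℂ) ^ 2 = x := by
    rw [hxQ]
    exact h6.symm
  rw [h7]
  exact hxK

lemma aP2 : Pool.Agent.H464.SR.aP Pool.Agent.Y702.E11 2 = -2 := by
  have h := Pool.Agent.Y702.P.s_min11.2.2.2.1
  have h1 := Pool.Agent.K4H53.BSX.ap_eq 2
  unfold Pool.Agent.H464.SR.aP
  rw [← h1]
  unfold Pool.Agent.W97.MT.ap
  rw [h]
  norm_num

/-- the fields of prime power degree -/
lemma x11_pow {l : ℕ} (hl : l.Prime) (hl2 : l ≠ 2) (n : ℕ) [NeZero n] (hsq : Squarefree n)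
    (hco : n.Coprime 11) (hap : ∀ p : ℕ, p.Prime → p ∣ n → ¬ (l : ℤ) ∣ a X11 p - 2) (M : Type)
    [Field M] [NumberField M] [IsCyclotomicExtension {n} ℚ M] (K : IntermediateField ℚ M) {j : ℕ}
    (hK : Module.finrank ℚ K = l ^ j) : Value11 K := by
  have hΔ : X11.Δ ≠ 0 := modular11.ne
  have hNZ : NeZero 11 := ⟨by norm_num⟩
  obtain ⟨Λ, hg₂, hg₃, hman⟩ := per11
  obtain ⟨Op, Om, κ, hP⟩ := Pool.Agent.H464.SQ.exists_PD hΔ Λ hg₂ hg₃ one_ne_zero hman
  have hreal : Pool.Agent.K4H53.DP.rP Pool.Agent.Y702.E11 = 2 * Op := hP.real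
  have hA : ((1 * (((2 : ℕ) : ℤ) + 1 - Pool.Agent.H464.SR.aP Pool.Agent.Y702.E11 2) : ℤ) : ℂ) *
      Pool.Agent.Y18.BSD.bv Pool.Agent.W97.TW.f11 0 = ((2 : ℤ) : ℂ) * Op := by
    rw [← Pool.Agent.H464.ST.bw_bv (by norm_num : ((0 : ℚ).den).Coprime 11),
      Pool.Agent.H464.SR.bw11, hreal, aP2]
    push_cast
    ring
  have hodd : Odd (Module.finrank ℚ K) := by
    rw [hK]
    exact (hl.odd_of_ne_two hl2).pow
  obtain ⟨L, hL, hL1⟩ := Pool.Agent.H464.ST.nonv_field hΔ Pool.Agent.K4H53.BSX.form11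
    Pool.Agent.H464.SR.al11 hP Nat.prime_two (by norm_num) hA hl hl2 (by
      intro h
      have h2 : l ∣ 2 := by exact_mod_cast h
      exact hl2 ((Nat.prime_dvd_prime_iff_eq hl Nat.prime_two).1 h2)) n hsq hco hap M K hK
  have hqK := quot_of hL hL1
  obtain ⟨-, hq0⟩ := quot_bot11 n M
  have hd : Module.finrank ℚ K = Module.finrank ℚ K * Module.finrank ℚ (⊥ : IntermediateField ℚ M) := by
    rw [IntermediateField.finrank_bot, mul_one]
  obtain ⟨h1, h2, h3, h4⟩ := leading_of X11 11 1 modular11 n (sq11 n) M ⊥ K bot_le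
    (fun Q hQ h => odd_noNew ⊥ K hodd Q hQ h) _ hd
  obtain ⟨q, hq, h5, -⟩ := h1 0 _ _ hq0 hqK
  obtain ⟨t, ht, h6⟩ := h4 hco
  have h7 : (tamagawaProduct (⊥ : IntermediateField ℚ M) 11 X11 : ℚ) ≠ 0 :=
    Nat.cast_ne_zero.2 h2.ne'
  have h8 : ((Module.finrank ℚ K : ℚ) ^ 0 * ((tamagawaProduct K 11 X11 : ℚ) /
      tamagawaProduct (⊥ : IntermediateField ℚ M) 11 X11) * q ^ 2 : ℚ) = (t * q) ^ 2 := by
    rw [h6]
    field_simp
  rw [h5, h8] at hqK
  obtain ⟨i, hi⟩ := growth modular11 (l := 5) (by norm_num) Pool.Agent.H464.SW.sh11 n hco M K hodd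
    hq0 hqK ((t * q) ^ 2) rfl
  have hdd : Module.finrank ℚ K - 1 + 1 = Module.finrank ℚ K := Nat.sub_add_cancel hodd.pos
  have hz : (t * q) ^ 2 * ((5 : ℕ) : ℚ) ^ 1 * (2 ^ 0) ^ 2 = ((5 : ℕ) : ℚ) ^ Module.finrank ℚ K * i := by
    have e1 : ((5 : ℕ) : ℚ) ^ Module.finrank ℚ K =
        ((5 : ℕ) : ℚ) ^ (Module.finrank ℚ K - 1) * ((5 : ℕ) : ℚ) := by
      rw [← pow_succ, hdd]
    rw [e1, pow_one, pow_zero, one_pow, mul_one]
    linear_combination ((5 : ℕ) : ℚ) * hi
  obtain ⟨a, ha, he⟩ := Pool.Agent.H464.SW.fin_l (mul_ne_zero ht hq) (l := 5) (g := 1) (h := 0)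
    (by norm_num) hodd (one_dvd _) hz
  refine ⟨a, ha, ?_⟩
  rw [he] at hqK
  have h9 : ((((5 : ℕ) : ℚ) ^ (Module.finrank ℚ K - 1) * ((a : ℚ) / 2 ^ 0) ^ 2 : ℚ) : ℂ) * (1 / 5) =
      (5 : ℂ) ^ (Module.finrank ℚ K - 1) * (a : ℂ) ^ 2 / 5 := by
    push_cast
    ring
  rw [h9] at hqK
  exact hqK

lemma tower_of (W : WeierstrassCurve ℤ) (N : ℕ) (c : ℤ) (hW : Modular W N c) : Towers W N := by
  obtain ⟨f, hf, hAL, Λ, hg₂, hg₃, hman⟩ := hW.form
  have hN : NeZero N := ⟨hW.pos⟩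
  have hfI := Pool.Agent.K4H53.BSX.D.isForm hf
  obtain ⟨ε, hnf, -⟩ := hfI.newf
  obtain ⟨Op, Om, κ, hP⟩ := Pool.Agent.H464.SQ.exists_PD hW.ne Λ hg₂ hg₃ hW.c_ne hman
  obtain ⟨j₀, h⟩ := Pool.Agent.H464.SQ.tower hW.ne hfI hnf hP
  refine ⟨j₀, ?_⟩
  intro p hp hp2 hpN j k hj hjk _ M _ _ _ C _ F K hFK hC d hd
  obtain ⟨hq, LF, LK, r, a, b, hLF, hLK, ha, hb⟩ := h p hp hp2 hpN j k hj hjk M C F K hFK hC
  have hn : (p ^ k).Coprime N := Nat.Coprime.pow_left _ ((Nat.Prime.coprime_iff_not_dvd hp).2 hpN)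
  have hx : HasQuotient F W r (a * √|(discr F : ℝ)| / Omega F W) :=
    ⟨a, ⟨LF, isL.2 hLF, ha.1, ha.2⟩, rfl⟩
  have hy : HasQuotient K W r (b * √|(discr K : ℝ)| / Omega K W) :=
    ⟨b, ⟨LK, isL.2 hLK, hb.1, hb.2⟩, rfl⟩
  obtain ⟨q, hq0, h1, -⟩ := Pool.Agent.H464.SQ.main hW.ne hfI hnf hP (p ^ k) hn M F K hFK hq LF LK
    hLF hLK r a b ha hb d hd
  exact ⟨r, _, _, q, hx, hy, hq0, h1⟩

lemma main_of {W : WeierstrassCurve ℤ} {N : ℕ} {c : ℤ} (hW : Modular W N c) {k : ℤ}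
    (hk : Twistable N k) : Main W N c k := by
  intro n _ hn M _ _ _
  have hV := modular_tw hW hk
  refine ⟨fun K => ?_, fun F K hFK hq d hd => ?_⟩
  · obtain ⟨hΩ, m, x, hx, h1⟩ := exists_quot _ _ c hV n hn M K
    obtain ⟨-, -, hT, -⟩ := leading_of _ _ c hV n hn M K K le_rfl (fun Q h _ => h) 1
      (one_mul _).symm
    refine ⟨⟨m, x, hx, h1⟩, fun _ => ?_⟩
    obtain ⟨-, hT', -⟩ := all_ratio hW hk n hn M K K le_rfl (fun Q h _ => h) hT hT
    obtain ⟨x', hx', h2⟩ := exists_sha hV.ne hΩ hT' hx h1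
    exact ⟨m, x', hx', h2⟩
  · obtain ⟨h1, h2, h3, h4⟩ := leading_of _ _ c hV n hn M F K hFK hq d hd
    obtain ⟨hA, hB, s, hs, hAB⟩ := all_ratio hW hk n hn M F K hFK hq h2 h3
    exact ⟨h1, ⟨h2, h3, h4⟩, fun _ n x y hx hy hr =>
      sha_gen hV.ne hFK hd h1 h2 h3 hs hAB n x y hx hy hr⟩

lemma three_power : ThreePower := by
  intro n q hn hq k hk M _ _ _ F K hFK hj
  obtain ⟨hsq, h8, h3, h7, hcl⟩ := hn
  obtain ⟨j, hj⟩ := hj
  have hq0 : NeZero q := ⟨hq.1.ne_zero⟩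
  obtain ⟨hrK, LK, hLK, hLK1⟩ := Pool.Agent.H464.ST.three (q := q) hsq h8 h3 h7 hcl hq.1 hq.2 M K hj hk
  have hF : Module.finrank ℚ F ∣ 3 ^ j := hj ▸ IntermediateField.finrank_dvd_of_le_right hFK
  obtain ⟨i, hi, hF'⟩ := (Nat.dvd_prime_pow Nat.prime_three).1 hF
  obtain ⟨hrF, LF, hLF, hLF1⟩ := Pool.Agent.H464.ST.three (q := q) hsq h8 h3 h7 hcl hq.1 hq.2 M F hF' hk
  have hodd : Odd (Module.finrank ℚ K) := by
    rw [hj]
    exact (by decide : Odd 3).pow
  have h14 : n.Coprime 14 := Pool.Agent.K4H1.BX.cop14 (q := q) hsq h8 h7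
  have hnat : (4 * k + 1).natAbs = n := by
    rw [hk, Int.natAbs_neg, Int.natAbs_natCast]
  have htw : Twistable 14 k := by
    refine ⟨?_, ?_⟩
    · rw [← Int.squarefree_natAbs, hnat]
      exact hsq
    · rw [hnat]
      exact h14.symm
  have hlev : level 14 k = 14 * n ^ 2 := by
    unfold level
    rw [hnat]
  have hco : q.Coprime (level 14 k) := by
    rw [hlev]
    refine Nat.coprime_of_dvd fun p hp h1 h2 => ?_
    obtain ⟨g1, g2, g3⟩ := hq.2 p hp h1
    rcases (hp.dvd_mul).1 h2 with h4 | h4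
    · have h5 : p ∣ 2 * 7 := h4
      rcases (hp.dvd_mul).1 h5 with h6 | h6
      · have h7 := (Nat.prime_dvd_prime_iff_eq hp Nat.prime_two).1 h6
        rw [h7] at g1
        norm_num at g1
      · exact g3 ((Nat.prime_dvd_prime_iff_eq hp (by norm_num)).1 h6)
    · have h5 : p ∣ n := hp.dvd_of_dvd_pow h4
      have : NeZero p := ⟨hp.ne_zero⟩
      have h6 : jacobiSym (-(n : ℤ)) p = 0 := by
        rw [jacobiSym.eq_zero_iff_not_coprime]
        intro hg
        have h11 : p ∣ Int.gcd (-(n : ℤ)) (p : ℤ) :=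
          Int.dvd_gcd ((Int.dvd_neg).2 (Int.natCast_dvd_natCast.2 h5)) dvd_rfl
        rw [hg] at h11
        exact hp.one_lt.ne' (Nat.dvd_one.1 h11)
      rw [h6] at g2
      norm_num at g2
  have hok := cop_sq hco
  have hV := modular_tw modular14 htw
  obtain ⟨hΩF, -⟩ := exists_quot _ _ 1 hV q hok M F
  obtain ⟨hΩK, -⟩ := exists_quot _ _ 1 hV q hok M K
  obtain ⟨d, hd⟩ : ∃ d, Module.finrank ℚ K = d * Module.finrank ℚ F := by
    obtain ⟨d, hd⟩ := IntermediateField.finrank_dvd_of_le_right hFK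
    exact ⟨d, by rw [hd, mul_comm]⟩
  have hquad := fun Q hQ h => odd_noNew F K hodd Q hQ h
  obtain ⟨h1, h2, h3, -⟩ := leading_of _ _ 1 hV q hok M F K hFK hquad d hd
  obtain ⟨hA, hB, s, hs, hAB⟩ := all_ratio modular14 htw q hok M F K hFK hquad h2 h3
  have hqF : HasQuotient F (twist X14 k) 0 (LF 1 * √|(discr F : ℝ)| / Omega F (twist X14 k)) :=
    quot_of hLF hLF1
  have hqK : HasQuotient K (twist X14 k) 0 (LK 1 * √|(discr K : ℝ)| / Omega K (twist X14 k)) :=
    quot_of hLK hLK1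
  have hne : ∀ {X : Type} [Field X] [NumberField X] {L : ℂ → ℂ}, L 1 ≠ 0 → 0 < Omega X (twist X14 k) →
      L 1 * √|(discr X : ℝ)| / Omega X (twist X14 k) ≠ 0 := by
    intro X _ _ L hL hΩ
    have h3 : (0 : ℝ) < |(discr X : ℝ)| := abs_pos.2 (by exact_mod_cast discr_ne_zero X)
    exact div_ne_zero (mul_ne_zero hL (Complex.ofReal_ne_zero.2 (Real.sqrt_pos.2 h3).ne'))
      (Complex.ofReal_ne_zero.2 hΩ.ne')
  obtain ⟨x, hx, hxF⟩ := exists_sha hV.ne hΩF hA (hne hLF1 hΩF) hqF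
  obtain ⟨y, hy, hyK⟩ := exists_sha hV.ne hΩK hB (hne hLK1 hΩK) hqK
  have hrF' : rank F (twist X14 k) = 0 := hrF
  have hrK' : rank K (twist X14 k) = 0 := hrK
  obtain ⟨t, ht, h5⟩ := sha_gen hV.ne hFK hd h1 h2 h3 hs hAB 0 x y hxF hyK (by rw [hrF', hrK'])
  refine ⟨hrF', hrK', x, y, t, hx, ht, hxF, hyK, ?_⟩
  rw [h5, hrF']
  push_cast
  simp only [zpow_zero, one_mul]

/-- Let `W` be the equation of an elliptic curve `E` over `ℚ` of conductor `N`, with its newform (`Modular W N c`),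
and `D = 4 k + 1` squarefree and prime to `N`.
* The twist `E_D` is modular too, with the same constant `c`.
* `Main`: `M = ℚ(ζ_n)`, where `n` is not divisible by the primes `p` with `p² ∣ N D²`, `F ⊆ K ⊆ M`, every quadratic
  subfield of `K` is contained in `F`, `d = [K : F]`.  If `L(E_D/F, s)`, `L(E_D/K, s)` have the same order of vanishing
  `n` at `s = 1` then `x*(K) = d^n (T(K)/T(F)) q² x*(F)` with `q ∈ ℚ^×`; if `N` is squarefree and the ranks `r` of
  `E_D(F)`, `E_D(K)` agree then `Ш_an(E_D/K) = d^(n - r) q² Ш_an(E_D/F)`.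
* `Towers`: the hypothesis on the orders of vanishing is proved in towers of `p`-power conductor.
* `PrimePower`: it is proved for families of fields of `l`-power degree if `L(E_D, 1) ≠ 0`.
* `X_0(11)`, `X_0(14)` and `X_0(15)` are modular in this sense; and explicit statements for these curves and their
  twists. -/
theorem result :
    (∀ (W : WeierstrassCurve ℤ) (N : ℕ) (c : ℤ), Modular W N c → ∀ k : ℤ, Twistable N k →
      Modular (twist W k) (level N k) c ∧ Main W N c k ∧ Towers (twist W k) (level N k) ∧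
        PrimePower (twist W k) (level N k)) ∧
      Modular X11 11 1 ∧ Modular X14 14 1 ∧ Modular X15 15 1 ∧ Eleven ∧ Fourteen ∧ Fifteen := by
  refine ⟨fun W N c hW k hk => ?_, modular11, modular14, modular15, ⟨odd11, int11, ?_, ?_⟩,
    ⟨odd14, int14, fields14, layers, three_power⟩, ⟨odd15, real15⟩⟩
  · have hV := modular_tw hW hk
    exact ⟨hV, main_of hW hk, tower_of _ _ c hV, prime_power_of _ _ c hV⟩
  · intro l hl hl2 n _ hsq hco hap M _ _ _ K hj
    obtain ⟨j, hj⟩ := hj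
    exact x11_pow hl hl2 n hsq hco hap M K hj
  · intro _ M _ _ _ K
    rw [tamProd_eq]
    exact Pool.Agent.H464.SR.Tm11_ram M K

end Pool.Agent.Results.MP_1a91b9_nt.ShaModuloSquares
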