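import Pool.Agent.H458.PD.Uni

/-!
# Trivial Mordell-Weil groups over all fields of a class of 2-extensions and over their unions

Let `F` be ANY number field and `g ≥ 1`. We consider ALL polynomials
`f = x ^ (2 g + 1) + a_(2 g - 1) x ^ (2 g - 1) + ... + a_0` with coefficients in the ring of integers of `F`,
ordered by the height: `|σ a_i| ≤ B ^ (2 g + 1 - i)` for all embeddings `σ : F → ℂ`. For `g = 1` these are all the
elliptic curves `y ^ 2 = x ^ 3 + a x + b` over `F`; in general `J` is the Jacobian of `y ^ 2 = f(x)`.

For `f` and a finite set `Q` of primes of `F` let `C(f, Q)` be the class of all the finite Galois extensions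
`M / F` of 2-power degree in which all the primes over `2` and all `v ∈ Q` split completely and in which only
primes are ramified modulo which `f` is irreducible (no condition at the infinite places).

Theorem. Let `N / F` be any finite Galois extension of 2-power degree in which the primes over `2` split
completely and `T` a finite set of primes of `F`. There are a finite set `Q` of primes, disjoint from `T` and
prime to `2`, and `c > 0` such that for all large `B` at least `c` times the number of all `f` of height at
most `B` are irreducible over `F`, modulo the primes over `2` and modulo all `v ∈ T`, and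

(1) `N` belongs to the class `C(f, Q)`;

(2) for ALL `M` in the class `C(f, Q)`, and for all the algebraic extensions `W / F` of finite or infinite degree
which are unions of fields of the class, `J(W) = 0`: the ring `W[x, y] / (y ^ 2 - f)` is a principal ideal
domain, and `y ^ 2 = f(x)` has no solution in `W`;

(3) for ALL `M` in the class `C(f, Q)` the 2-primary part of the Tate-Shafarevich group of `J` over `M` is zero.

The theorem of Mordell and Weil is not used. For elliptic curves: for a positive proportion of all `E` over any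
number field `F`, ordered by height, `E(M) = 0` and `Ш(E / M)[2 ^ ∞] = 0` for ALL `M` in the class, and
`E(W) = 0` for the union `W` of all of them. (The class is closed under composita, and it is infinite by the
theorem of Chebotarev: `f` is irreducible modulo the primes over `2`, so that its Galois group contains a
`(2 g + 1)`-cycle. This remark is not proved here.)

What is new. The 2-Selmer groups over `M` are zero (project RC, see our MP_1d384c_nt.JacobiansTwoExtensions), so
that multiplication by two is bijective on `J(M)`. Then all classes are infinitely 2-divisible, and the new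
part of the proof is a theorem about discrete valuation rings `O` (not complete) of residue
characteristic two with field of fractions `K` (`Pool/Agent/H458/PD`): if `f ∈ O[x]` is monic of odd degree and
`f = E ^ 2 + x G ^ 2 + π r`, where `π` is a uniformizer and `r`, `G` are coprime modulo `π` (the scheme
`y ^ 2 = f(x)` is regular), then every ideal class of `K[x, y] / (y ^ 2 - f)` which is divisible by all powers of
two is trivial. Proof: every class has a representative `(A, B - y)` with `A`, `B`,
`C = (B ^ 2 - f) / A` in `O[x]`, `A` monic; modulo `π` the ring is a purely inseparable quadratic extension, so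
that squares become principal, and if the class is a `2 ^ n`-th power, it contains an element
`p - q y` with `p`, `q ∈ O[x]` small and not both zero modulo `π` up to an error divisible by `2 ^ n`; a linear
algebra argument removes the error; the element generates the ideal because its norm has the degree of `A`. It is
applied to the valuation rings of `M` given by the embeddings of `M` in the completion of `F` at a prime
over `2`. The regularity of `y ^ 2 = f(x)` is a congruence for `f` modulo `4`, which can be prescribed.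
(helper905 has proved independently, and landed in MP_9b9442_nt.SmallDegreePoints, that `J(F) = 0` for a
positive proportion of the `f`, the case `M = F`; the proof there is different. Its file `H905/OP/Ex.lean` on the
existence of the congruence class is used here.)
-/

set_option autoImplicit false
set_option linter.all false

namespace Pool.Agent.Results.MP_1a91b9_nt.TrivialMordellWeilGroups

open Polynomial Filter IsDedekindDomain NumberField
open Pool.Agent.N874.Jac (J ShaTwoTrivialReal)
open scoped Classical

section defs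

variable {F : Type} [Field F] [NumberField F]

/-- `f` is a monic polynomial of degree `2 g + 1` with integral coefficients, without term of degree
`2 g`. -/
structure IsOdd (g : ℕ) (f : (𝓞 F)[X]) : Prop where
  monic : f.Monic
  degree : f.natDegree = 2 * g + 1
  trace : f.coeff (2 * g) = 0

variable (F) in
/-- The polynomials `f` of height at most `B`: all conjugates of the coefficient of degree `j` are at most
`B ^ (2 g + 1 - j)` in absolute value. -/
def Polys (g B : ℕ) : Set (𝓞 F)[X] :=
  {f | IsOdd g f ∧ ∀ j ≤ 2 * g, ∀ σ : F →+* ℂ, ‖σ (f.coeff j : F)‖ ≤ (B : ℝ) ^ (2 * g + 1 - j)}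

/-- `f` is irreducible modulo `v`. -/
def IrreducibleMod (f : (𝓞 F)[X]) (v : HeightOneSpectrum (𝓞 F)) : Prop :=
  Irreducible (f.map (Ideal.Quotient.mk v.asIdeal))

/-- `M / F` is unramified at `v`. -/
def Unramified (v : HeightOneSpectrum (𝓞 F)) (M : Type) [Field M] [NumberField M]
    [Algebra F M] : Prop :=
  ∀ w : HeightOneSpectrum (𝓞 M), v.asIdeal.map (algebraMap (𝓞 F) (𝓞 M)) ≤ w.asIdeal →
    ¬ v.asIdeal.map (algebraMap (𝓞 F) (𝓞 M)) ≤ w.asIdeal ^ 2

/-- `v` splits completely in `M`: it is unramified and all integers of `M` are congruent to integers of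
`F` modulo every prime over `v`. -/
def SplitsCompletely (v : HeightOneSpectrum (𝓞 F)) (M : Type) [Field M] [NumberField M]
    [Algebra F M] : Prop :=
  Unramified v M ∧
  ∀ w : HeightOneSpectrum (𝓞 M), v.asIdeal.map (algebraMap (𝓞 F) (𝓞 M)) ≤ w.asIdeal →
    ∀ y : 𝓞 M, ∃ c : 𝓞 F, y - algebraMap (𝓞 F) (𝓞 M) c ∈ w.asIdeal

/-- `M / F` is a Galois extension of 2-power degree in which the primes over `2` split completely: the
field `M` has an embedding over `F` in the completion of `F` at every prime over `2`. -/
structure TwoSplit (F M : Type) [Field F] [NumberField F] [Field M] [NumberField M] [Algebra F M] :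
    Prop where
  galois : IsGalois F M
  degree : ∃ n : ℕ, Module.finrank F M = 2 ^ n
  two : ∀ v : HeightOneSpectrum (𝓞 F), (2 : 𝓞 F) ∈ v.asIdeal →
    Nonempty (M →ₐ[F] v.adicCompletion F)

/-- `M` belongs to the class `C(f, Q)`. -/
structure InClass (Q : Finset (HeightOneSpectrum (𝓞 F))) (f : (𝓞 F)[X]) (M : Type) [Field M]
    [NumberField M] [Algebra F M] : Prop where
  twoSplit : TwoSplit F M
  split : ∀ v ∈ Q, SplitsCompletely v M
  ramified : ∀ v : HeightOneSpectrum (𝓞 F), Unramified v M ∨ IrreducibleMod f v

/-- `W` is a union of fields of the class `C(f, Q)`: every finite subset of `W` is contained in the image of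
a field of the class (in particular, all the fields of the class have this property). -/
def IsUnion (Q : Finset (HeightOneSpectrum (𝓞 F))) (f : (𝓞 F)[X]) (W : Type) [Field W]
    [Algebra F W] : Prop :=
  ∀ s : Finset W, ∃ (M : Type) (_ : Field M) (_ : NumberField M) (_ : Algebra F M) (φ : M →ₐ[F] W),
    InClass Q f M ∧ ∀ x ∈ s, x ∈ Set.range φ

/-- The polynomial `f` over the extension `W` of `F`. -/
noncomputable def polyOver (W : Type) [Field W] [Algebra F W] (f : (𝓞 F)[X]) : W[X] :=
  (f.map (algebraMap (𝓞 F) F)).map (algebraMap F W)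

/-- The Jacobian of `y ^ 2 = P(x)` has no point except zero over `W`: the coordinate ring
`W[x, y] / (y ^ 2 - P(x))` is a principal ideal domain and `J(W)`, its Picard group, is zero. The
curve has no point except the point at infinity. -/
structure NoPoints {W : Type} [Field W] (P : W[X]) : Prop where
  domain : IsDomain (AdjoinRoot (X ^ 2 - C P : W[X][X]))
  principal : IsPrincipalIdealRing (AdjoinRoot (X ^ 2 - C P : W[X][X]))
  jacobian : Subsingleton (J P W)
  curve : ∀ x y : W, y ^ 2 ≠ P.eval x

/-- The properties of the polynomials in the theorem. -/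
structure Good (Q T : Finset (HeightOneSpectrum (𝓞 F))) (N : Type) [Field N] [NumberField N]
    [Algebra F N] (f : (𝓞 F)[X]) : Prop where
  irreducible : Irreducible (f.map (algebraMap (𝓞 F) F))
  two : ∀ v : HeightOneSpectrum (𝓞 F), (2 : 𝓞 F) ∈ v.asIdeal → IrreducibleMod f v
  mod : ∀ v ∈ T, IrreducibleMod f v
  inClass : InClass Q f N
  trivial : ∀ (W : Type) [Field W] [Algebra F W], IsUnion Q f W → NoPoints (polyOver W f)
  sha : ∀ (M : Type) [Field M] [NumberField M] [Algebra F M], InClass Q f M →
    ShaTwoTrivialReal (polyOver M f) (𝓞 M)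

end defs

section pf

variable {F : Type} [Field F] [NumberField F]

theorem spl_from {M : Type} [Field M] [NumberField M] [Algebra F M] {v : HeightOneSpectrum (𝓞 F)}
    (hv : SplitsCompletely v M) : Pool.Agent.N874.TF.Spl v M := by
  refine ⟨Pool.Agent.N874.TF.unr_of hv.1, fun w hw y => ?_⟩
  obtain ⟨y, rfl⟩ := Ideal.Quotient.mk_surjective y
  obtain ⟨c, hc⟩ := hv.2 w (Ideal.map_le_iff_le_comap.2 hw) y
  exact ⟨c, (Ideal.Quotient.eq.2 hc).symm⟩

theorem selmer_of {g : ℕ} {Q : Finset (HeightOneSpectrum (𝓞 F))} {f : (𝓞 F)[X]} (hm : f.Monic)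
    (hd : f.natDegree = 2 * g + 1) (h2 : Irreducible (Pool.Agent.N783.PF.fF f))
    (a4 : Pool.Agent.H458.RC.Uni {𝔭 | ∃ v ∈ Q, 𝔭 = v.asIdeal} f f)
    (M : Type) [Field M] [NumberField M] [Algebra F M] (hM : InClass Q f M) :
    Pool.Agent.N874.Jac.UniquelyTwoDivisible (polyOver M f) ∧ ShaTwoTrivialReal (polyOver M f) (𝓞 M) := by
  haveI := hM.twoSplit.galois
  obtain ⟨n, hn⟩ := hM.twoSplit.degree
  have hsel := a4 M (fun v hv => by
      obtain ⟨σ⟩ := hM.twoSplit.two v hv
      exact ⟨σ, fun y => σ.commutes y⟩) n hn (by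
      rintro v ⟨v', hv', h⟩
      rw [HeightOneSpectrum.ext h]
      exact spl_from (hM.split v' hv')) (by
      intro v hv
      rcases hM.ramified v with h | h
      · exact absurd (Pool.Agent.N874.TF.unr_of h) hv
      · exact h)
  exact Pool.Agent.N874.TF.genuineF hn hm (by rw [hd]; exact odd_two_mul_add_one g) h2 hsel

theorem pid_of {g : ℕ} (hg : 1 ≤ g) {Q : Finset (HeightOneSpectrum (𝓞 F))} {f : (𝓞 F)[X]}
    (hm : f.Monic) (hd : f.natDegree = 2 * g + 1) (h2 : Irreducible (Pool.Agent.N783.PF.fF f))
    (a4 : Pool.Agent.H458.RC.Uni {𝔭 | ∃ v ∈ Q, 𝔭 = v.asIdeal} f f)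
    {v : HeightOneSpectrum (𝓞 F)} (hv : (2 : 𝓞 F) ∈ v.asIdeal) (hR : Pool.Agent.H458.PD.RegAt v f)
    (M : Type) [Field M] [NumberField M] [Algebra F M] (hM : InClass Q f M) :
    IsPrincipalIdealRing (Pool.Agent.Y160.SE.CR 2 (polyOver M f)) := by
  obtain ⟨σ⟩ := hM.twoSplit.two v hv
  have h3 := (Pool.Agent.H458.PD.glo_ring σ hv hR hm hd h2.separable (P := polyOver M f) rfl
    (selmer_of hm hd h2 a4 M hM).1).2.1
  have hid : (polyOver M f).map (algebraMap M M) = polyOver M f := Polynomial.map_id
  have h4 : IsPrincipalIdealRing (Pool.Agent.Y160.SE.CR 2 ((polyOver M f).map (algebraMap M M))) := h3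
  rwa [hid] at h4

theorem noPoints_of {g : ℕ} (hg : 1 ≤ g) {Q : Finset (HeightOneSpectrum (𝓞 F))} {f : (𝓞 F)[X]}
    (hm : f.Monic) (hd : f.natDegree = 2 * g + 1)
    (hpid : ∀ (M : Type) [Field M] [NumberField M] [Algebra F M], InClass Q f M →
      IsPrincipalIdealRing (Pool.Agent.Y160.SE.CR 2 (polyOver M f)))
    (W : Type) [Field W] [Algebra F W] (hW : IsUnion Q f W) : NoPoints (polyOver W f) := by
  have hd' : (polyOver W f).natDegree = 2 * g + 1 := by
    unfold polyOver
    rw [(hm.map _).natDegree_map, hm.natDegree_map, hd]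
  have hodd : Odd (polyOver W f).natDegree := by rw [hd']; exact odd_two_mul_add_one g
  have key : IsPrincipalIdealRing (Pool.Agent.Y160.SE.CR 2 (polyOver W f)) := by
    apply Pool.Agent.H458.PD.union_pid
    intro s
    obtain ⟨M, i1, i2, i3, φ, hM, hs⟩ := hW s
    refine ⟨M, i1, (φ : M →+* W), polyOver M f, ?_, hs, hpid M hM⟩
    unfold polyOver
    rw [Polynomial.map_map]
    congr 1
    exact φ.comp_algebraMap
  have hdom : IsDomain (Pool.Agent.Y160.SE.CR 2 (polyOver W f)) := Pool.Agent.H458.PD.cr_domain hodd
  have hid : (polyOver W f).map (algebraMap W W) = polyOver W f := Polynomial.map_id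
  refine ⟨hdom, key, ?_, ?_⟩
  · have h5 : Subsingleton (CommRing.Pic
        (Pool.Agent.Y160.SE.CR 2 ((polyOver W f).map (algebraMap W W)))) := by
      rw [hid]
      haveI := key
      haveI := hdom
      have h5 : Subsingleton (ClassGroup (Pool.Agent.Y160.SE.CR 2 (polyOver W f))) :=
        Fintype.card_le_one_iff_subsingleton.1
          (card_classGroup_eq_one (R := Pool.Agent.Y160.SE.CR 2 (polyOver W f))).le
      exact (ClassGroup.equivPic (Pool.Agent.Y160.SE.CR 2 (polyOver W f))).symm.toEquiv.subsingleton
    exact h5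
  · intro x y
    exact Pool.Agent.H458.PD.no_points hodd (by rw [hd']; omega) key x y

end pf

/-- **Trivial Mordell-Weil groups over a class of 2-extensions and over their unions.** For every number
field `F`, every `g ≥ 1`, every Galois extension `N / F` of 2-power degree in which the primes over `2` split
completely and every finite set `T` of primes of `F` there are a finite set `Q` of primes, disjoint from `T`
and prime to `2`, and `c > 0` such that for all large `B` at least `c` times the number of all the `f` of
height at most `B` are good: `N` belongs to the class `C(f, Q)`, for ALL the extensions `W / F` which are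
unions of fields of the class the ring `W[x, y] / (y ^ 2 - f)` is a principal ideal domain, `J(W) = 0`
and `y ^ 2 = f(x)` has no solution in `W`, and for all `M` in the class the 2-primary part of the
Tate-Shafarevich group of `J` over `M` is zero. -/
theorem result (F : Type) [Field F] [NumberField F] (g : ℕ) (hg : 1 ≤ g)
    (N : Type) [Field N] [NumberField N] [Algebra F N] (hN : TwoSplit F N)
    (T : Finset (HeightOneSpectrum (𝓞 F))) :
    (∀ B : ℕ, (Polys F g B).Finite) ∧
    ∃ Q : Finset (HeightOneSpectrum (𝓞 F)), Disjoint Q T ∧ (∀ v ∈ Q, (2 : 𝓞 F) ∉ v.asIdeal) ∧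
      ∃ c : ℝ, 0 < c ∧ ∀ᶠ B : ℕ in atTop, 0 < (Polys F g B).ncard ∧
        c * ((Polys F g B).ncard : ℝ) ≤ ({f ∈ Polys F g B | Good Q T N f}.ncard : ℝ) := by
  have heq : ∀ B, Polys F g B = {f : (𝓞 F)[X] | Pool.Agent.N783.PF.Ht g B f} := by
    intro B
    ext f
    exact ⟨fun h => ⟨h.1.monic, h.1.degree, h.1.trace, fun j hj σ => h.2 j hj σ⟩,
      fun h => ⟨⟨h.mon, h.deg, h.tr⟩, fun j hj σ => h.ht j hj σ⟩⟩
  obtain ⟨f₂, v₀, hv₀, hf₂m, hf₂d, hf₂t, hf₂i, hf₂r⟩ := Pool.Agent.H458.PD.ex4 F g hg
  obtain ⟨T', hT'⟩ := Pool.Agent.H458.RC.ram_fin F N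
  obtain ⟨Q, hQ1, hQ2, hQ3, c, hc, B₀, hB₀⟩ := Pool.Agent.H458.RC.main F N hg (T ∪ T') 4
    (by norm_num) f₂ hf₂m hf₂d hf₂t hf₂i
  have hfin : ∀ B : ℕ, (Polys F g B).Finite := by
    intro B
    have h1 := (hB₀ (max B B₀) (le_max_right _ _)).1
    rw [← heq] at h1
    refine h1.subset fun f hf => ⟨hf.1, fun j hj σ => ?_⟩
    refine (hf.2 j hj σ).trans ?_
    exact pow_le_pow_left₀ (Nat.cast_nonneg _) (by exact_mod_cast le_max_left B B₀) _
  refine ⟨hfin, Q, ?_, hQ2, c, hc, ?_⟩
  · exact Finset.disjoint_of_subset_right Finset.subset_union_left hQ1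
  filter_upwards [eventually_ge_atTop B₀] with B hB
  obtain ⟨hHt, hle⟩ := hB₀ B hB
  have hsub : {f : (𝓞 F)[X] | Pool.Agent.N783.PF.Ht g B f ∧
      Irreducible (Pool.Agent.N783.PF.fF f) ∧
      (∀ v : HeightOneSpectrum (𝓞 F), (2 : 𝓞 F) ∈ v.asIdeal →
        Irreducible (Pool.Agent.N783.PF.rd v.asIdeal f)) ∧
      (∀ v ∈ T ∪ T', Irreducible (Pool.Agent.N783.PF.rd v.asIdeal f)) ∧
      Pool.Agent.N783.PF.Cg (Pool.Agent.N783.PF.sp F 4) f f₂ ∧ Pool.Agent.H458.RC.Mono f ∧
      Pool.Agent.N874.TF.Tws g {𝔭 | ∃ v ∈ Q, 𝔭 = v.asIdeal} f ∧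
      Pool.Agent.H458.RC.Uni {𝔭 | ∃ v ∈ Q, 𝔭 = v.asIdeal} f f ∧
      Pool.Agent.N783.PF.Min g f} ⊆ {f ∈ Polys F g B | Good Q T N f} := by
    rintro f ⟨h1, h2, a1, a2, a3, a4, -, a6, -⟩
    have hR : Pool.Agent.H458.PD.RegAt v₀ f := by
      refine hf₂r.congr fun j => ?_
      have h5 := a3 j
      have h6 : (4 : 𝓞 F) ∈ v₀.asIdeal ^ 2 := by
        have h7 := Ideal.mul_mem_mul hv₀ hv₀
        rw [← pow_two] at h7
        norm_num at h7
        exact h7
      refine (Ideal.span_singleton_le_iff_mem _).2 (by exact_mod_cast h6) h5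
    refine ⟨⟨⟨h1.mon, h1.deg, h1.tr⟩, fun j hj σ => h1.ht j hj σ⟩, ?_⟩
    refine ⟨h2, a1, fun v hv => a2 v (Finset.mem_union_left _ hv), ⟨hN, fun v hv => ?_, fun v => ?_⟩,
      fun W _ _ hW => noPoints_of hg h1.mon h1.deg
        (fun M _ _ _ hM => pid_of hg h1.mon h1.deg h2 a6 hv₀ hR M hM) W hW,
      fun M _ _ _ hM => (selmer_of h1.mon h1.deg h2 a6 M hM).2⟩
    · have h3 := hQ3 v hv
      exact ⟨fun w hw => Pool.Agent.H458.RC.unr_to h3.1 w hw,
        fun w hw y => Pool.Agent.H458.RC.spl_to h3 w hw y⟩
    · by_cases hv : v ∈ T'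
      · exact Or.inr (a2 v (Finset.mem_union_right _ hv))
      · exact Or.inl (hT' v hv)
  have h1 := Set.ncard_le_ncard hsub ((hfin B).subset fun f hf => hf.1)
  refine ⟨?_, ?_⟩
  · rw [Set.ncard_pos (hfin B)]
    refine ⟨X ^ (2 * g + 1), ⟨monic_X_pow _, natDegree_X_pow _, ?_⟩, fun j hj σ => ?_⟩
    · rw [coeff_X_pow, if_neg (by omega)]
    · rw [coeff_X_pow, if_neg (by omega)]
      have e0 : ((0 : 𝓞 F) : F) = 0 := rfl
      rw [e0, map_zero, norm_zero]
      positivity
  · rw [← heq] at hle
    exact hle.trans (by exact_mod_cast h1)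

end Pool.Agent.Results.MP_1a91b9_nt.TrivialMordellWeilGroups
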